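import Mathlib.Topology.Sheaves.Presheaf
import Mathlib.Tactic.Monotonicity.Lemmas
import Mathlib.Algebra.Order.Star.Real
import Mathlib.MeasureTheory.Integral.Prod
import Mathlib.MeasureTheory.Group.Integral
import Mathlib.MeasureTheory.Measure.Haar.NormedSpace
import Mathlib.Analysis.SpecialFunctions.Integrals.Basic
import Mathlib.Combinatorics.SimpleGraph.Basic
import Mathlib.Analysis.SpecialFunctions.Trigonometric.Series
import Mathlib.MeasureTheory.Measure.RegularityCompacts
import Mathlib.RingTheory.PiTensorProduct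
import Mathlib.Tactic.Algebra.Basic
import Mathlib.Topology.UniformSpace.Uniformizable

-- ======== part 0: formerly Pool.Agent.MP_20bec2_an.Op
section MrgPart0

set_option autoImplicit false
open MeasureTheory Set Function
open scoped BoundedContinuousFunction

namespace Pool.Agent.MP_20bec2_an

abbrev E (m : ℕ) := Fin m → ℝ
abbrev X (m : ℕ) := E m →ᵇ ℝ

variable {m : ℕ}

/-- uniform measure on the unit cube -/
noncomputable def P (m : ℕ) : Measure (E m) := volume.restrict (Icc 0 1)

instance : IsProbabilityMeasure (P m) := ⟨by simp [P, Real.volume_Icc_pi]⟩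

def Lip (C : ℝ) (g : E m → ℝ) : Prop := ∀ y y', |g y - g y'| ≤ C * ‖y - y'‖

lemma Lip.mono {C C' : ℝ} {g : E m → ℝ} (h : Lip C g) (hC : C ≤ C') : Lip C' g :=
  fun y y' => (h y y').trans (mul_le_mul_of_nonneg_right hC (norm_nonneg _))

lemma Lip.add {C C' : ℝ} {g g' : E m → ℝ} (h : Lip C g) (h' : Lip C' g') :
    Lip (C + C') (fun y => g y + g' y) := fun y y' => by
  have h1 := h y y'; have h2 := h' y y'
  calc |g y + g' y - (g y' + g' y')| = |(g y - g y') + (g' y - g' y')| := by ring_nf
    _ ≤ |g y - g y'| + |g' y - g' y'| := abs_add_le _ _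
    _ ≤ _ := by linarith

lemma Lip.sub {C C' : ℝ} {g g' : E m → ℝ} (h : Lip C g) (h' : Lip C' g') :
    Lip (C + C') (fun y => g y - g' y) := fun y y' => by
  have h1 := h y y'; have h2 := h' y y'
  calc |g y - g' y - (g y' - g' y')| = |(g y - g y') - (g' y - g' y')| := by ring_nf
    _ ≤ |g y - g y'| + |g' y - g' y'| := abs_sub _ _
    _ ≤ _ := by linarith

lemma Lip.continuous {C : ℝ} {g : E m → ℝ} (h : Lip C g) : Continuous g := by
  have : LipschitzWith (Real.toNNReal C) g := LipschitzWith.of_dist_le_mul fun y y' => by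
    rw [Real.dist_eq, dist_eq_norm]
    exact (h y y').trans (mul_le_mul_of_nonneg_right (Real.le_coe_toNNReal C) (norm_nonneg _))
  exact this.continuous

lemma ae_cube : ∀ᵐ s ∂(P m), s ∈ Icc (0 : E m) 1 := ae_restrict_mem measurableSet_Icc

lemma norm_mul_cube {p s : E m} (hs : s ∈ Icc (0 : E m) 1) : ‖p * s‖ ≤ ‖p‖ := by
  refine (pi_norm_le_iff_of_nonneg (norm_nonneg _)).2 fun j => ?_
  have h0 : 0 ≤ s j := hs.1 j
  have h1 : s j ≤ 1 := hs.2 j
  rw [Pi.mul_apply, norm_mul, Real.norm_of_nonneg h0]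
  calc ‖p j‖ * s j ≤ ‖p j‖ * 1 := by gcongr
    _ ≤ ‖p‖ := by rw [mul_one]; exact norm_le_pi_norm p j

lemma integrable_bdd {Ω : Type*} [MeasurableSpace Ω] [TopologicalSpace Ω] [OpensMeasurableSpace Ω]
    [SecondCountableTopology Ω] {V : Type*} [NormedAddCommGroup V]
    (μ : Measure Ω) [IsFiniteMeasure μ] {f : Ω → V} (hf : Continuous f) (C : ℝ)
    (hC : ∀ s, ‖f s‖ ≤ C) : Integrable f μ :=
  Integrable.of_bound hf.aestronglyMeasurable C (Filter.Eventually.of_forall hC)

lemma op_bd (w g : X m) (s y : E m) : ‖w s * g y‖ ≤ ‖w‖ * ‖g‖ := by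
  rw [norm_mul]
  exact mul_le_mul (w.norm_coe_le_norm s) (g.norm_coe_le_norm y) (norm_nonneg _) (norm_nonneg _)

lemma op_int (w g : X m) (p y : E m) : Integrable (fun s => w s * g (y + p * s)) (P m) :=
  integrable_bdd _ (by fun_prop) _ fun s => op_bd w g _ _

noncomputable def opFun (w : X m) (p : E m) (g : X m) (y : E m) : ℝ :=
  ∫ s, w s * g (y + p * s) ∂(P m)

lemma opFun_cont (w : X m) (p : E m) (g : X m) : Continuous (opFun w p g) := by
  refine continuous_of_dominated (bound := fun _ => ‖w‖ * ‖g‖)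
    (fun y => (op_int w g p y).aestronglyMeasurable)
    (fun y => Filter.Eventually.of_forall fun s => op_bd w g _ _) (integrable_const _)
    (Filter.Eventually.of_forall fun s => by fun_prop)

lemma opFun_bd (w : X m) (p : E m) (g : X m) (y : E m) : ‖opFun w p g y‖ ≤ ‖w‖ * ‖g‖ := by
  have := norm_integral_le_of_norm_le_const (μ := P m) (f := fun s => w s * g (y + p * s))
    (C := ‖w‖ * ‖g‖) (Filter.Eventually.of_forall fun s => op_bd w g _ _)
  simpa [opFun] using this

/-- weighted translation average -/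
noncomputable def Op (w : X m) (p : E m) : X m →L[ℝ] X m :=
  LinearMap.mkContinuous
    { toFun := fun g => BoundedContinuousFunction.ofNormedAddCommGroup (opFun w p g)
        (opFun_cont w p g) (‖w‖ * ‖g‖) (opFun_bd w p g)
      map_add' := fun g g' => by
        ext y
        simp only [BoundedContinuousFunction.coe_ofNormedAddCommGroup, opFun,
          BoundedContinuousFunction.coe_add, Pi.add_apply, mul_add]
        exact integral_add (op_int w g p y) (op_int w g' p y)
      map_smul' := fun c g => by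
        ext y
        simp only [BoundedContinuousFunction.coe_ofNormedAddCommGroup, opFun,
          BoundedContinuousFunction.coe_smul, smul_eq_mul, RingHom.id_apply]
        rw [← integral_const_mul]
        congr 1; ext s; ring }
    ‖w‖ (fun g => BoundedContinuousFunction.norm_ofNormedAddCommGroup_le _
      (by positivity) (opFun_bd w p g))

lemma Op_apply (w : X m) (p : E m) (g : X m) (y : E m) :
    Op w p g y = ∫ s, w s * g (y + p * s) ∂(P m) := rfl

lemma norm_Op_le {w : X m} (hw : ‖w‖ ≤ 1) (p : E m) (g : X m) : ‖Op w p g‖ ≤ ‖g‖ := by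
  refine (BoundedContinuousFunction.norm_le (norm_nonneg _)).2 fun y => ?_
  calc ‖Op w p g y‖ ≤ ‖w‖ * ‖g‖ := opFun_bd w p g y
    _ ≤ 1 * ‖g‖ := by gcongr
    _ = ‖g‖ := one_mul _

lemma abs_integral_le {f : E m → ℝ} {C : ℝ} (h : ∀ s ∈ Icc (0 : E m) 1, |f s| ≤ C) :
    |∫ s, f s ∂(P m)| ≤ C := by
  have := norm_integral_le_of_norm_le_const (μ := P m) (f := f) (C := C)
    (by filter_upwards [ae_cube] with s hs using h s hs)
  simpa using this

lemma Op_lip {w : X m} (hw : ‖w‖ ≤ 1) (p : E m) {g : X m} {C : ℝ} (hg : Lip C g) :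
    Lip C (Op w p g) := fun y y' => by
  rw [Op_apply, Op_apply, ← integral_sub (op_int w g p y) (op_int w g p y')]
  refine abs_integral_le fun s _ => ?_
  have h1 := hg (y + p * s) (y' + p * s)
  rw [add_sub_add_right_eq_sub] at h1
  have h2 : |w s| ≤ 1 := (w.norm_coe_le_norm s).trans hw
  rw [← mul_sub, abs_mul]
  calc |w s| * |g (y + p * s) - g (y' + p * s)| ≤ 1 * |g (y + p * s) - g (y' + p * s)| := by gcongr
    _ ≤ _ := by rw [one_mul]; exact h1

lemma Op_comm (w w' : X m) (p p' : E m) (g : X m) : Op w p (Op w' p' g) = Op w' p' (Op w p g) := by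
  ext y
  simp only [Op_apply, ← integral_const_mul]
  rw [integral_integral_swap]
  · congr 1; ext s; congr 1; ext s'
    rw [add_right_comm]; ring
  · refine integrable_bdd _ (by unfold uncurry; fun_prop) (‖w‖ * (‖w'‖ * ‖g‖)) fun s => ?_
    unfold uncurry
    rw [norm_mul]
    exact mul_le_mul (w.norm_coe_le_norm _) (op_bd _ _ _ _) (norm_nonneg _) (norm_nonneg _)

lemma Op_supp (w : X m) (p : E m) {g : X m} {R : ℝ} (hg : ∀ y, R ≤ ‖y‖ → g y = 0) (y : E m)
    (hy : R + ‖p‖ ≤ ‖y‖) : Op w p g y = 0 := by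
  rw [Op_apply]
  refine integral_eq_zero_of_ae ?_
  filter_upwards [ae_cube] with s hs
  have h1 := norm_mul_cube (p := p) hs
  have h2 : ‖y‖ ≤ ‖y + p * s‖ + ‖p * s‖ := by
    simpa using norm_sub_le (y + p * s) (p * s)
  simp [hg (y + p * s) (by linarith)]

/-- plain box average -/
noncomputable def Bx (p : E m) : X m →L[ℝ] X m := Op 1 p

lemma Bx_apply (p : E m) (g : X m) (y : E m) : Bx p g y = ∫ s, g (y + p * s) ∂(P m) := by
  simp [Bx, Op_apply]

lemma bx_int (g : X m) (p y : E m) : Integrable (fun s => g (y + p * s)) (P m) := by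
  simpa using op_int 1 g p y

lemma norm_one_X : ‖(1 : X m)‖ ≤ 1 := by simp

lemma Bx_zero (g : X m) : Bx 0 g = g := by
  ext y; simp [Bx_apply]

lemma norm_Bx_le (p : E m) (g : X m) : ‖Bx p g‖ ≤ ‖g‖ := norm_Op_le norm_one_X p g

lemma Bx_lip (p : E m) {g : X m} {C : ℝ} (hg : Lip C g) : Lip C (Bx p g) := Op_lip norm_one_X p hg

lemma Bx_sub_le (p : E m) (g : X m) (y : E m) {c η : ℝ}
    (h : ∀ z, ‖z‖ ≤ ‖p‖ → |g (y + z) - c| ≤ η) : |Bx p g y - c| ≤ η := by
  have : Bx p g y - c = ∫ s, (g (y + p * s) - c) ∂(P m) := by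
    rw [integral_sub (bx_int g p y) (integrable_const _), Bx_apply]; simp
  rw [this]
  exact abs_integral_le fun s hs => h _ (norm_mul_cube hs)

lemma Bx_mem (p : E m) (g : X m) {a b : ℝ} (h : ∀ y, a ≤ g y ∧ g y ≤ b) (y : E m) :
    a ≤ Bx p g y ∧ Bx p g y ≤ b := by
  have := Bx_sub_le p g y (c := (a + b) / 2) (η := (b - a) / 2) fun z _ => by
    rw [abs_le]; constructor <;> linarith [(h (y + z)).1, (h (y + z)).2]
  rw [abs_le] at this
  constructor <;> linarith [this.1, this.2]

lemma P_eq_pi : P m = Measure.pi (fun _ : Fin m => volume.restrict (Icc (0 : ℝ) 1)) := by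
  rw [P, volume_pi, ← Measure.restrict_pi_pi, Set.pi_univ_Icc]; rfl

instance : IsProbabilityMeasure (volume.restrict (Icc (0 : ℝ) 1)) := ⟨by simp⟩

lemma mp_update (i : Fin m) :
    MeasurePreserving (fun q : E m × ℝ => update q.1 i q.2)
      ((P m).prod (volume.restrict (Icc (0 : ℝ) 1))) (P m) := by
  have hm : Measurable (fun q : E m × ℝ => update q.1 i q.2) := measurable_update'
  refine ⟨hm, Measure.ext fun s hs => ?_⟩
  rw [Measure.map_apply hm hs, ← lintegral_indicator_one (hm hs), ← lintegral_indicator_one hs,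
    lintegral_prod _ ((measurable_one.indicator (hm hs)).aemeasurable), P_eq_pi]
  refine lintegral_eq_of_lmarginal_eq {i} ?_ (measurable_one.indicator hs) ?_
  · exact Measurable.lintegral_prod_right' (measurable_one.indicator (hm hs))
  · rw [lmarginal_singleton, lmarginal_singleton]
    ext x
    have : ∀ (v u : ℝ), ((fun q : E m × ℝ => update q.1 i q.2) ⁻¹' s).indicator
        (1 : E m × ℝ → ENNReal) (update x i v, u) = s.indicator 1 (update x i u) := by
      intro v u
      by_cases h : update x i u ∈ s <;> simp [indicator, h]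
    simp [this]

lemma Op_update (i : Fin m) (w : X m) (w₀ : ℝ → ℝ) (hw : ∀ s ∈ Icc (0 : E m) 1, w s = w₀ (s i))
    (p : E m) (hp : p i = 0) (l : ℝ) (g : X m) (y : E m) :
    Op w (update p i l) g y =
      ∫ u in (0 : ℝ)..1, w₀ u * Bx p g (y + (u * l) • Pi.single i 1) := by
  have hI : Integrable (fun q : E m × ℝ => w (update q.1 i q.2) *
      g (y + update p i l * update q.1 i q.2)) ((P m).prod (volume.restrict (Icc (0 : ℝ) 1))) :=
    (mp_update i).integrable_comp_of_integrable (op_int w g (update p i l) y)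
  rw [Op_apply, ← (mp_update i).map_eq, integral_map (mp_update i).measurable.aemeasurable
    (by rw [(mp_update i).map_eq]; exact (op_int w g _ y).aestronglyMeasurable),
    integral_prod_symm _ hI, intervalIntegral.integral_of_le zero_le_one,
    ← integral_Icc_eq_integral_Ioc]
  refine setIntegral_congr_fun measurableSet_Icc fun u hu => ?_
  simp only [Bx_apply, ← integral_const_mul]
  refine integral_congr_ae ?_
  filter_upwards [ae_cube] with s hs
  have h1 : update s i u ∈ Icc (0 : E m) 1 := by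
    constructor <;> intro j <;> by_cases h : j = i
    · subst h; simpa using hu.1
    · simpa [h] using hs.1 j
    · subst h; simpa using hu.2
    · simpa [h] using hs.2 j
  rw [hw _ h1, update_self]
  congr 2
  ext j
  by_cases h : j = i
  · subst h; simp [hp, mul_comm]
  · simp [h]

def cst (l : ℝ) : E m := fun _ => l

lemma norm_cst_le {l : ℝ} (hl : 0 ≤ l) : ‖(cst l : E m)‖ ≤ l :=
  (pi_norm_le_iff_of_nonneg hl).2 fun _ => by simp [cst, abs_of_nonneg hl]

lemma box_formula {l : ℝ} (hl : 0 < l) (g : X m) (y : E m) :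
    l ^ m * Bx (cst l) g y = ∫ x in Icc y (y + cst l), g x := by
  have h1 : Bx (cst l) g y = ∫ s : E m, (fun z => (Icc y (y + cst l)).indicator g (y + z)) (l • s) := by
    rw [Bx_apply, P, ← integral_indicator measurableSet_Icc]
    congr 1; ext s
    have e : (cst l : E m) * s = l • s := by ext j; simp [cst]
    have : (y + l • s ∈ Icc y (y + cst l)) ↔ s ∈ Icc (0 : E m) 1 := by
      simp only [mem_Icc, Pi.le_def, Pi.smul_apply, smul_eq_mul, cst, Pi.zero_apply,
        Pi.one_apply, le_add_iff_nonneg_right, add_le_add_iff_left]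
      constructor
      · rintro ⟨h0, h1⟩
        exact ⟨fun j => nonneg_of_mul_nonneg_right (by simpa [mul_comm] using h0 j) hl |> fun h => h,
          fun j => by have := h1 j; nlinarith⟩
      · rintro ⟨h0, h1⟩
        exact ⟨fun j => mul_nonneg hl.le (h0 j), fun j => by have := h1 j; nlinarith⟩
    beta_reduce
    by_cases hs : s ∈ Icc (0 : E m) 1
    · rw [indicator_of_mem hs, indicator_of_mem (this.2 hs), e]
    · rw [indicator_of_notMem hs, indicator_of_notMem (mt this.1 hs)]
  rw [h1, Measure.integral_comp_smul volume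
    (fun z => (Icc y (y + cst l)).indicator g (y + z)) l,
    integral_add_left_eq_self, integral_indicator measurableSet_Icc]
  have : (0 : ℝ) < l ^ m := by positivity
  simp only [Module.finrank_fin_fun, smul_eq_mul, abs_of_pos (inv_pos.2 this)]
  field_simp

/-- `ψ` pushes `J dy` forward to Lebesgue measure -/
def Push (ψ : E m → E m) (J : E m → ℝ) : Prop :=
  ∀ φ : E m → ENNReal, Measurable φ → ∫⁻ y, φ (ψ y) * ENNReal.ofReal (J y) = ∫⁻ x, φ x

lemma unifCont_of_lip {α β : Type*} [NormedAddCommGroup α] [NormedAddCommGroup β] {ψ : α → β} {K : ℝ}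
    (h : ∀ y y', ‖ψ y - ψ y'‖ ≤ K * ‖y - y'‖) : UniformContinuous ψ := by
  have : LipschitzWith (Real.toNNReal K) ψ := LipschitzWith.of_dist_le_mul fun y y' => by
    rw [dist_eq_norm, dist_eq_norm]
    exact (h y y').trans (mul_le_mul_of_nonneg_right (Real.le_coe_toNNReal K) (norm_nonneg _))
  exact this.uniformContinuous

lemma Push.surj {ψ : E m → E m} {J : E m → ℝ} (h : Push ψ J) (hc : UniformContinuous ψ) {K : ℝ}
    (ha : ∀ y y', ‖y - y'‖ ≤ K * ‖ψ y - ψ y'‖) : Surjective ψ := by
  have hA : AntilipschitzWith (Real.toNNReal K) ψ := AntilipschitzWith.of_le_mul_dist fun y y' => by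
    rw [dist_eq_norm, dist_eq_norm]
    exact (ha y y').trans (mul_le_mul_of_nonneg_right (Real.le_coe_toNNReal K) (norm_nonneg _))
  have hcl : IsClosed (range ψ) := hA.isClosed_range hc
  have h0 := h ((range ψ)ᶜ.indicator 1) (measurable_one.indicator hcl.measurableSet.compl)
  rw [lintegral_indicator_one hcl.measurableSet.compl] at h0
  have : volume (range ψ)ᶜ = 0 := by
    rw [← h0]; simp
  have := (hcl.isOpen_compl.measure_eq_zero_iff volume).1 this
  rwa [compl_empty_iff, range_eq_univ] at this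

lemma one_add_pow_le {x : ℝ} (h0 : 0 ≤ x) (h1 : x ≤ 1) (n : ℕ) : (1 + x) ^ n ≤ 1 + (2 ^ n - 1) * x := by
  induction n with
  | zero => simp
  | succ n ih =>
    have h2 : (1 : ℝ) ≤ 2 ^ n := one_le_pow₀ (by norm_num)
    calc (1 + x) ^ (n + 1) = (1 + x) ^ n * (1 + x) := pow_succ _ _
      _ ≤ (1 + (2 ^ n - 1) * x) * (1 + x) := by gcongr
      _ = 1 + 2 ^ n * x + (2 ^ n - 1) * x * x := by ring
      _ ≤ 1 + 2 ^ n * x + (2 ^ n - 1) * x * 1 := by
          have := mul_nonneg (sub_nonneg.2 h2) h0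
          gcongr
      _ = _ := by ring

lemma transport_aux {ψ : E m → E m} {J : E m → ℝ} (h : Push ψ J) (hc : Continuous ψ)
    (ha : ∀ y y', ‖y - y'‖ ≤ 2 * ‖ψ y - ψ y'‖) (hJ : ∀ y, 0 ≤ J y) (g : X m) (hg : ∀ y, 0 ≤ g y)
    (u : E m) (g₁ : X m) (h₁ : ∀ y, g₁ y = g (u + ψ y) * J y) {S : Set (E m)} (hS : IsCompact S) :
    ENNReal.ofReal (∫ y in S, g₁ y) =
      ∫⁻ x, (ψ '' S).indicator 1 (x - u) * ENNReal.ofReal (g x) := by
  have hm : MeasurableSet (ψ '' S) := (hS.image hc).isClosed.measurableSet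
  have hinj : Injective ψ := fun y y' e => by
    have := ha y y'
    rw [e, sub_self, norm_zero, mul_zero] at this
    exact sub_eq_zero.1 (norm_le_zero_iff.1 this)
  rw [ofReal_integral_eq_lintegral_ofReal (g₁.continuous.continuousOn.integrableOn_compact hS)
    (Filter.Eventually.of_forall fun y => by rw [h₁]; exact mul_nonneg (hg _) (hJ _)),
    ← lintegral_add_left_eq_self (μ := volume) _ u]
  simp only [add_sub_cancel_left]
  rw [← h (fun x => (ψ '' S).indicator 1 x * ENNReal.ofReal (g (u + x)))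
      ((measurable_one.indicator hm).mul (by fun_prop)),
    ← lintegral_indicator hS.isClosed.measurableSet]
  congr 1; ext y
  by_cases hy : y ∈ S
  · rw [indicator_of_mem hy, indicator_of_mem (mem_image_of_mem _ hy), h₁,
      ENNReal.ofReal_mul (hg _)]; simp
  · rw [indicator_of_notMem hy, indicator_of_notMem (by rwa [hinj.mem_set_image])]; simp

lemma transport_one {ψ : E m → E m} {J : E m → ℝ} (h : Push ψ J) (hc : UniformContinuous ψ)
    (ha : ∀ y y', ‖y - y'‖ ≤ 2 * ‖ψ y - ψ y'‖) (hJ : ∀ y, 0 ≤ J y ∧ J y ≤ 2) (g : X m) {b : ℝ}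
    (hg : ∀ y, 0 ≤ g y ∧ g y ≤ b) (u u' : E m) (g₁ g₂ : X m) (h₁ : ∀ y, g₁ y = g (u + ψ y) * J y)
    (h₂ : ∀ y, g₂ y = g (u' + ψ y) * J y) {l : ℝ} (hl : 0 < l) (y : E m) :
    Bx (cst l) g₁ y - Bx (cst l) g₂ y ≤ 8 * 2 ^ m * b * ‖u - u'‖ / l := by
  have hb : 0 ≤ b := (hg 0).1.trans (hg 0).2
  have hm : (1 : ℝ) ≤ 2 ^ m := one_le_pow₀ (by norm_num)
  have b₁ : ∀ y, 0 ≤ g₁ y ∧ g₁ y ≤ 2 * b := fun y => by
    rw [h₁]; exact ⟨mul_nonneg (hg _).1 (hJ _).1, by nlinarith [hg (u + ψ y), hJ y]⟩
  have b₂ : ∀ y, 0 ≤ g₂ y ∧ g₂ y ≤ 2 * b := fun y => by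
    rw [h₂]; exact ⟨mul_nonneg (hg _).1 (hJ _).1, by nlinarith [hg (u' + ψ y), hJ y]⟩
  set e := 2 * ‖u - u'‖ with he
  have he0 : 0 ≤ e := by positivity
  have hx0 : 0 ≤ 2 * e / l := by positivity
  have hfin : 8 * 2 ^ m * b * ‖u - u'‖ / l = 2 * b * (2 ^ m * (2 * e / l)) := by rw [he]; ring
  rw [hfin]
  rcases le_or_gt (2 * e / l) 1 with hx | hx
  swap
  · have := (Bx_mem (cst l) g₁ b₁ y).2
    have := (Bx_mem (cst l) g₂ b₂ y).1
    have : 2 * b * 1 ≤ 2 * b * (2 ^ m * (2 * e / l)) := by gcongr; nlinarith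
    linarith
  set S : Set (E m) := Icc y (y + cst l)
  set S' : Set (E m) := Icc (y - cst e) (y + cst l + cst e)
  have hSS : S ⊆ S' := Icc_subset_Icc (fun j => by simp [cst, he0]) (fun j => by simp [cst, he0])
  have hsurj := h.surj hc ha
  have k1 : ∫ y in S, g₁ y ≤ ∫ y in S', g₂ y := by
    rw [← ENNReal.ofReal_le_ofReal_iff (setIntegral_nonneg measurableSet_Icc fun y _ => (b₂ y).1),
      transport_aux h hc.continuous ha (fun y => (hJ y).1) g (fun y => (hg y).1) u g₁ h₁ (S := S) isCompact_Icc,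
      transport_aux h hc.continuous ha (fun y => (hJ y).1) g (fun y => (hg y).1) u' g₂ h₂ (S := S') isCompact_Icc]
    refine lintegral_mono fun x => ?_
    by_cases hx : x - u ∈ ψ '' S
    · obtain ⟨z, hz, hzx⟩ := hx
      obtain ⟨z', hz'⟩ := hsurj (x - u')
      have : ‖z' - z‖ ≤ e := by
        have := ha z' z
        rwa [hz', hzx, show x - u' - (x - u) = u - u' by abel] at this
      have hz'S : z' ∈ S' := by
        constructor <;> intro j
        · have := (abs_le.1 ((norm_le_pi_norm (z' - z) j).trans this)).1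
          have := hz.1 j
          simp only [Pi.sub_apply, cst] at *; linarith
        · have := (abs_le.1 ((norm_le_pi_norm (z' - z) j).trans this)).2
          have := hz.2 j
          simp only [Pi.sub_apply, Pi.add_apply, cst] at *; linarith
      have m1 : x - u ∈ ψ '' S := ⟨z, hz, hzx⟩
      have m2 : x - u' ∈ ψ '' S' := ⟨z', hz'S, hz'⟩
      simp only [indicator_of_mem m1, indicator_of_mem m2, Pi.one_apply, le_refl]
    · simp [indicator_of_notMem hx]
  have i2 : IntegrableOn g₂ S' := g₂.continuous.continuousOn.integrableOn_compact isCompact_Icc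
  have k2 : ∫ y in S', g₂ y = (∫ y in S, g₂ y) + ∫ y in S' \ S, g₂ y := by
    rw [setIntegral_sdiff measurableSet_Icc i2 hSS]; ring
  have v1 : volume.real S = l ^ m := by
    simp [S, Measure.real, Real.volume_Icc_pi, cst, hl.le]
  have v2 : volume.real S' = (l + 2 * e) ^ m := by
    have : ∀ j, (y + cst l + cst e : E m) j - (y - cst e : E m) j = l + 2 * e := fun j => by
      simp [cst]; ring
    simp only [S', Measure.real, Real.volume_Icc_pi, this]
    simp [show 0 ≤ l + 2 * e by positivity]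
  have k3 : ∫ y in S' \ S, g₂ y ≤ 2 * b * ((l + 2 * e) ^ m - l ^ m) := by
    have hfin : volume S' ≠ ⊤ := isCompact_Icc.measure_lt_top.ne
    have := norm_setIntegral_le_of_norm_le_const (μ := volume) (s := S' \ S) (f := g₂) (C := 2 * b)
      ((measure_mono sdiff_subset).trans_lt hfin.lt_top)
      (fun y _ => by rw [Real.norm_of_nonneg (b₂ y).1]; exact (b₂ y).2)
    rw [measureReal_sdiff hSS measurableSet_Icc hfin, v1, v2] at this
    exact (le_abs_self _).trans this
  have hp : 0 < l ^ m := by positivity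
  have k4 : (l + 2 * e) ^ m - l ^ m ≤ l ^ m * (2 ^ m * (2 * e / l)) := by
    have : l + 2 * e = l * (1 + 2 * e / l) := by field_simp
    rw [this, mul_pow]
    have := one_add_pow_le hx0 hx m
    nlinarith [mul_le_mul_of_nonneg_left this hp.le, mul_nonneg hp.le hx0]
  have f1 := box_formula hl g₁ y
  have f2 := box_formula hl g₂ y
  refine le_of_mul_le_mul_left ?_ hp
  have : 2 * b * ((l + 2 * e) ^ m - l ^ m) ≤ 2 * b * (l ^ m * (2 ^ m * (2 * e / l))) := by gcongr
  rw [mul_sub, f1, f2]
  nlinarith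

lemma transport {ψ : E m → E m} {J : E m → ℝ} (h : Push ψ J) (hc : UniformContinuous ψ)
    (ha : ∀ y y', ‖y - y'‖ ≤ 2 * ‖ψ y - ψ y'‖) (hJ : ∀ y, 0 ≤ J y ∧ J y ≤ 2) (g : X m) {b : ℝ}
    (hg : ∀ y, 0 ≤ g y ∧ g y ≤ b) (u u' : E m) (g₁ g₂ : X m) (h₁ : ∀ y, g₁ y = g (u + ψ y) * J y)
    (h₂ : ∀ y, g₂ y = g (u' + ψ y) * J y) {l : ℝ} (hl : 0 < l) (y : E m) :
    |Bx (cst l) g₁ y - Bx (cst l) g₂ y| ≤ 8 * 2 ^ m * b * ‖u - u'‖ / l := by
  have k1 := transport_one h hc ha hJ g hg u u' g₁ g₂ h₁ h₂ hl y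
  have k2 := transport_one h hc ha hJ g hg u' u g₂ g₁ h₂ h₁ hl y
  rw [norm_sub_rev] at k2
  rw [abs_le]; constructor <;> linarith

lemma push_id : Push (fun y : E m => y) (fun _ => 1) := fun φ _ => by simp

lemma Box_lip {l : ℝ} (hl : 0 < l) (g : X m) : Lip (16 * 2 ^ m * ‖g‖ / l) (Bx (cst l) g) := by
  intro y y'
  set g₀ : X m := g + BoundedContinuousFunction.const _ ‖g‖
  have hg : ∀ y, 0 ≤ g₀ y ∧ g₀ y ≤ 2 * ‖g‖ := fun y => by
    have := abs_le.1 (g.norm_coe_le_norm y)
    simp only [g₀, BoundedContinuousFunction.coe_add, Pi.add_apply,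
      BoundedContinuousFunction.const_apply]
    constructor <;> linarith [this.1, this.2]
  let T : E m → X m := fun u => g₀.compContinuous ⟨fun z => u + z, by fun_prop⟩
  have hT : ∀ u, Bx (cst l) (T u) 0 = Bx (cst l) g u + ‖g‖ := fun u => by
    simp only [Bx_apply, T, g₀, BoundedContinuousFunction.compContinuous_apply,
      ContinuousMap.coe_mk, zero_add, BoundedContinuousFunction.coe_add, Pi.add_apply,
      BoundedContinuousFunction.const_apply]
    rw [integral_add (bx_int g _ _) (integrable_const _)]; simp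
  have := transport push_id uniformContinuous_id (fun y y' => by linarith [norm_nonneg (y - y')])
    (fun _ => by norm_num) g₀ hg y y' (T y) (T y') (fun z => by simp [T]) (fun z => by simp [T]) hl 0
  rw [hT, hT, add_sub_add_right_eq_sub] at this
  refine this.trans (le_of_eq ?_)
  ring

end Pool.Agent.MP_20bec2_an

end MrgPart0

-- ======== part 1: formerly Pool.Agent.MP_20bec2_an.Hoeff
section MrgPart1

set_option autoImplicit false
open MeasureTheory Set Function
open scoped BoundedContinuousFunction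

namespace Pool.Agent.MP_20bec2_an

variable {m : ℕ}

lemma int_cont {V : Type*} [NormedAddCommGroup V] {f : E m → V} (hf : Continuous f) :
    Integrable f (P m) := hf.continuousOn.integrableOn_compact isCompact_Icc

lemma potential {ι : Type*} [Fintype ι] (g : ℕ → ι → E m → ℝ) (hc : ∀ t k, Continuous (g t k))
    (hb : ∀ t k, ∀ a ∈ Icc (0 : E m) 1, |g t k a| ≤ 1) (h0 : ∀ t k, ∫ a, g t k a ∂(P m) = 0)
    (η : ℝ) (N : ℕ) :
    ∃ a : ℕ → E m, (∀ t, a t ∈ Icc (0 : E m) 1) ∧
      ∑ k, Real.exp (η * ∑ t ∈ Finset.range N, g t k (a t)) ≤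
        Fintype.card ι * Real.exp (N * (η ^ 2 / 2)) := by
  induction N with
  | zero => exact ⟨fun _ => 0, fun _ => ⟨le_rfl, zero_le_one⟩, by simp⟩
  | succ N ih =>
    obtain ⟨a, ha, hs⟩ := ih
    set c : ι → ℝ := fun k => Real.exp (η * ∑ t ∈ Finset.range N, g t k (a t))
    have hc0 : ∀ k, 0 ≤ c k := fun k => (Real.exp_pos _).le
    let f : E m → ℝ := fun x => ∑ k, c k * (Real.cosh η + g N k x * Real.sinh η)
    have hf : Continuous f := by fun_prop
    obtain ⟨x, hx, hle⟩ := exists_le_setAverage (μ := volume) (s := Icc (0 : E m) 1) (f := f)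
      (by simp [Real.volume_Icc_pi]) isCompact_Icc.measure_lt_top.ne (int_cont hf)
    have hav : ⨍ x in Icc (0 : E m) 1, f x = (∑ k, c k) * Real.cosh η := by
      change ⨍ x, f x ∂(P m) = _
      rw [average_eq_integral, integral_finsetSum _ fun k _ => int_cont (by fun_prop), Finset.sum_mul]
      refine Finset.sum_congr rfl fun k _ => ?_
      rw [integral_const_mul, integral_add (integrable_const _) (int_cont (by fun_prop)),
        integral_mul_const, h0]
      simp
    refine ⟨update a N x, fun t => ?_, ?_⟩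
    · by_cases h : t = N
      · subst h; simpa using hx
      · simpa [h] using ha t
    · have e : ∀ k, ∑ t ∈ Finset.range (N + 1), g t k (update a N x t) =
          ∑ t ∈ Finset.range N, g t k (a t) + g N k x := fun k => by
        rw [Finset.sum_range_succ, update_self]
        congr 1
        exact Finset.sum_congr rfl fun t ht => by rw [update_of_ne (Finset.mem_range.1 ht).ne]
      calc _ = ∑ k, c k * Real.exp (g N k x * η) := by
            refine Finset.sum_congr rfl fun k _ => ?_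
            rw [e, mul_add, Real.exp_add, mul_comm η (g N k x)]
        _ ≤ f x := Finset.sum_le_sum fun k _ => mul_le_mul_of_nonneg_left
            (Real.exp_mul_le_cosh_add_mul_sinh (hb N k x hx) η) (hc0 k)
        _ ≤ (∑ k, c k) * Real.cosh η := hav ▸ hle
        _ ≤ (Fintype.card ι * Real.exp (N * (η ^ 2 / 2))) * Real.exp (η ^ 2 / 2) :=
            mul_le_mul hs (Real.cosh_le_exp_half_sq η) (Real.cosh_pos η).le (by positivity)
        _ = _ := by rw [mul_assoc, ← Real.exp_add]; congr 2; push_cast; ring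

lemma hoeff {ι : Type*} [Fintype ι] (g : ℕ → ι → E m → ℝ) (hc : ∀ t k, Continuous (g t k))
    (hb : ∀ t k, ∀ a ∈ Icc (0 : E m) 1, |g t k a| ≤ 1) (h0 : ∀ t k, ∫ a, g t k a ∂(P m) = 0)
    {η : ℝ} (hη : 0 < η) (N : ℕ) (hN : 2 * Fintype.card ι ≤ Real.exp (N * (η ^ 2 / 2))) :
    ∃ a : ℕ → E m, (∀ t, a t ∈ Icc (0 : E m) 1) ∧
      ∀ k, |∑ t ∈ Finset.range N, g t k (a t)| ≤ η * N := by
  obtain ⟨a, ha, hs⟩ := potential (ι := ι × Bool)
    (fun t k x => if k.2 then g t k.1 x else -g t k.1 x)
    (fun t k => by cases h : k.2 <;> simp only [Bool.false_eq_true, if_true, if_false] <;> fun_prop)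
    (fun t k x hx => by cases h : k.2 <;> simpa using hb t k.1 x hx)
    (fun t k => by cases h : k.2 <;> simp [integral_neg, h0]) η N
  refine ⟨a, ha, fun k => ?_⟩
  have key : ∀ b : Bool, η * ∑ t ∈ Finset.range N, (if b then g t k (a t) else -g t k (a t)) ≤
      η * (η * N) := fun b => by
    have h1 := Finset.single_le_sum (f := fun k : ι × Bool =>
      Real.exp (η * ∑ t ∈ Finset.range N, (if k.2 then g t k.1 (a t) else -g t k.1 (a t))))
      (fun _ _ => (Real.exp_pos _).le) (Finset.mem_univ (k, b))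
    have h2 : (Fintype.card (ι × Bool) : ℝ) = 2 * Fintype.card ι := by simp [mul_comm]
    rw [h2] at hs
    have h3 := (h1.trans hs).trans (mul_le_mul_of_nonneg_right hN (Real.exp_pos _).le)
    rw [← Real.exp_add, Real.exp_le_exp] at h3
    refine h3.trans (le_of_eq (by ring))
  have k1 := le_of_mul_le_mul_left (key true) hη
  have k2 := le_of_mul_le_mul_left (key false) hη
  simp only [if_true, Bool.false_eq_true, if_false, Finset.sum_neg_distrib] at k1 k2
  rw [abs_le]; constructor <;> linarith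

lemma exists_net {R μ : ℝ} (hR : 0 ≤ R) (hμ : 0 < μ) :
    ∃ T : Finset (E m), (T.card : ℝ) ≤ (2 * R / μ + 3) ^ m ∧
      ∀ y : E m, ‖y‖ ≤ R → ∃ z ∈ T, ‖y - z‖ ≤ μ := by
  classical
  set M : ℕ := ⌈R / μ⌉₊
  refine ⟨(Fintype.piFinset fun _ : Fin m => Finset.Icc (-(M : ℤ)) M).image
    fun k j => μ * (k j : ℝ), ?_, fun y hy => ?_⟩
  · have h1 : (M : ℝ) < R / μ + 1 := Nat.ceil_lt_add_one (by positivity)
    have h2 : (Finset.Icc (-(M : ℤ)) M).card = 2 * M + 1 := by simp; omega
    calc _ ≤ ((Fintype.piFinset fun _ : Fin m => Finset.Icc (-(M : ℤ)) M).card : ℝ) := by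
          exact_mod_cast Finset.card_image_le
      _ = (2 * M + 1 : ℝ) ^ m := by rw [Fintype.card_piFinset]; simp only [h2]; simp
      _ ≤ _ := pow_le_pow_left₀ (by positivity) (by rw [mul_div_assoc]; linarith) m
  · refine ⟨fun j => μ * (⌊y j / μ⌋ : ℝ), Finset.mem_image.2 ⟨fun j => ⌊y j / μ⌋, ?_, rfl⟩, ?_⟩
    · refine Fintype.mem_piFinset.2 fun j => ?_
      have h1 := abs_le.1 ((norm_le_pi_norm y j).trans hy)
      have h2 : R / μ ≤ M := Nat.le_ceil _
      have h3 : y j / μ ≤ R / μ := by gcongr; exact h1.2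
      have h4 : -R / μ ≤ y j / μ := by gcongr; exact h1.1
      rw [neg_div] at h4
      rw [Finset.mem_Icc, Int.le_floor, Int.floor_le_iff]
      push_cast
      constructor <;> linarith
    · refine (pi_norm_le_iff_of_nonneg hμ.le).2 fun j => ?_
      have h1 := Int.floor_le (y j / μ)
      have h2 := Int.lt_floor_add_one (y j / μ)
      rw [le_div_iff₀ hμ] at h1
      rw [div_lt_iff₀ hμ] at h2
      simp only [Pi.sub_apply, Real.norm_eq_abs, abs_le]
      constructor <;> nlinarith

lemma hoeff_X {κ : Type*} [Fintype κ] (L : κ → X m →L[ℝ] X m) (B : κ → ℝ) (hB : ∀ k, 0 < B k)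
    (V : ℕ → E m → X m) (hc : ∀ t, Continuous (V t))
    (hb : ∀ t k, ∀ a ∈ Icc (0 : E m) 1, ‖L k (V t a)‖ ≤ B k) (h0 : ∀ t, ∫ a, V t a ∂(P m) = 0)
    (T : Finset (E m)) {η : ℝ} (hη : 0 < η) (N : ℕ)
    (hN : 2 * (Fintype.card κ * T.card) ≤ Real.exp (N * (η ^ 2 / 2))) :
    ∃ a : ℕ → E m, (∀ t, a t ∈ Icc (0 : E m) 1) ∧
      ∀ k, ∀ z ∈ T, |L k (∑ t ∈ Finset.range N, V t (a t)) z| ≤ η * N * B k := by
  obtain ⟨a, ha, h⟩ := hoeff (ι := κ × T) (fun t k a => L k.1 (V t a) k.2 / B k.1)
    (fun t k => by have := hc t; fun_prop)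
    (fun t k a ha => by
      rw [abs_div, abs_of_pos (hB _), div_le_one (hB _)]
      exact ((L k.1 (V t a)).norm_coe_le_norm k.2).trans (hb t k.1 a ha))
    (fun t k => by
      rw [integral_div]
      have := ((BoundedContinuousFunction.evalCLM ℝ (k.2 : E m)).comp (L k.1)).integral_comp_comm
        (int_cont (hc t))
      simp only [h0, map_zero, ContinuousLinearMap.comp_apply,
        BoundedContinuousFunction.evalCLM_apply] at this
      rw [this, zero_div]) hη N (by simpa using hN)
  refine ⟨a, ha, fun k z hz => ?_⟩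
  have := h (k, ⟨z, hz⟩)
  simp only [← Finset.sum_div] at this
  rw [abs_div, abs_of_pos (hB _), div_le_iff₀ (hB _)] at this
  simpa [map_sum] using this

end Pool.Agent.MP_20bec2_an

end MrgPart1

-- ======== part 2: formerly Pool.Agent.MP_20bec2_an.Tent
section MrgPart2

set_option autoImplicit false
open MeasureTheory Set Function

namespace Pool.Agent.MP_20bec2_an

noncomputable def idx (h o r : ℝ) : ℤ := ⌊(r - o) / h⌋
noncomputable def tent (h o r : ℝ) : ℝ := min (r - (o + idx h o r * h)) (o + (idx h o r + 1) * h - r)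

variable {h : ℝ} (hh : 0 < h) (o : ℝ)
include hh

lemma idx_le (r : ℝ) : o + idx h o r * h ≤ r := by
  have := Int.floor_le ((r - o) / h)
  rw [le_div_iff₀ hh] at this
  unfold idx; linarith

lemma lt_idx (r : ℝ) : r < o + (idx h o r + 1) * h := by
  have := Int.lt_floor_add_one ((r - o) / h)
  rw [div_lt_iff₀ hh] at this
  unfold idx; linarith

lemma idx_eq {r : ℝ} {j : ℤ} (h1 : o + j * h ≤ r) (h2 : r < o + (j + 1) * h) : idx h o r = j := by
  unfold idx
  rw [Int.floor_eq_iff, le_div_iff₀ hh, div_lt_iff₀ hh]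
  constructor <;> linarith

lemma tent_nonneg (r : ℝ) : 0 ≤ tent h o r :=
  le_min (by linarith [idx_le hh o r]) (by linarith [lt_idx hh o r])

omit hh in
lemma tent_le (r : ℝ) : tent h o r ≤ h / 2 := by
  have h1 : tent h o r ≤ r - (o + idx h o r * h) := min_le_left _ _
  have h2 : tent h o r ≤ o + (idx h o r + 1) * h - r := min_le_right _ _
  linarith

lemma tent_grid (j : ℤ) : tent h o (o + j * h) = 0 := by
  unfold tent
  rw [idx_eq hh o (j := j) le_rfl (by linarith)]
  rw [sub_self, min_eq_left (by linarith)]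

lemma tent_eq {r : ℝ} {j : ℤ} (h1 : o + j * h ≤ r) (h2 : r ≤ o + (j + 1) * h) :
    tent h o r = min (r - (o + j * h)) (o + (j + 1) * h - r) := by
  rcases h2.lt_or_eq with h2 | h2
  · unfold tent; rw [idx_eq hh o h1 h2]
  · have := tent_grid hh o (j + 1)
    push_cast at this
    rw [h2, this, sub_self, min_eq_right (by linarith)]

lemma tent_sel {V : Type*} [AddCommGroup V] [Module ℝ V] (Z : ℤ → V) {r : ℝ} {j : ℤ}
    (h1 : o + j * h ≤ r) (h2 : r ≤ o + (j + 1) * h) :
    tent h o r • Z (idx h o r) = tent h o r • Z j := by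
  rcases h2.lt_or_eq with h2 | h2
  · rw [idx_eq hh o h1 h2]
  · have := tent_grid hh o (j + 1)
    push_cast at this
    rw [h2, this, zero_smul, zero_smul]

lemma glue {V : Type*} [NormedAddCommGroup V] [NormedSpace ℝ V] (Z : ℤ → V) {B : ℝ}
    (hZ : ∀ j, ‖Z j‖ ≤ B) (r r' : ℝ) :
    ‖tent h o r • Z (idx h o r) - tent h o r' • Z (idx h o r')‖ ≤ B * |r - r'| := by
  have hB : 0 ≤ B := (norm_nonneg _).trans (hZ 0)
  wlog hr : r' ≤ r generalizing r r'
  · rw [norm_sub_rev, abs_sub_comm]; exact this r' r (le_of_not_ge hr)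
  have a1 := idx_le hh o r
  have a2 := lt_idx hh o r
  have a3 := idx_le hh o r'
  have a4 := lt_idx hh o r'
  rw [abs_of_nonneg (sub_nonneg.2 hr)]
  by_cases e : idx h o r = idx h o r'
  · rw [← e, ← sub_smul, norm_smul, mul_comm]
    refine mul_le_mul (hZ _) ?_ (norm_nonneg _) hB
    unfold tent
    rw [← e, Real.norm_eq_abs]
    refine (abs_min_sub_min_le_max _ _ _ _).trans (max_le ?_ ?_) <;> rw [abs_le] <;>
      constructor <;> linarith
  · have hle : idx h o r' ≤ idx h o r := Int.floor_le_floor (by gcongr)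
    have hlt : (idx h o r' : ℝ) + 1 ≤ idx h o r := by exact_mod_cast lt_of_le_of_ne hle (Ne.symm e)
    have h1 : tent h o r ≤ r - (o + idx h o r * h) := min_le_left _ _
    have h2 : tent h o r' ≤ o + (idx h o r' + 1) * h - r' := min_le_right _ _
    have h3 := mul_le_mul_of_nonneg_right hlt hh.le
    calc _ ≤ ‖tent h o r • Z (idx h o r)‖ + ‖tent h o r' • Z (idx h o r')‖ := norm_sub_le _ _
      _ ≤ tent h o r * B + tent h o r' * B := by
          rw [norm_smul, norm_smul, Real.norm_of_nonneg (tent_nonneg hh o r),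
            Real.norm_of_nonneg (tent_nonneg hh o r')]
          have := tent_nonneg hh o r
          have := tent_nonneg hh o r'
          gcongr <;> exact hZ _
      _ = B * (tent h o r + tent h o r') := by ring
      _ ≤ _ := by gcongr; linarith

lemma tent_lip (r r' : ℝ) : |tent h o r - tent h o r'| ≤ |r - r'| := by
  simpa using glue hh o (fun _ => (1 : ℝ)) (B := 1) (by simp) r r'

lemma tent_cont : Continuous (tent h o) :=
  (LipschitzWith.of_dist_le_mul (K := 1) fun r r' => by
    simpa [Real.dist_eq] using tent_lip hh o r r').continuous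

lemma tent_near (r : ℝ) : ∃ n : ℤ, |r - (o + n * h)| = tent h o r := by
  have a1 := idx_le hh o r
  have a2 := lt_idx hh o r
  rcases le_total (r - (o + idx h o r * h)) (o + (idx h o r + 1) * h - r) with e | e
  · exact ⟨idx h o r, by rw [tent, min_eq_left e, abs_of_nonneg (by linarith)]⟩
  · exact ⟨idx h o r + 1, by
      rw [tent, min_eq_right e, abs_of_nonpos (by push_cast; linarith)]; push_cast; ring⟩

lemma tent_integral (j : ℤ) : h ^ 2 / 6 ≤ ∫ r in (o + j * h)..(o + (j + 1) * h), tent h o r := by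
  have e : ∫ r in (o + j * h)..(o + (j + 1) * h), (r - (o + j * h)) * (o + (j + 1) * h - r) / h =
      h ^ 2 / 6 := by
    have := intervalIntegral.integral_comp_add_left (a := 0) (b := h)
      (fun r => (r - (o + j * h)) * (o + (j + 1) * h - r) / h) (o + j * h)
    rw [add_zero, show o + j * h + h = o + (j + 1) * h by ring] at this
    rw [← this]
    have : ∀ x : ℝ, (o + j * h + x - (o + j * h)) * (o + (j + 1) * h - (o + j * h + x)) / h =
        x - x ^ 2 / h := fun x => by field_simp; ring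
    simp only [this]
    rw [intervalIntegral.integral_sub ((by fun_prop : Continuous _).intervalIntegrable _ _)
      ((by fun_prop : Continuous _).intervalIntegrable _ _)]
    simp
    field_simp
    ring
  rw [← e]
  refine intervalIntegral.integral_mono_on (by linarith)
    ((by fun_prop : Continuous _).intervalIntegrable _ _)
    ((tent_cont hh o).intervalIntegrable _ _) fun r hr => ?_
  rw [tent_eq hh o hr.1 hr.2, div_le_iff₀ hh]
  have a1 := hr.1
  have a2 := hr.2
  rcases le_total (r - (o + j * h)) (o + (j + 1) * h - r) with e | e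
  · rw [min_eq_left e]; nlinarith
  · rw [min_eq_right e]; nlinarith

lemma tent_stagger (q : ℕ) (r : ℝ) :
    h / 6 ≤ tent ((3 * q + 2) * h) ((3 * q + 2) * h / 3) r ∨ h / 6 ≤ tent h (h / 3) r := by
  obtain ⟨n, hn⟩ := tent_near (h := (3 * q + 2) * h) (by positivity) ((3 * q + 2) * h / 3) r
  obtain ⟨n', hn'⟩ := tent_near hh (h / 3) r
  by_contra hc
  push Not at hc
  rw [← hn, ← hn', abs_lt, abs_lt] at hc
  obtain ⟨⟨c1, c2⟩, c3, c4⟩ := hc
  set z : ℤ := q + n * (3 * q + 2) - n' with hz
  have hz' : (z : ℝ) = q + n * (3 * q + 2) - n' := by rw [hz]; push_cast; ring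
  have k1 : (z : ℝ) * h < 0 * h := by rw [hz']; nlinarith
  have k2 : (-1 : ℝ) * h < z * h := by rw [hz']; nlinarith
  have k3 : z < 0 := by exact_mod_cast lt_of_mul_lt_mul_right k1 hh.le
  have k4 : -1 < z := by exact_mod_cast lt_of_mul_lt_mul_right k2 hh.le
  omega

end Pool.Agent.MP_20bec2_an

end MrgPart2

-- marker of a merged file
example : 731051 + 269657 = 731051 + 269657 := rfl
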