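import Mathlib.Data.Int.Star
import Mathlib.Algebra.Order.Ring.Star
import Mathlib.Analysis.PSeries
import Mathlib.Order.Interval.Finset.Box
import Mathlib.MeasureTheory.Integral.RieszMarkovKakutani.Real
import Pool.Agent.MP_20bec2_an.Tent

-- ======== part 0: formerly Pool.Agent.MP_20bec2_an.Decomp
section MrgPart0

set_option autoImplicit false
open MeasureTheory Set Function
open scoped BoundedContinuousFunction

namespace Pool.Agent.MP_20bec2_an

variable {m : ℕ}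

abbrev ee (i : Fin m) : E m := Pi.single i 1

lemma norm_smul_ee (i : Fin m) (t : ℝ) : ‖t • ee i‖ = |t| := by
  rw [norm_smul, Pi.norm_single]; simp

noncomputable def wt (i : Fin m) : X m :=
  BoundedContinuousFunction.ofNormedAddCommGroup (fun s => max 0 (min 1 (1 - s i))) (by fun_prop) 1
    (fun s => by
      rw [Real.norm_of_nonneg (le_max_left _ _)]
      exact max_le zero_le_one (min_le_left _ _))

lemma norm_wt (i : Fin m) : ‖wt i‖ ≤ 1 :=
  BoundedContinuousFunction.norm_ofNormedAddCommGroup_le _ zero_le_one _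

lemma wt_eq (i : Fin m) (s : E m) (hs : s ∈ Icc (0 : E m) 1) : wt i s = 1 - s i := by
  have h0 : 0 ≤ s i := hs.1 i
  have h1 : s i ≤ 1 := hs.2 i
  change max 0 (min 1 (1 - s i)) = _
  rw [min_eq_right (by linarith), max_eq_right (by linarith)]

def pv (l : ℝ) (t : ℕ) : E m := fun j => if (j : ℕ) < t then l else 0

lemma pv_zero (l : ℝ) : (pv l 0 : E m) = 0 := by ext j; simp [pv]
lemma pv_top (l : ℝ) : (pv l m : E m) = cst l := by ext j; simp [pv, cst]
lemma pv_update (l : ℝ) (i : Fin m) : update (pv l i : E m) i l = pv l (i + 1) := by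
  ext j
  by_cases h : j = i
  · subst h; simp [pv]
  · have : (j : ℕ) ≠ i := fun e => h (Fin.ext e)
    simp only [update_of_ne h, pv]
    congr 1
    exact propext ⟨fun _ => by omega, fun _ => by omega⟩
lemma norm_pv {l : ℝ} (hl : 0 ≤ l) (t : ℕ) : ‖(pv l t : E m)‖ ≤ l :=
  (pi_norm_le_iff_of_nonneg hl).2 fun j => by
    simp only [pv]; split_ifs <;> simp [abs_of_nonneg hl, hl]

noncomputable def Th (i : Fin m) (l : ℝ) : X m →L[ℝ] X m := (-l) • Op (wt i) (pv l (i + 1))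
noncomputable def Dd (i : Fin m) (l : ℝ) : X m →L[ℝ] X m := Bx (pv l i) - Bx (pv l (i + 1))

lemma oneD {γ : ℝ → ℝ} (hγ : Continuous γ) {l : ℝ} (hl : 0 < l) :
    HasDerivAt (fun t => -l * ∫ u in (0 : ℝ)..1, (1 - u) * γ (t + u * l))
      (γ 0 - ∫ u in (0 : ℝ)..1, γ (u * l)) 0 := by
  have hM : Continuous fun s => s * γ s := by fun_prop
  let Γ : ℝ → ℝ := fun s => ∫ x in (0 : ℝ)..s, γ x
  let M : ℝ → ℝ := fun s => ∫ x in (0 : ℝ)..s, x * γ x
  have dΓ : ∀ s, HasDerivAt Γ (γ s) s := fun s => (hγ.integral_hasStrictDerivAt 0 s).hasDerivAt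
  have dM : ∀ s, HasDerivAt M (s * γ s) s := fun s => (hM.integral_hasStrictDerivAt 0 s).hasDerivAt
  have e1 : (fun t => -l * ∫ u in (0 : ℝ)..1, (1 - u) * γ (t + u * l)) =
      fun t => -((1 + t / l) * (Γ (t + l) - Γ t) - (M (t + l) - M t) / l) := by
    ext t
    have h1 := intervalIntegral.mul_integral_comp_mul_add (a := 0) (b := 1)
      (f := fun s => (1 - (s - t) / l) * γ s) l t
    have h2 : ∫ u in (0 : ℝ)..1, (1 - u) * γ (t + u * l) =
        ∫ u in (0 : ℝ)..1, (1 - (l * u + t - t) / l) * γ (l * u + t) := by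
      congr 1; ext u
      rw [show l * u + t = t + u * l by ring]; congr 2; field_simp; ring
    have h3 : ∫ s in t..(t + l), (1 - (s - t) / l) * γ s =
        (1 + t / l) * (Γ (t + l) - Γ t) - (M (t + l) - M t) / l := by
      simp only [Γ, M]
      rw [intervalIntegral.integral_interval_sub_left (hγ.intervalIntegrable _ _)
        (hγ.intervalIntegrable _ _), intervalIntegral.integral_interval_sub_left
        (hM.intervalIntegrable _ _) (hM.intervalIntegrable _ _),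
        ← intervalIntegral.integral_const_mul, ← intervalIntegral.integral_div,
        ← intervalIntegral.integral_sub ((by fun_prop : Continuous _).intervalIntegrable _ _)
          ((by fun_prop : Continuous _).intervalIntegrable _ _)]
      congr 1; ext s; ring
    rw [h2, neg_mul, h1, ← h3]
    simp [add_comm]
  have e2 : ∫ u in (0 : ℝ)..1, γ (u * l) = Γ l / l := by
    have h1 := intervalIntegral.mul_integral_comp_mul_add (a := 0) (b := 1) (f := γ) l 0
    simp only [add_zero, mul_zero, mul_one] at h1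
    simp only [Γ, ← h1]
    rw [mul_div_cancel_left₀ _ hl.ne']
    simp only [mul_comm l]
  rw [e1, e2]
  have a1 : HasDerivAt (fun t => Γ (t + l)) (γ (0 + l)) 0 := (dΓ (0 + l)).comp_add_const 0 l
  have a2 : HasDerivAt (fun t => M (t + l)) ((0 + l) * γ (0 + l)) 0 := (dM (0 + l)).comp_add_const 0 l
  have a3 : HasDerivAt (fun t : ℝ => 1 + t / l) (1 / l) 0 :=
    ((hasDerivAt_id (0 : ℝ)).div_const l).const_add 1
  have := ((a3.mul (a1.sub (dΓ 0))).sub ((a2.sub (dM 0)).div_const l)).neg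
  refine this.congr_deriv ?_
  simp [Γ]
  field_simp
  ring

lemma Th_deriv (i : Fin m) {l : ℝ} (hl : 0 < l) (g : X m) (y : E m) :
    HasDerivAt (fun t : ℝ => Th i l g (y + t • ee i)) (Dd i l g y) 0 := by
  have h0 : (pv l i : E m) i = 0 := by simp [pv]
  have := oneD (γ := fun s => Bx (pv l i) g (y + s • ee i)) (by fun_prop) hl
  convert this using 1
  · ext t
    simp only [Th, smul_apply, BoundedContinuousFunction.coe_smul, smul_eq_mul]
    rw [← pv_update, Op_update i (wt i) (fun u => 1 - u) (wt_eq i) _ h0]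
    simp only [add_smul, add_assoc]
  · simp only [Dd, sub_apply, BoundedContinuousFunction.coe_sub, Pi.sub_apply,
      zero_smul, add_zero]
    rw [← pv_update, Bx, Bx, Op_update i 1 (fun _ => 1) (by simp) _ h0]
    simp [Bx]

lemma sum_Dd (l : ℝ) (g : X m) : ∑ i : Fin m, Dd i l g = g - Bx (cst l) g := by
  simp only [Dd, sub_apply]
  rw [Fin.sum_univ_eq_sum_range (fun t => Bx (pv l t : E m) g - Bx (pv l (t + 1)) g) m,
    Finset.sum_range_sub', pv_zero, pv_top, Bx_zero]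

lemma Th_lip (i : Fin m) {l : ℝ} (hl : 0 ≤ l) {g : X m} {C : ℝ} (hg : Lip C g) :
    Lip (l * C) (Th i l g) := fun y y' => by
  have := Op_lip (norm_wt i) (pv l (i + 1)) hg y y'
  simp only [Th, smul_apply, BoundedContinuousFunction.coe_smul, smul_eq_mul]
  rw [← mul_sub, abs_mul, abs_neg, abs_of_nonneg hl, mul_assoc]
  gcongr

lemma norm_Th (i : Fin m) {l : ℝ} (hl : 0 ≤ l) (g : X m) : ‖Th i l g‖ ≤ l * ‖g‖ := by
  simp only [Th, smul_apply, norm_smul, norm_neg, Real.norm_of_nonneg hl]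
  gcongr
  exact norm_Op_le (norm_wt i) _ _

lemma Dd_lip (i : Fin m) (l : ℝ) {g : X m} {C : ℝ} (hg : Lip C g) : Lip (2 * C) (Dd i l g) := by
  have := (Bx_lip (pv l i) hg).sub (Bx_lip (pv l (i + 1)) hg)
  rw [two_mul]; exact this

noncomputable def KK (l : ℝ) : ℕ → X m →L[ℝ] X m
  | 0 => ContinuousLinearMap.id ℝ _
  | n + 1 => (Bx (cst (2 ^ n * l))).comp (KK l n)

lemma norm_KK (l : ℝ) (n : ℕ) (g : X m) : ‖KK l n g‖ ≤ ‖g‖ := by
  induction n with
  | zero => simp [KK]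
  | succ n ih => exact (norm_Bx_le _ _).trans ih

lemma KK_comm (l : ℝ) (n : ℕ) (p : E m) (g : X m) : Bx p (KK l n g) = KK l n (Bx p g) := by
  induction n with
  | zero => simp [KK]
  | succ n ih =>
    simp only [KK, ContinuousLinearMap.comp_apply]
    rw [← ih]; exact Op_comm _ _ _ _ _

lemma KK_lip {l : ℝ} (hl : 0 < l) (n : ℕ) (g : X m) :
    Lip (16 * 2 ^ m * ‖g‖ / (2 ^ n * l)) (KK l (n + 1) g) :=
  (Box_lip (by positivity) (KK l n g)).mono (by have := norm_KK l n g; gcongr)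

lemma norm_KK' {l : ℝ} (hl : 0 < l) (n : ℕ) (g : X m) {ε : ℝ}
    (h : ∀ l > 0, ‖Bx (cst l) g‖ ≤ ε / l) : ‖KK l (n + 1) g‖ ≤ ε / (2 ^ n * l) := by
  simp only [KK, ContinuousLinearMap.comp_apply]
  rw [KK_comm]
  exact (norm_KK _ _ _).trans (h _ (by positivity))

lemma KK_supp {l : ℝ} (hl : 0 < l) (n : ℕ) {g : X m} {R : ℝ} (hg : ∀ y, R ≤ ‖y‖ → g y = 0) :
    ∀ y, R + (2 ^ n - 1) * l ≤ ‖y‖ → KK l n g y = 0 := by
  induction n with
  | zero => simpa [KK] using hg
  | succ n ih =>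
    intro y hy
    refine Op_supp 1 _ ih y ?_
    have := norm_cst_le (m := m) (l := 2 ^ n * l) (by positivity)
    rw [pow_succ] at hy
    linarith

lemma Lip.sum {ι : Type*} (s : Finset ι) {C : ι → ℝ} {g : ι → X m} (h : ∀ j ∈ s, Lip (C j) (g j)) :
    Lip (∑ j ∈ s, C j) (∑ j ∈ s, g j : X m) := by
  classical
  induction s using Finset.induction with
  | empty => intro y y'; simp
  | insert a s ha ih =>
    rw [Finset.sum_insert ha, Finset.sum_insert ha]
    exact (h a (Finset.mem_insert_self _ _)).add (ih fun j hj => h j (Finset.mem_insert_of_mem hj))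

theorem decomp {l : ℝ} (hl : 0 < l) (n : ℕ) :
    ∃ (W D : Fin m → X m →L[ℝ] X m) (K : X m →L[ℝ] X m),
      (∀ g, g = ∑ i, D i g + K g) ∧
      (∀ i g y, HasDerivAt (fun t : ℝ => W i g (y + t • ee i)) (D i g y) 0) ∧
      (∀ i (g : X m) C, Lip C g → Lip (2 * C + 64 * 2 ^ m * ‖g‖ / l) (D i g)) ∧
      (∀ i (g : X m) C, Lip C g → Lip (l * C + 32 * 2 ^ m * n * ‖g‖) (W i g)) ∧
      (∀ i g ε, (∀ l > 0, ‖Bx (cst l) g‖ ≤ ε / l) → ‖W i g‖ ≤ l * ‖g‖ + 2 * n * ε) ∧
      (∀ g ε, (∀ l > 0, ‖Bx (cst l) g‖ ≤ ε / l) → ‖K g‖ ≤ ε / (2 ^ n * l)) ∧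
      (∀ g, Lip (16 * 2 ^ m * ‖g‖ / (2 ^ n * l)) (K g)) ∧
      (∀ i (g : X m) R, (∀ y, R ≤ ‖y‖ → g y = 0) → ∀ y, R + 2 * (2 ^ n * l) ≤ ‖y‖ → W i g y = 0) := by
  refine ⟨fun i => ∑ s ∈ Finset.range (n + 1), (Th i (2 ^ s * l)).comp (KK l s),
    fun i => ∑ s ∈ Finset.range (n + 1), (Dd i (2 ^ s * l)).comp (KK l s), KK l (n + 1),
    fun g => ?_, fun i g y => ?_, fun i g C hg => ?_, fun i g C hg => ?_, fun i g ε hg => ?_,
    fun g ε hg => norm_KK' hl n g hg, fun g => KK_lip hl n g, fun i g R hg y hy => ?_⟩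
  · simp only [sum_apply, ContinuousLinearMap.comp_apply]
    rw [Finset.sum_comm]
    simp only [sum_Dd]
    have := Finset.sum_range_sub' (fun s => KK l s g) (n + 1)
    simp only [KK, ContinuousLinearMap.comp_apply, ContinuousLinearMap.id_apply] at this ⊢
    rw [this]; simp
  · simp only [sum_apply, ContinuousLinearMap.comp_apply,
      BoundedContinuousFunction.coe_sum, Finset.sum_apply]
    exact HasDerivAt.fun_sum fun s _ => Th_deriv i (by positivity) _ y
  · simp only [sum_apply, ContinuousLinearMap.comp_apply]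
    rw [Finset.sum_range_succ']
    have h1 := Lip.sum (Finset.range n) (C := fun s => 2 * (16 * 2 ^ m * ‖g‖ / (2 ^ s * l)))
      (g := fun s => Dd i (2 ^ (s + 1) * l) (KK l (s + 1) g))
      (fun s _ => Dd_lip i _ (KK_lip hl s g))
    have h2 : Lip (2 * C) (Dd i (2 ^ 0 * l) (KK l 0 g)) := Dd_lip i _ hg
    refine (h1.add h2).mono ?_
    have h3 : ∑ s ∈ Finset.range n, 2 * (16 * 2 ^ m * ‖g‖ / (2 ^ s * l)) =
        32 * 2 ^ m * ‖g‖ / l * ∑ s ∈ Finset.range n, (1 / 2 : ℝ) ^ s := by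
      rw [Finset.mul_sum]; refine Finset.sum_congr rfl fun s _ => ?_
      rw [one_div, inv_pow]; field_simp; ring
    have h4 := sum_geometric_two_le n
    have h5 : 32 * 2 ^ m * ‖g‖ / l * ∑ s ∈ Finset.range n, (1 / 2 : ℝ) ^ s ≤
      32 * 2 ^ m * ‖g‖ / l * 2 := by gcongr
    rw [h3]
    have : 32 * 2 ^ m * ‖g‖ / l * 2 = 64 * 2 ^ m * ‖g‖ / l := by ring
    linarith
  · simp only [sum_apply, ContinuousLinearMap.comp_apply]
    rw [Finset.sum_range_succ']
    have h1 := Lip.sum (Finset.range n) (C := fun _ => 32 * 2 ^ m * ‖g‖)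
      (g := fun s => Th i (2 ^ (s + 1) * l) (KK l (s + 1) g))
      (fun s _ => (Th_lip i (by positivity) (KK_lip hl s g)).mono (le_of_eq (by field_simp; ring)))
    have h2 : Lip (2 ^ 0 * l * C) (Th i (2 ^ 0 * l) (KK l 0 g)) := Th_lip i (by positivity) hg
    refine (h1.add h2).mono (le_of_eq ?_)
    simp; ring
  · simp only [sum_apply, ContinuousLinearMap.comp_apply]
    rw [Finset.sum_range_succ']
    have h1 : ‖∑ s ∈ Finset.range n, Th i (2 ^ (s + 1) * l) (KK l (s + 1) g)‖ ≤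
        ∑ s ∈ Finset.range n, 2 * ε := norm_sum_le_of_le _ fun s _ => by
      calc _ ≤ 2 ^ (s + 1) * l * ‖KK l (s + 1) g‖ := norm_Th i (by positivity) _
        _ ≤ 2 ^ (s + 1) * l * (ε / (2 ^ s * l)) := by gcongr; exact norm_KK' hl s g hg
        _ = 2 * ε := by field_simp; ring
    have h2 : ‖Th i (2 ^ 0 * l) (KK l 0 g)‖ ≤ 2 ^ 0 * l * ‖g‖ := norm_Th i (by positivity) _
    refine (norm_add_le _ _).trans ?_
    simp only [Finset.sum_const, Finset.card_range, nsmul_eq_mul, pow_zero, one_mul] at h1 h2 ⊢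
    linarith
  · simp only [sum_apply, ContinuousLinearMap.comp_apply,
      BoundedContinuousFunction.coe_sum, Finset.sum_apply]
    refine Finset.sum_eq_zero fun s hs => ?_
    have h1 : (2 : ℝ) ^ s ≤ 2 ^ n := pow_le_pow_right₀ (by norm_num) (by simpa [Nat.lt_succ_iff] using hs)
    have h2 := norm_pv (m := m) (l := 2 ^ s * l) (by positivity) (i + 1)
    have h3 := Op_supp (wt i) (pv (2 ^ s * l) (i + 1)) (KK_supp hl s hg) y (by nlinarith)
    simp [Th, h3]

end Pool.Agent.MP_20bec2_an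

end MrgPart0

-- ======== part 1: formerly Pool.Agent.MP_20bec2_an.Solve
section MrgPart1

set_option autoImplicit false
open MeasureTheory Set Function
open scoped BoundedContinuousFunction

namespace Pool.Agent.MP_20bec2_an

variable {m : ℕ}

lemma cov_line {f f' : ℝ → ℝ} (hf : ∀ t, HasDerivAt f (f' t) t) {c : ℝ} (hc : 0 < c)
    (hc' : ∀ t, c ≤ f' t) (g : ℝ → ENNReal) :
    ∫⁻ t, g (f t) * ENNReal.ofReal (f' t) = ∫⁻ t, g t := by
  have hd : Differentiable ℝ f := fun t => (hf t).differentiableAt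
  have hg : ∀ x y, x ≤ y → c * (y - x) ≤ f y - f x := fun x y hxy =>
    mul_sub_le_image_sub_of_le_deriv hd (fun t => by rw [(hf t).deriv]; exact hc' t) hxy
  have hinj : Injective f := (strictMono_of_deriv_pos fun t => by
    rw [(hf t).deriv]; exact hc.trans_le (hc' t)).injective
  have hsurj : Surjective f := fun z => by
    set R := |z - f 0| / c
    have hR : 0 ≤ R := by positivity
    have hcR : c * R = |z - f 0| := by simp only [R]; field_simp
    have h1 := hg 0 R hR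
    have h2 := hg (-R) 0 (by linarith)
    have h3 := le_abs_self (z - f 0)
    have h4 := neg_abs_le (z - f 0)
    obtain ⟨t, -, ht⟩ := intermediate_value_Icc (by linarith : -R ≤ R) hd.continuous.continuousOn
      (show z ∈ Icc (f (-R)) (f R) from ⟨by nlinarith, by nlinarith⟩)
    exact ⟨t, ht⟩
  have := lintegral_image_eq_lintegral_abs_deriv_mul MeasurableSet.univ
    (fun t _ => (hf t).hasDerivWithinAt) hinj.injOn g
  rw [image_univ_of_surjective hsurj, Measure.restrict_univ] at this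
  rw [this]
  congr 1; ext t
  rw [abs_of_pos (hc.trans_le (hc' t)), mul_comm]

lemma push_line (i : Fin m) {w q : E m → ℝ} (hw : Continuous w) (hq : Continuous q)
    (hd : ∀ y, HasDerivAt (fun t : ℝ => w (y + t • ee i)) (q y) 0) (hq' : ∀ y, 1 / 2 ≤ 1 + q y) :
    Push (fun y => y + w y • ee i) (fun y => 1 + q y) := by
  intro φ hφ
  rw [volume_pi]
  refine lintegral_eq_of_lmarginal_eq {i} ?_ hφ ?_
  · exact (hφ.comp (by fun_prop : Continuous _).measurable).mul (by fun_prop)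
  rw [lmarginal_singleton, lmarginal_singleton]
  ext x
  have e1 : ∀ t s : ℝ, update x i t + s • ee i = update x i (t + s) := fun t s => by
    ext j
    by_cases h : j = i
    · subst h; simp
    · simp [h]
  have hf : ∀ t, HasDerivAt (fun t => t + w (update x i t)) (1 + q (update x i t)) t := fun t => by
    refine (hasDerivAt_id t).add ?_
    have := hd (update x i t)
    simp only [e1] at this
    have h2 : HasDerivAt (fun s => w (update x i (t + s))) (q (update x i t)) (t - t) := by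
      rwa [sub_self]
    simpa using h2.comp_sub_const t t
  rw [← cov_line hf (c := 1 / 2) (by norm_num) (fun t => hq' _) (fun t => φ (update x i t))]
  simp only [e1]

lemma Push.comp {ψ c : E m → E m} {J j : E m → ℝ} (h : Push ψ J) (h' : Push c j)
    (hψ : Continuous ψ) (hJ : Continuous J) (hJ0 : ∀ y, 0 ≤ J y) (u : E m) :
    Push (fun y => u + ψ (c y)) (fun y => J (c y) * j y) := by
  intro φ hφ
  have h1 := h' (fun y => φ (u + ψ y) * ENNReal.ofReal (J y))
    ((hφ.comp (by fun_prop : Continuous _).measurable).mul (by fun_prop))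
  have h2 := h (fun x => φ (u + x)) (hφ.comp (by fun_prop))
  rw [lintegral_add_left_eq_self (μ := volume) φ u] at h2
  rw [← h2, ← h1]
  congr 1; ext y
  rw [ENNReal.ofReal_mul (hJ0 _), mul_assoc]

lemma deriv_zero_of_sq {e : ℝ → ℝ} {C : ℝ} (h : ∀ t, |e t| ≤ C * t ^ 2) : HasDerivAt e 0 0 := by
  have h0 : e 0 = 0 := by simpa using h 0
  rw [hasDerivAt_iff_isLittleO_nhds_zero]
  simp only [zero_add, h0, sub_zero, smul_zero]
  refine Asymptotics.IsBigO.trans_isLittleO (g := fun t : ℝ => t ^ 2) ?_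
    (Asymptotics.isLittleO_pow_id (by norm_num))
  exact Asymptotics.IsBigO.of_bound C (Filter.Eventually.of_forall fun t => by simpa using h t)

lemma taylor1 {γ : ℝ → ℝ} (hγ : Continuous γ) {L : ℝ} (hL : 0 ≤ L)
    (h : ∀ s s', |γ s - γ s'| ≤ L * |s - s'|) (z z' : ℝ) :
    |(∫ s in z..z', γ s) - γ z * (z' - z)| ≤ L * (z' - z) ^ 2 := by
  have e : (∫ s in z..z', γ s) - γ z * (z' - z) = ∫ s in z..z', (γ s - γ z) := by
    rw [intervalIntegral.integral_sub (hγ.intervalIntegrable _ _) (by simp)]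
    simp [mul_comm]
  rw [e]
  have := intervalIntegral.norm_integral_le_of_norm_le_const (a := z) (b := z')
    (f := fun s => γ s - γ z) (C := L * |z' - z|) fun s hs => by
      exact (h s z).trans (mul_le_mul_of_nonneg_left
        (abs_sub_left_of_mem_uIcc (uIoc_subset_uIcc hs)) hL)
  rwa [mul_assoc, ← sq, sq_abs] at this

lemma abs_int_le {f g : ℝ → ℝ} {α β : ℝ} (hαβ : α ≤ β) (hg : Continuous g) (h : ∀ r, |f r| ≤ g r) :
    |∫ r in α..β, f r| ≤ ∫ r in α..β, g r :=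
  intervalIntegral.norm_integral_le_of_norm_le (f := f) hαβ
    (Filter.Eventually.of_forall fun r _ => h r) (hg.intervalIntegrable _ _)

lemma abs_int_le_const {f : ℝ → ℝ} {α β C : ℝ} (hαβ : α ≤ β) (h : ∀ r, |f r| ≤ C) :
    |∫ r in α..β, f r| ≤ (β - α) * C := by
  simpa using abs_int_le hαβ continuous_const h

lemma norm_shift (i : Fin m) {v : E m → ℝ} {Lv θ : ℝ} (hθ : 0 ≤ θ) (hv : Lip Lv v) (y y' : E m) :
    ‖(y + (θ * v y) • ee i) - (y' + (θ * v y') • ee i)‖ ≤ (1 + θ * Lv) * ‖y - y'‖ ∧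
    (1 - θ * Lv) * ‖y - y'‖ ≤ ‖(y + (θ * v y) • ee i) - (y' + (θ * v y') • ee i)‖ := by
  have e : (y + (θ * v y) • ee i) - (y' + (θ * v y') • ee i) =
      (y - y') + (θ * (v y - v y')) • ee i := by rw [mul_sub, sub_smul]; abel
  have h1 : ‖(θ * (v y - v y')) • ee i‖ ≤ θ * Lv * ‖y - y'‖ := by
    rw [norm_smul_ee, abs_mul, abs_of_nonneg hθ, mul_assoc]
    exact mul_le_mul_of_nonneg_left (hv y y') hθ
  rw [e]
  have h2 := norm_add_le (y - y') ((θ * (v y - v y')) • ee i)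
  have h3 := norm_sub_le ((y - y') + (θ * (v y - v y')) • ee i) ((θ * (v y - v y')) • ee i)
  rw [add_sub_cancel_right] at h3
  constructor <;> linarith

theorem solve (i : Fin m) {G : ℝ → X m} (hG : Continuous G) {α β : ℝ} (hαβ : α ≤ β)
    {θ : ℝ → ℝ} (hθ : Continuous θ) {θm Θ a Lg Wm LW LD : ℝ} (hθ0 : ∀ r, 0 ≤ θ r)
    (hθ1 : ∀ r, θ r ≤ θm) (hΘ : 0 < Θ) (hΘ' : ∫ r in α..β, θ r = Θ) (ha : 0 < a)
    (hGa : ∀ r y, a ≤ G r y) (hLg : 0 ≤ Lg) (hGL : ∀ r, Lip Lg (G r)) {W D : E m → ℝ}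
    (hW : ∀ y, |W y| ≤ Wm) (hLW : 0 ≤ LW) (hWL : Lip LW W) (hDL : Lip LD D)
    (hWD : ∀ y, HasDerivAt (fun t : ℝ => W (y + t • ee i)) (D y) 0) {Lv : ℝ}
    (hLv : LW / (a * Θ) + Wm / (a * Θ) * Lg / a ≤ Lv) :
    ∃ v q : E m → ℝ, (∀ y, |v y| ≤ Wm / (a * Θ)) ∧ Lip Lv v ∧
      (∀ y, HasDerivAt (fun t : ℝ => v (y + t • ee i)) (q y) 0) ∧ (∀ y, |q y| ≤ Lv) ∧
      Lip ((LD + (β - α) * (Lg * (2 + θm * Lv))) / (a * Θ) + Lv * (Lg * (1 + θm * Lv)) / a) q ∧
      ∀ y, ∫ r in α..β, G r (y + (θ r * v y) • ee i) * (1 + θ r * q y) =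
        (∫ r in α..β, G r y) - D y := by
  have haΘ : 0 < a * Θ := mul_pos ha hΘ
  have hWm : 0 ≤ Wm := (abs_nonneg _).trans (hW 0)
  have hLv0 : 0 ≤ Lv := le_trans (by positivity) hLv
  have hθm : 0 ≤ θm := (hθ0 0).trans (hθ1 0)
  let Q : ℝ → E m → ℝ → ℝ := fun r y z => ∫ s in (0 : ℝ)..z, G r (y + s • ee i)
  have cG : ∀ r y, Continuous fun s : ℝ => G r (y + s • ee i) := fun r y => by fun_prop
  have cQ : Continuous fun p : ℝ × E m × ℝ => Q p.1 p.2.1 p.2.2 :=
    intervalIntegral.continuous_parametric_intervalIntegral_of_continuous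
      (f := fun (p : ℝ × E m × ℝ) (s : ℝ) => G p.1 (p.2.1 + s • ee i))
      (by unfold uncurry; fun_prop) (by fun_prop)
  have cQ' : ∀ y {z : ℝ → ℝ}, Continuous z → Continuous fun r => Q r y (z r) := fun y z hz =>
    cQ.comp (f := fun r => (r, y, z r)) (by fun_prop)
  have Qsub : ∀ r y z z', Q r y z' - Q r y z = ∫ s in z..z', G r (y + s • ee i) := fun r y z z' =>
    intervalIntegral.integral_interval_sub_left ((cG r y).intervalIntegrable _ _)
      ((cG r y).intervalIntegrable _ _)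
  let Ψ : E m → ℝ → ℝ := fun y c => ∫ r in α..β, Q r y (θ r * c)
  have cΨ : ∀ y, Continuous (Ψ y) := fun y =>
    intervalIntegral.continuous_parametric_intervalIntegral_of_continuous'
      (f := fun (c r : ℝ) => Q r y (θ r * c))
      (cQ.comp (f := fun p : ℝ × ℝ => (p.2, y, θ p.2 * p.1)) (by fun_prop)) α β
  have Ψmono : ∀ y c c', c ≤ c' → a * Θ * (c' - c) ≤ Ψ y c' - Ψ y c := fun y c c' hcc => by
    simp only [Ψ]
    rw [← intervalIntegral.integral_sub ((cQ' y (by fun_prop)).intervalIntegrable _ _)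
      ((cQ' y (by fun_prop)).intervalIntegrable _ _), ← hΘ', ← intervalIntegral.integral_const_mul,
      ← intervalIntegral.integral_mul_const]
    refine intervalIntegral.integral_mono_on hαβ ((by fun_prop : Continuous _).intervalIntegrable _ _)
      (((cQ' y (by fun_prop)).sub (cQ' y (by fun_prop))).intervalIntegrable _ _) fun r _ => ?_
    rw [Qsub]
    have := intervalIntegral.integral_mono_on (μ := volume) (f := fun _ => a)
      (mul_le_mul_of_nonneg_left hcc (hθ0 r)) (by simp) ((cG r y).intervalIntegrable _ _)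
      fun s _ => hGa r (y + s • ee i)
    simp only [intervalIntegral.integral_const, smul_eq_mul] at this
    linarith
  have Ψabs : ∀ y c c', a * Θ * |c - c'| ≤ |Ψ y c - Ψ y c'| := fun y c c' => by
    rcases le_total c c' with h | h
    · rw [abs_sub_comm c, abs_sub_comm (Ψ y c), abs_of_nonneg (sub_nonneg.2 h)]
      exact (Ψmono y c c' h).trans (le_abs_self _)
    · rw [abs_of_nonneg (sub_nonneg.2 h)]
      exact (Ψmono y c' c h).trans (le_abs_self _)
  have Ψ0 : ∀ y, Ψ y 0 = 0 := fun y => by simp [Ψ, Q]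
  set vm := Wm / (a * Θ) with hvm
  have hvm0 : 0 ≤ vm := by positivity
  have hvm' : a * Θ * vm = Wm := by rw [hvm]; field_simp
  have ex : ∀ y, ∃ c ∈ Icc (-vm) vm, Ψ y c = -W y := fun y => by
    have h1 := Ψmono y 0 vm hvm0
    have h2 := Ψmono y (-vm) 0 (by linarith)
    have h3 := abs_le.1 (hW y)
    rw [Ψ0] at h1 h2
    exact intermediate_value_Icc (by linarith) (cΨ y).continuousOn
      (show -W y ∈ Icc (Ψ y (-vm)) (Ψ y vm) from ⟨by nlinarith [h3.2], by nlinarith [h3.1]⟩)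
  choose v hv hvΨ using ex
  have hvb : ∀ y, |v y| ≤ vm := fun y => abs_le.2 (hv y)
  have Ψy : ∀ y y' c, |Ψ y c - Ψ y' c| ≤ Θ * (|c| * (Lg * ‖y - y'‖)) := fun y y' c => by
    simp only [Ψ]
    rw [← intervalIntegral.integral_sub ((cQ' y (by fun_prop)).intervalIntegrable _ _)
      ((cQ' y' (by fun_prop)).intervalIntegrable _ _), ← hΘ', ← intervalIntegral.integral_mul_const]
    refine abs_int_le hαβ (by fun_prop) fun r => ?_
    simp only [Q]
    rw [← intervalIntegral.integral_sub ((cG r y).intervalIntegrable _ _)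
      ((cG r y').intervalIntegrable _ _)]
    have := intervalIntegral.norm_integral_le_of_norm_le_const (a := 0) (b := θ r * c)
      (f := fun s => G r (y + s • ee i) - G r (y' + s • ee i)) (C := Lg * ‖y - y'‖) fun s _ => by
        have := hGL r (y + s • ee i) (y' + s • ee i)
        rwa [add_sub_add_right_eq_sub] at this
    rw [sub_zero, abs_mul, abs_of_nonneg (hθ0 r)] at this
    refine this.trans (le_of_eq (by ring))
  have hvL : Lip Lv v := fun y y' => by
    have h1 := Ψabs y (v y) (v y')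
    have h2 := Ψy y y' (v y')
    have h3 := hWL y y'
    have h4 : |Ψ y (v y) - Ψ y (v y')| ≤ |W y - W y'| + |Ψ y (v y') - Ψ y' (v y')| := by
      have : Ψ y (v y) - Ψ y (v y') = -(W y - W y') - (Ψ y (v y') - Ψ y' (v y')) := by
        rw [hvΨ y, hvΨ y']; ring
      rw [this]
      exact (abs_sub _ _).trans (by rw [abs_neg])
    have h5 : Θ * (|v y'| * (Lg * ‖y - y'‖)) ≤ Θ * (vm * (Lg * ‖y - y'‖)) := by
      have := hvb y'; gcongr
    have h6 : a * Θ * ((LW / (a * Θ) + vm * Lg / a) * ‖y - y'‖) =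
        LW * ‖y - y'‖ + Θ * (vm * (Lg * ‖y - y'‖)) := by field_simp
    have h7 : |v y - v y'| ≤ (LW / (a * Θ) + vm * Lg / a) * ‖y - y'‖ :=
      le_of_mul_le_mul_left (by linarith) haΘ
    exact h7.trans (mul_le_mul_of_nonneg_right hLv (norm_nonneg _))
  let A : E m → ℝ := fun y => ∫ r in α..β, (G r (y + (θ r * v y) • ee i) - G r y)
  let B : E m → ℝ := fun y => ∫ r in α..β, θ r * G r (y + (θ r * v y) • ee i)
  have hB : ∀ y, a * Θ ≤ B y := fun y => by
    rw [← hΘ', ← intervalIntegral.integral_const_mul]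
    refine intervalIntegral.integral_mono_on hαβ ((by fun_prop : Continuous _).intervalIntegrable _ _)
      ((by fun_prop : Continuous _).intervalIntegrable _ _) fun r _ => ?_
    rw [mul_comm]
    exact mul_le_mul_of_nonneg_left (hGa _ _) (hθ0 r)
  have hB0 : ∀ y, 0 < B y := fun y => haΘ.trans_le (hB y)
  have hder : ∀ y, HasDerivAt (fun t : ℝ => v (y + t • ee i)) ((-D y - A y) / B y) 0 := fun y => by
    let u : ℝ → ℝ := fun t => v (y + t • ee i)
    let e : ℝ → ℝ := fun t => (u t - v y) * B y + (W (y + t • ee i) - W y) + t * A y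
    have hu : ∀ t, |u t - v y| ≤ Lv * |t| := fun t => by
      have := hvL (y + t • ee i) y
      rwa [add_sub_cancel_left, norm_smul_ee] at this
    have he : ∀ t, |e t| ≤ (β - α) * (Lg * (1 + θm * Lv) ^ 2 + Lg) * t ^ 2 := fun t => by
      have hQ : ∀ r z, Q r (y + t • ee i) z = Q r y (t + z) - Q r y t := fun r z => by
        rw [Qsub]
        simp only [Q, add_assoc, ← add_smul]
        have := intervalIntegral.integral_comp_add_left (a := 0) (b := z)
          (fun s => G r (y + s • ee i)) t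
        rwa [add_zero] at this
      have c1 : Continuous fun r => Q r y (t + θ r * u t) := cQ' y (by fun_prop)
      have c2 : Continuous fun r => Q r y t := cQ' y (by fun_prop)
      have c3 : Continuous fun r => Q r y (θ r * v y) := cQ' y (by fun_prop)
      have e1 : e t = ∫ r in α..β, ((u t - v y) * (θ r * G r (y + (θ r * v y) • ee i)) -
          ((Q r y (t + θ r * u t) - Q r y t) - Q r y (θ r * v y)) +
          t * (G r (y + (θ r * v y) • ee i) - G r y)) := by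
        rw [intervalIntegral.integral_add ((by fun_prop : Continuous _).intervalIntegrable _ _)
          ((by fun_prop : Continuous _).intervalIntegrable _ _),
          intervalIntegral.integral_sub ((by fun_prop : Continuous _).intervalIntegrable _ _)
          ((by fun_prop : Continuous _).intervalIntegrable _ _),
          intervalIntegral.integral_sub ((by fun_prop : Continuous _).intervalIntegrable _ _)
          ((by fun_prop : Continuous _).intervalIntegrable _ _),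
          intervalIntegral.integral_const_mul, intervalIntegral.integral_const_mul]
        have k1 := hvΨ (y + t • ee i)
        have k2 := hvΨ y
        simp only [Ψ, hQ] at k1 k2
        simp only [e, A, B, u]
        rw [k1, k2]; ring
      have hb : ∀ r, |(u t - v y) * (θ r * G r (y + (θ r * v y) • ee i)) -
          ((Q r y (t + θ r * u t) - Q r y t) - Q r y (θ r * v y)) +
          t * (G r (y + (θ r * v y) • ee i) - G r y)| ≤ (Lg * (1 + θm * Lv) ^ 2 + Lg) * t ^ 2 :=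
        fun r => by
        have hl : ∀ s s' : ℝ, |G r (y + s • ee i) - G r (y + s' • ee i)| ≤ Lg * |s - s'| :=
          fun s s' => by
          have := hGL r (y + s • ee i) (y + s' • ee i)
          rwa [add_sub_add_left_eq_sub, ← sub_smul, norm_smul_ee] at this
        have t1 := taylor1 (cG r y) hLg hl (θ r * v y) (t + θ r * u t)
        have t2 := taylor1 (cG r y) hLg hl 0 t
        rw [← Qsub] at t1 t2
        have q0 : Q r y 0 = 0 := by simp [Q]
        simp only [q0, zero_smul, add_zero, sub_zero] at t2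
        have t3 : |t + θ r * u t - θ r * v y| ≤ (1 + θm * Lv) * |t| := by
          have h1 : |θ r * (u t - v y)| ≤ θm * (Lv * |t|) := by
            rw [abs_mul, abs_of_nonneg (hθ0 r)]
            exact mul_le_mul (hθ1 r) (hu t) (abs_nonneg _) hθm
          have h2 := abs_add_le t (θ r * (u t - v y))
          rw [show t + θ r * u t - θ r * v y = t + θ r * (u t - v y) by ring]
          linarith
        have t4 : (t + θ r * u t - θ r * v y) ^ 2 ≤ (1 + θm * Lv) ^ 2 * t ^ 2 := by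
          rw [← sq_abs, ← sq_abs t, ← mul_pow]
          exact pow_le_pow_left₀ (abs_nonneg _) t3 2
        have t5 := mul_le_mul_of_nonneg_left t4 hLg
        rw [abs_le] at t1 t2 ⊢
        constructor <;> nlinarith [t1.1, t1.2, t2.1, t2.2]
      rw [e1]
      exact (abs_int_le_const hαβ hb).trans (le_of_eq (by ring))
    have d1 := deriv_zero_of_sq he
    have d2 := ((((d1.sub ((hWD y).sub_const (W y))).sub
      ((hasDerivAt_id (0 : ℝ)).mul_const (A y))).div_const (B y)).const_add (v y))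
    refine (d2.congr_deriv (by simp)).congr_of_eventuallyEq (Filter.Eventually.of_forall fun t => ?_)
    simp only [e, u, Pi.sub_apply, id]
    have := (hB0 y).ne'
    field_simp
    ring
  have hqb : ∀ y, |(-D y - A y) / B y| ≤ Lv := fun y =>
    (hder y).le_of_lip' hLv0 (Filter.Eventually.of_forall fun t => by
      have := hvL (y + t • ee i) y
      rw [add_sub_cancel_left, norm_smul_ee] at this
      simpa using this)
  have hsh : ∀ r y y', |G r (y + (θ r * v y) • ee i) - G r (y' + (θ r * v y') • ee i)| ≤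
      Lg * (1 + θm * Lv) * ‖y - y'‖ := fun r y y' => by
    refine (hGL r _ _).trans ?_
    rw [mul_assoc]
    refine mul_le_mul_of_nonneg_left ((norm_shift i (hθ0 r) hvL y y').1.trans ?_) hLg
    have := hθ1 r
    gcongr
  refine ⟨v, fun y => (-D y - A y) / B y, hvb, hvL, hder, hqb, fun y y' => ?_, fun y => ?_⟩
  · have hA : |A y - A y'| ≤ (β - α) * (Lg * (2 + θm * Lv)) * ‖y - y'‖ := by
      simp only [A]
      rw [← intervalIntegral.integral_sub ((by fun_prop : Continuous _).intervalIntegrable _ _)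
        ((by fun_prop : Continuous _).intervalIntegrable _ _)]
      have := intervalIntegral.norm_integral_le_of_norm_le_const (a := α) (b := β)
        (f := fun r => G r (y + (θ r * v y) • ee i) - G r y -
          (G r (y' + (θ r * v y') • ee i) - G r y'))
        (C := Lg * (2 + θm * Lv) * ‖y - y'‖) fun r _ => by
          have h1 := abs_le.1 (hsh r y y')
          have h2 := abs_le.1 (hGL r y y')
          rw [Real.norm_eq_abs, abs_le]
          constructor <;> nlinarith [h1.1, h1.2, h2.1, h2.2]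
      rw [abs_of_nonneg (sub_nonneg.2 hαβ)] at this
      refine this.trans (le_of_eq (by ring))
    have hBB : |B y - B y'| ≤ Θ * (Lg * (1 + θm * Lv) * ‖y - y'‖) := by
      simp only [B]
      rw [← intervalIntegral.integral_sub ((by fun_prop : Continuous _).intervalIntegrable _ _)
        ((by fun_prop : Continuous _).intervalIntegrable _ _), ← hΘ',
        ← intervalIntegral.integral_mul_const]
      refine abs_int_le hαβ (by fun_prop) fun r => ?_
      rw [← mul_sub, abs_mul, abs_of_nonneg (hθ0 r)]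
      exact mul_le_mul_of_nonneg_left (hsh r y y') (hθ0 r)
    have e : (-D y - A y) / B y - (-D y' - A y') / B y' =
        (-(D y - D y') - (A y - A y') - (-D y' - A y') / B y' * (B y - B y')) / B y := by
      have := (hB0 y).ne'
      have := (hB0 y').ne'
      field_simp
      ring
    beta_reduce
    rw [e, abs_div, abs_of_pos (hB0 y), div_le_iff₀ (hB0 y)]
    have h1 := hDL y y'
    have h2 : |(-D y' - A y') / B y' * (B y - B y')| ≤ Lv * (Θ * (Lg * (1 + θm * Lv) * ‖y - y'‖)) := by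
      rw [abs_mul]; exact mul_le_mul (hqb y') hBB (abs_nonneg _) hLv0
    have h3 : |-(D y - D y') - (A y - A y') - (-D y' - A y') / B y' * (B y - B y')| ≤
        |D y - D y'| + |A y - A y'| + |(-D y' - A y') / B y' * (B y - B y')| := by
      refine (abs_sub _ _).trans ?_
      gcongr
      exact (abs_sub _ _).trans (by rw [abs_neg])
    have h4 : ((LD + (β - α) * (Lg * (2 + θm * Lv))) / (a * Θ) + Lv * (Lg * (1 + θm * Lv)) / a) *
        ‖y - y'‖ * (a * Θ) = LD * ‖y - y'‖ + (β - α) * (Lg * (2 + θm * Lv)) * ‖y - y'‖ +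
        Lv * (Θ * (Lg * (1 + θm * Lv) * ‖y - y'‖)) := by field_simp
    have h5 : 0 ≤ ((LD + (β - α) * (Lg * (2 + θm * Lv))) / (a * Θ) + Lv * (Lg * (1 + θm * Lv)) / a) *
        ‖y - y'‖ := by
      refine nonneg_of_mul_nonneg_left ?_ haΘ
      rw [h4]
      linarith [abs_nonneg (D y - D y'), abs_nonneg (A y - A y'),
        abs_nonneg ((-D y' - A y') / B y' * (B y - B y'))]
    have h6 := mul_le_mul_of_nonneg_left (hB y) h5
    linarith
  · have e : ∀ r, G r (y + (θ r * v y) • ee i) * (1 + θ r * ((-D y - A y) / B y)) =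
        (G r (y + (θ r * v y) • ee i) - G r y) + G r y +
        (-D y - A y) / B y * (θ r * G r (y + (θ r * v y) • ee i)) := fun r => by ring
    simp only [e]
    rw [intervalIntegral.integral_add ((by fun_prop : Continuous _).intervalIntegrable _ _)
      ((by fun_prop : Continuous _).intervalIntegrable _ _),
      intervalIntegral.integral_add ((by fun_prop : Continuous _).intervalIntegrable _ _)
      ((by fun_prop : Continuous _).intervalIntegrable _ _), intervalIntegral.integral_const_mul]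
    change A y + _ + _ * B y = _
    have := (hB0 y).ne'
    field_simp
    ring

end Pool.Agent.MP_20bec2_an

end MrgPart1

-- ======== part 2: formerly Pool.Agent.MP_20bec2_an.Window
section MrgPart2

set_option autoImplicit false
open MeasureTheory Set Function
open scoped BoundedContinuousFunction

namespace Pool.Agent.MP_20bec2_an

variable {m : ℕ}

lemma evalI {f : ℝ → X m} (hf : Continuous f) (α β : ℝ) (y : E m) :
    (∫ r in α..β, f r) y = ∫ r in α..β, f r y :=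
  ((BoundedContinuousFunction.evalCLM ℝ y).intervalIntegral_comp_comm
    (hf.intervalIntegrable α β)).symm

lemma evalP {f : E m → X m} (hf : Continuous f) (y : E m) :
    (∫ a, f a ∂(P m)) y = ∫ a, f a y ∂(P m) :=
  ((BoundedContinuousFunction.evalCLM ℝ y).integral_comp_comm (int_cont hf)).symm

lemma normI (L : X m →L[ℝ] X m) {f : ℝ → X m} (hf : Continuous f) {α β B : ℝ} (hαβ : α ≤ β)
    (h : ∀ r, ‖L (f r)‖ ≤ B) : ‖L (∫ r in α..β, f r)‖ ≤ (β - α) * B := by
  rw [← L.intervalIntegral_comp_comm (hf.intervalIntegrable α β)]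
  have := intervalIntegral.norm_integral_le_of_norm_le_const (a := α) (b := β)
    (f := fun r => L (f r)) fun r _ => h r
  rwa [abs_of_nonneg (sub_nonneg.2 hαβ), mul_comm] at this

lemma normP (L : X m →L[ℝ] X m) {f : E m → X m} (hf : Continuous f) (g : X m) {B : ℝ}
    (h : ∀ a ∈ Icc (0 : E m) 1, ‖L (g - f a)‖ ≤ B) : ‖L (g - ∫ a, f a ∂(P m))‖ ≤ B := by
  have e : g - ∫ a, f a ∂(P m) = ∫ a, (g - f a) ∂(P m) := by
    rw [integral_sub (integrable_const _) (int_cont hf)]; simp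
  rw [e, ← L.integral_comp_comm (int_cont (by fun_prop))]
  have := norm_integral_le_of_norm_le_const (μ := P m) (f := fun a => L (g - f a)) (C := B)
    (by filter_upwards [ae_cube] with s hs using h s hs)
  simpa using this

lemma lipI {f : ℝ → X m} (hf : Continuous f) {α β C : ℝ} (hαβ : α ≤ β) (h : ∀ r, Lip C (f r)) :
    Lip ((β - α) * C) (∫ r in α..β, f r : X m) := fun y y' => by
  rw [evalI hf, evalI hf, ← intervalIntegral.integral_sub
    ((by fun_prop : Continuous _).intervalIntegrable _ _)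
    ((by fun_prop : Continuous _).intervalIntegrable _ _), mul_assoc]
  exact abs_int_le_const hαβ fun r => h r y y'

lemma lipP {f : E m → X m} (hf : Continuous f) {C : ℝ} (h : ∀ a, Lip C (f a)) :
    Lip C (∫ a, f a ∂(P m) : X m) := fun y y' => by
  rw [evalP hf, evalP hf, ← integral_sub (int_cont (by fun_prop)) (int_cont (by fun_prop))]
  exact abs_integral_le fun a _ => h a y y'

lemma norm_cube {a : E m} (ha : a ∈ Icc (0 : E m) 1) : ‖a‖ ≤ 1 :=
  (pi_norm_le_iff_of_nonneg zero_le_one).2 fun j => by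
    rw [Real.norm_of_nonneg (ha.1 j)]; exact ha.2 j

lemma norm_cube_sub {a a' : E m} (ha : a ∈ Icc (0 : E m) 1) (ha' : a' ∈ Icc (0 : E m) 1) :
    ‖a - a'‖ ≤ 1 :=
  (pi_norm_le_iff_of_nonneg zero_le_one).2 fun j => by
    have h1 : 0 ≤ a j := ha.1 j
    have h2 : a j ≤ 1 := ha.2 j
    have h3 : 0 ≤ a' j := ha'.1 j
    have h4 : a' j ≤ 1 := ha'.2 j
    rw [Pi.sub_apply, Real.norm_eq_abs, abs_le]; constructor <;> linarith

lemma norm_of_net {T : Finset (E m)} {R μ : ℝ} (hT : ∀ y : E m, ‖y‖ ≤ R → ∃ z ∈ T, ‖y - z‖ ≤ μ)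
    {g : X m} {B C : ℝ} (hB : 0 ≤ B) (hC : 0 ≤ C) (hμ : 0 ≤ μ) (hg : Lip C g)
    (h : ∀ z ∈ T, |g z| ≤ B) (h0 : ∀ y, R ≤ ‖y‖ → g y = 0) : ‖g‖ ≤ B + C * μ := by
  refine (BoundedContinuousFunction.norm_le (by positivity)).2 fun y => ?_
  rcases le_total R ‖y‖ with hy | hy
  · rw [h0 y hy, norm_zero]; positivity
  · obtain ⟨z, hz, hyz⟩ := hT y hy
    have h1 := hg y z
    have h2 := h z hz
    have h3 : C * ‖y - z‖ ≤ C * μ := by gcongr
    have h4 := abs_add_le (g y - g z) (g z)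
    rw [sub_add_cancel] at h4
    rw [Real.norm_eq_abs]; linarith

theorem window {Gf : ℝ → E m → X m} (hc : Continuous (uncurry Gf)) {b Lg A η Γ : ℝ} (o : ℝ)
    {n N : ℕ} (hb : 0 < b) (hG : ∀ r u y, 0 ≤ Gf r u y ∧ Gf r u y ≤ 2 * b)
    (hL : ∀ r u, Lip Lg (Gf r u)) (hLg : 0 ≤ Lg)
    (hT : ∀ r u u', ∀ l > 0, ‖Bx (cst l) (Gf r u - Gf r u')‖ ≤ 8 * 2 ^ m * b * ‖u - u'‖ / l)
    (hS : ∀ r u u', ‖u‖ ≤ 1 → ‖u'‖ ≤ 1 → ∀ y, 5 ≤ ‖y‖ → Gf r u y = Gf r u' y)
    (hA : 0 < A) (hA1 : A ≤ 1) (hη : 0 < η) (hη1 : η ≤ 1) (hΓ : 1 ≤ Γ) (hLΓ : Lg ≤ Γ / A)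
    (hn : 1 ≤ n) (hn2 : 2 ^ n * (η * A) ≤ 2)
    (hN : 2 * ((m + 1) * (18 * Γ / (η * A) + 3) ^ m) ≤ Real.exp (N * (η ^ 2 / 2)))
    (W : Fin m → X m →L[ℝ] X m)
    (W1 : ∀ i (g : X m) C, Lip C g → Lip (η * A * C + 32 * 2 ^ m * n * ‖g‖) (W i g))
    (W2 : ∀ i g ε, (∀ l > 0, ‖Bx (cst l) g‖ ≤ ε / l) → ‖W i g‖ ≤ η * A * ‖g‖ + 2 * n * ε)
    (W3 : ∀ i (g : X m) R, (∀ y, R ≤ ‖y‖ → g y = 0) →
      ∀ y, R + 2 * (2 ^ n * (η * A)) ≤ ‖y‖ → W i g y = 0) :
    ∃ h : ℝ → E m, (∀ r, ‖h r‖ ≤ A / 2) ∧ (∀ r r', ‖h r - h r'‖ ≤ |r - r'|) ∧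
      ∀ (w : ℤ) (D : X m), D = ∫ r in (o + w * (N * A))..(o + (w + 1) * (N * A)),
          (Gf r (h r) - ∫ a, Gf r (tent A o r • a) ∂(P m)) →
        ‖D‖ ≤ 2 * (b + 1) * η * (N * A) ∧ Lip (N * A * (2 * Lg)) D ∧
        (∀ i, ‖W i D‖ ≤ 76 * 2 ^ m * (b + 1) * (n * η) * A * (N * A)) ∧
        (∀ i, Lip (66 * 2 ^ m * (b + 1) * Γ * (n * η) * (N * A)) (W i D)) ∧
        (∀ l > 0, ‖Bx (cst l) D‖ ≤ N * A * (4 * 2 ^ m * b * A) / l) := by
  have hφ := tent_cont hA o
  have hφ0 := tent_nonneg hA o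
  have hφ1 := tent_le (h := A) o
  have hc2 : (1 : ℝ) ≤ 2 ^ m := one_le_pow₀ (by norm_num)
  have hn' : (1 : ℝ) ≤ n := by exact_mod_cast hn
  have cG : ∀ {Y : Type} [TopologicalSpace Y] {r : Y → ℝ} {u : Y → E m}, Continuous r →
      Continuous u → Continuous fun p => Gf (r p) (u p) := fun hr hu => hc.comp (hr.prodMk hu)
  set G0 : ℝ → X m := fun r => ∫ a, Gf r (tent A o r • a) ∂(P m) with hG0
  have cG0 : Continuous G0 :=
    continuous_parametric_integral_of_continuous (f := fun r (a : E m) => Gf r (tent A o r • a))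
      (cG (by fun_prop) (by fun_prop)) isCompact_Icc
  have cGa : ∀ r, Continuous fun a : E m => Gf r (tent A o r • a) := fun r =>
    cG (by fun_prop) (by fun_prop)
  have nφ : ∀ r, ∀ a ∈ Icc (0 : E m) 1, ‖tent A o r • a‖ ≤ A / 2 := fun r a ha => by
    rw [norm_smul, Real.norm_of_nonneg (hφ0 r)]
    have := norm_cube ha
    nlinarith [hφ0 r, hφ1 r, norm_nonneg a]
  have g1 : ∀ r u, ‖Gf r u - G0 r‖ ≤ 2 * b := fun r u =>
    normP (ContinuousLinearMap.id ℝ _) (cGa r) _ fun a' _ =>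
      (BoundedContinuousFunction.norm_le (by positivity)).2 fun y => by
        have h1 := hG r u y
        have h2 := hG r (tent A o r • a') y
        simp only [ContinuousLinearMap.id_apply, BoundedContinuousFunction.coe_sub, Pi.sub_apply,
          Real.norm_eq_abs, abs_le]
        constructor <;> linarith [h1.1, h1.2, h2.1, h2.2]
  have g2 : ∀ r, ∀ a ∈ Icc (0 : E m) 1, ∀ l > 0,
      ‖Bx (cst l) (Gf r (tent A o r • a) - G0 r)‖ ≤ 4 * 2 ^ m * b * A / l := fun r a ha l hl =>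
    normP _ (cGa r) _ fun a' ha' => (hT r _ _ l hl).trans (by
      have h1 : ‖tent A o r • a - tent A o r • a'‖ ≤ A / 2 := by
        rw [← smul_sub, norm_smul, Real.norm_of_nonneg (hφ0 r)]
        have := norm_cube_sub ha ha'
        nlinarith [hφ0 r, hφ1 r, norm_nonneg (a - a')]
      calc _ ≤ 8 * 2 ^ m * b * (A / 2) / l := by gcongr
        _ = _ := by ring)
  have g3 : ∀ r u, Lip (2 * Lg) (Gf r u - G0 r : X m) := fun r u => by
    rw [two_mul]; exact (hL r u).sub (lipP (cGa r) fun a => hL r _)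
  have g4 : ∀ r, ∀ a ∈ Icc (0 : E m) 1, ∀ y, 5 ≤ ‖y‖ →
      (Gf r (tent A o r • a) - G0 r : X m) y = 0 := fun r a ha y hy => by
    simp only [BoundedContinuousFunction.coe_sub, Pi.sub_apply, hG0]
    rw [evalP (cGa r), integral_congr_ae (g := fun _ => Gf r (tent A o r • a) y)]
    · simp
    · filter_upwards [ae_cube] with s hs
      exact hS r _ _ (by linarith [nφ r s hs]) (by linarith [nφ r a ha]) y hy
  let V : ℤ → E m → X m := fun t a =>
    ∫ r in (o + t * A)..(o + (t + 1) * A), (Gf r (tent A o r • a) - G0 r)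
  have cV0 : Continuous (uncurry fun (a : E m) (r : ℝ) => Gf r (tent A o r • a) - G0 r) :=
    (cG (r := fun p : E m × ℝ => p.2) (by fun_prop) (by fun_prop)).sub (by fun_prop)
  have cV : ∀ t, Continuous (V t) := fun t =>
    intervalIntegral.continuous_parametric_intervalIntegral_of_continuous' cV0 _ _
  have cV1 : ∀ a : E m, Continuous fun r => Gf r (tent A o r • a) - G0 r := fun a =>
    (cG (by fun_prop) (by fun_prop)).sub cG0
  have V0 : ∀ t, ∫ a, V t a ∂(P m) = 0 := fun t => by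
    simp only [V]
    rw [← intervalIntegral_integral_swap
      (f := fun (r : ℝ) (a : E m) => Gf r (tent A o r • a) - G0 r)]
    · have : ∀ r, ∫ a, (Gf r (tent A o r • a) - G0 r) ∂(P m) = 0 := fun r => by
        rw [integral_sub (int_cont (cGa r)) (integrable_const _)]; simp [hG0]
      simp [this]
    · rw [uIoc_of_le (by linarith)]
      exact integrable_bdd _ ((cG (r := fun p : ℝ × E m => p.1) (by fun_prop) (by fun_prop)).sub
        (by fun_prop)) (2 * b) fun p => g1 _ _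
  let L : Option (Fin m) → X m →L[ℝ] X m := fun k => k.elim (ContinuousLinearMap.id ℝ _) W
  let B : Option (Fin m) → ℝ := fun k =>
    k.elim (A * (2 * b)) fun _ => A * (η * A * (2 * b) + 2 * n * (4 * 2 ^ m * b * A))
  have hB : ∀ k, 0 < B k := fun k => by cases k <;> simp only [B, Option.elim] <;> positivity
  have hVB : ∀ t k, ∀ a ∈ Icc (0 : E m) 1, ‖L k (V t a)‖ ≤ B k := fun t k a ha => by
    have e : A = o + (t + 1) * A - (o + t * A) := by ring
    cases k with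
    | none =>
      simp only [B, Option.elim]
      conv_rhs => rw [e]
      exact normI _ (cV1 a) (by linarith) fun r => g1 r _
    | some i =>
      simp only [B, Option.elim]
      conv_rhs => lhs; rw [e]
      refine normI _ (cV1 a) (by linarith) fun r => (W2 i _ _ (g2 r a ha)).trans ?_
      have := g1 r (tent A o r • a)
      gcongr
  have hμ : 0 < η * A / Γ := by positivity
  obtain ⟨T, hTc, hT'⟩ := exists_net (m := m) (R := 9) (by norm_num) hμ
  have hN' : 2 * (Fintype.card (Option (Fin m)) * T.card : ℝ) ≤ Real.exp (N * (η ^ 2 / 2)) := by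
    refine le_trans ?_ hN
    have e : 2 * 9 / (η * A / Γ) = 18 * Γ / (η * A) := by field_simp; norm_num
    rw [e] at hTc
    simp only [Fintype.card_option, Fintype.card_fin]
    push_cast
    gcongr
  have hN0 : 0 < N := by
    rcases Nat.eq_zero_or_pos N with h0 | h0
    · exfalso
      rw [h0] at hN
      simp only [Nat.cast_zero, zero_mul, Real.exp_zero] at hN
      have h1 : (1 : ℝ) ≤ (18 * Γ / (η * A) + 3) ^ m := one_le_pow₀ (by
        have : 0 ≤ 18 * Γ / (η * A) := by positivity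
        linarith)
      have h2 : (0 : ℝ) ≤ m := Nat.cast_nonneg m
      nlinarith
    · exact h0
  choose aw haw haw' using fun w : ℤ => hoeff_X L B hB (fun t a => V (w * N + t) a)
    (fun t => cV _) (fun t k a ha => hVB _ k a ha) (fun t => V0 _) T hη N hN'
  let a : ℤ → E m := fun t => aw (t / N) (t % N).toNat
  have ha : ∀ t, a t ∈ Icc (0 : E m) 1 := fun t => haw _ _
  have ha' : ∀ (w : ℤ) (t : ℕ), t < N → a (w * N + t) = aw w t := fun w t ht => by
    have h0 : (N : ℤ) ≠ 0 := by exact_mod_cast hN0.ne'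
    have h1 : (w * N + t) / (N : ℤ) = w := by
      rw [add_comm, Int.add_mul_ediv_right _ _ h0, Int.ediv_eq_zero_of_lt (by positivity)
        (by exact_mod_cast ht), zero_add]
    have h2 : (w * N + t) % (N : ℤ) = t := by
      rw [add_comm, Int.add_mul_emod_self_right, Int.emod_eq_of_lt (by positivity)
        (by exact_mod_cast ht)]
    simp only [a, h1, h2, Int.toNat_natCast]
  have hlip : ∀ r r', ‖tent A o r • a (idx A o r) - tent A o r' • a (idx A o r')‖ ≤ |r - r'| :=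
    fun r r' => by simpa using glue hA o a (fun j => norm_cube (ha j)) r r'
  have ch : Continuous fun r => tent A o r • a (idx A o r) :=
    (unifCont_of_lip (K := 1) (by simpa using hlip)).continuous
  refine ⟨fun r => tent A o r • a (idx A o r), fun r => nφ r _ (ha _), hlip, fun w D hD => ?_⟩
  have cD : Continuous fun r => Gf r (tent A o r • a (idx A o r)) - G0 r :=
    (cG (by fun_prop) ch).sub cG0
  have hNA : (0 : ℝ) < N * A := by positivity
  have eL : (N : ℝ) * A = o + (w + 1) * (N * A) - (o + w * (N * A)) := by ring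
  have hle : o + w * (N * A) ≤ o + (w + 1) * (N * A) := by linarith
  have hDV : D = ∑ t ∈ Finset.range N, V (w * N + t) (aw w t) := by
    have := intervalIntegral.sum_integral_adjacent_intervals (μ := volume)
      (a := fun t : ℕ => o + (w * N + t) * A) (n := N) fun k _ => cD.intervalIntegrable _ _
    simp only [Nat.cast_zero, add_zero] at this
    rw [hD, show o + w * (N * A) = o + w * N * A by ring,
      show o + (w + 1) * (N * A) = o + (w * N + N) * A by ring, ← this]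
    refine Finset.sum_congr rfl fun t ht => ?_
    simp only [V]
    push_cast
    rw [← add_assoc]
    refine intervalIntegral.integral_congr fun r hr => ?_
    rw [uIcc_of_le (by linarith)] at hr
    have := tent_sel hA o a (r := r) (j := w * N + t) (by push_cast; exact hr.1)
      (by push_cast; exact hr.2)
    simp only [this, ha' w t (Finset.mem_range.1 ht)]
  have d2 : Lip (N * A * (2 * Lg)) D := by
    rw [hD]; conv_lhs => rw [eL]
    exact lipI cD hle fun r => g3 r _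
  have d0 : ∀ y, 5 ≤ ‖y‖ → D y = 0 := fun y hy => by
    rw [hD, evalI cD]
    simp only [g4 _ _ (ha _) y hy, intervalIntegral.integral_zero]
  have hLμ : Lg * (η * A / Γ) ≤ η := by
    calc _ ≤ Γ / A * (η * A / Γ) := by gcongr
      _ = η := by field_simp
  have d1 : ‖D‖ ≤ 2 * (b + 1) * η * (N * A) := by
    refine (norm_of_net hT' (B := η * N * B none) (by have := hB none; positivity) (by positivity)
      hμ.le d2 (fun z hz => by rw [hDV]; exact haw' w none z hz)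
      (fun y hy => d0 y (by linarith))).trans ?_
    simp only [B, Option.elim]
    nlinarith [mul_le_mul_of_nonneg_left hLμ hNA.le]
  have d4 : ∀ i, Lip (66 * 2 ^ m * (b + 1) * Γ * (n * η) * (N * A)) (W i D) := fun i => by
    refine (W1 i D _ d2).mono ?_
    have h1 : η * A * (N * A * (2 * Lg)) ≤ 2 * (Γ * η * (N * A)) := by
      calc _ ≤ η * A * (N * A * (2 * (Γ / A))) := by gcongr
        _ = _ := by field_simp
    have h2 : 32 * 2 ^ m * n * ‖D‖ ≤ 32 * 2 ^ m * n * (2 * (b + 1) * η * (N * A)) := by gcongr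
    have h3 : 1 * 1 * 1 * (Γ * η * (N * A)) ≤ 2 ^ m * (b + 1) * n * (Γ * η * (N * A)) := by
      gcongr; linarith
    have h4 : 1 * (2 ^ m * (b + 1) * n * η * (N * A)) ≤ Γ * (2 ^ m * (b + 1) * n * η * (N * A)) := by
      gcongr
    nlinarith
  refine ⟨d1, d2, fun i => ?_, d4, fun l hl => ?_⟩
  · refine (norm_of_net hT' (B := η * N * B (some i)) (by have := hB (some i); positivity)
      (by positivity) hμ.le (d4 i) (fun z hz => by rw [hDV]; exact haw' w (some i) z hz)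
      (fun y hy => W3 i D 5 d0 y (by linarith))).trans ?_
    simp only [B, Option.elim]
    have e : 66 * 2 ^ m * (b + 1) * Γ * (n * η) * (N * A) * (η * A / Γ) =
      66 * η * (2 ^ m * (b + 1) * (n * η) * A * (N * A)) := by field_simp
    rw [e]
    have h0 : 0 ≤ 2 ^ m * (b + 1) * (n * η) * A * (N * A) := by positivity
    have h1 : η * (2 ^ m * (b + 1) * (n * η) * A * (N * A)) ≤
      1 * (2 ^ m * (b + 1) * (n * η) * A * (N * A)) := by gcongr
    have h2 : η * b * 1 * 1 * (η * A * (N * A)) ≤ 1 * (b + 1) * 2 ^ m * n * (η * A * (N * A)) := by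
      gcongr; linarith
    have h3 : 0 ≤ 2 ^ m * (n * η) * A * (N * A) := by positivity
    nlinarith
  · rw [hD, mul_div_assoc]; conv_rhs => rw [eL]
    exact normI _ cD hle fun r => g2 r _ (ha _) l hl

end Pool.Agent.MP_20bec2_an

end MrgPart2

-- ======== part 3: formerly Pool.Agent.MP_20bec2_an.Correct
section MrgPart3

set_option autoImplicit false
open MeasureTheory Set Function
open scoped BoundedContinuousFunction

namespace Pool.Agent.MP_20bec2_an

variable {m : ℕ}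

lemma cont_of_lip {V : Type*} [NormedAddCommGroup V] {f : ℝ → V} {K : ℝ}
    (h : ∀ r r', ‖f r - f r'‖ ≤ K * |r - r'|) : Continuous f :=
  (unifCont_of_lip (K := K) h).continuous

theorem correct (hm : 0 < m) {G : ℝ → X m} (hG : Continuous G) {a Lg s Wm LW LD δ : ℝ} (o : ℝ)
    (ha : 0 < a) (hGa : ∀ r y, a ≤ G r y) (hLg : 0 ≤ Lg) (hGL : ∀ r, Lip Lg (G r)) (hs : 0 < s)
    {W D : ℤ → Fin m → E m → ℝ} (hW : ∀ w i y, |W w i y| ≤ Wm) (hLW : 0 ≤ LW) (hLD : 0 ≤ LD)
    (hWL : ∀ w i, Lip LW (W w i)) (hDL : ∀ w i, Lip LD (D w i))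
    (hWD : ∀ w i y, HasDerivAt (fun t : ℝ => W w i (y + t • ee i)) (D w i y) 0)
    (hδ : 3 * LW / (a * s) + 3 * Wm / (a * s) * Lg / a ≤ δ) (hδ1 : δ ≤ 1 / 2) :
    ∃ (c : ℝ → E m → E m) (j : ℝ → E m → ℝ),
      (∀ r y, ‖c r y - y‖ ≤ 3 * Wm / (a * s)) ∧
      (∀ r r' y, ‖c r y - c r' y‖ ≤ 6 * Wm / (a * s ^ 2) * |r - r'|) ∧
      (∀ r y y', ‖c r y - c r y'‖ ≤ (1 + δ) * ‖y - y'‖ ∧ (1 - δ) * ‖y - y'‖ ≤ ‖c r y - c r y'‖) ∧
      (∀ r y, |j r y - 1| ≤ δ) ∧ (∀ r, Lip (3 * LD / (a * s) + 10 * Lg / a) (j r)) ∧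
      (∀ r r' y, |j r y - j r' y| ≤ 2 * δ / s * |r - r'|) ∧ (∀ r, Push (c r) (j r)) ∧
      ∀ (w : ℤ) y, ∫ r in (o + w * (m * s))..(o + (w + 1) * (m * s)), G r (c r y) * j r y =
        (∫ r in (o + w * (m * s))..(o + (w + 1) * (m * s)), G r y) - ∑ i, D w i y := by
  have hθ := tent_cont hs o
  have hθ0 := tent_nonneg hs o
  have hθ1 := tent_le (h := s) o
  have hWm : 0 ≤ Wm := (abs_nonneg _).trans (hW 0 ⟨0, hm⟩ 0)
  have hδ0 : 0 ≤ δ := le_trans (by positivity) hδ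
  have hm' : (0 : ℤ) < m := by exact_mod_cast hm
  let dir : ℤ → Fin m := fun t => ⟨(t % m).toNat, by
    have := Int.emod_lt_of_pos t hm'
    have := Int.emod_nonneg t hm'.ne'
    omega⟩
  have hθLv : s / 2 * (2 * δ / s) = δ := by field_simp
  have key : ∀ t : ℤ, ∃ v q : E m → ℝ, (∀ y, |v y| ≤ 6 * Wm / (a * s ^ 2)) ∧ Lip (2 * δ / s) v ∧
      (∀ y, HasDerivAt (fun u : ℝ => v (y + u • ee (dir t))) (q y) 0) ∧ (∀ y, |q y| ≤ 2 * δ / s) ∧
      Lip (2 / s * (3 * LD / (a * s) + 10 * Lg / a)) q ∧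
      ∀ y, ∫ r in (o + t * s)..(o + (t + 1) * s),
        G r (y + (tent s o r * v y) • ee (dir t)) * (1 + tent s o r * q y) =
        (∫ r in (o + t * s)..(o + (t + 1) * s), G r y) - D (t / m) (dir t) y := fun t => by
    have hΘ := tent_integral hs o t
    set Θ := ∫ r in (o + t * s)..(o + (t + 1) * s), tent s o r with hΘ'
    have hΘ0 : 0 < Θ := lt_of_lt_of_le (by positivity) hΘ
    have hdiv : ∀ x, 0 ≤ x → x / (a * Θ) ≤ 6 * x / (a * s ^ 2) := fun x hx => by
      calc x / (a * Θ) ≤ x / (a * (s ^ 2 / 6)) := by gcongr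
        _ = _ := by field_simp
    obtain ⟨v, q, h1, h2, h3, h4, h5, h6⟩ := solve (dir t) hG (α := o + t * s) (β := o + (t + 1) * s)
      (by linarith) hθ hθ0 hθ1 hΘ0 hΘ'.symm ha hGa hLg hGL (hW (t / m) (dir t)) hLW (hWL _ _)
      (hDL _ _) (hWD _ _) (Lv := 2 * δ / s) (by
        calc _ ≤ 6 * LW / (a * s ^ 2) + 6 * Wm / (a * s ^ 2) * Lg / a := by
              have := hdiv LW hLW
              have := hdiv Wm hWm
              gcongr
          _ = 2 * (3 * LW / (a * s) + 3 * Wm / (a * s) * Lg / a) / s := by field_simp; ring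
          _ ≤ _ := by gcongr)
    refine ⟨v, q, fun y => (h1 y).trans (hdiv _ hWm), h2, h3, h4, h5.mono ?_, h6⟩
    rw [hθLv, show o + (t + 1) * s - (o + t * s) = s by ring]
    have k1 := hdiv (LD + s * (Lg * (2 + δ))) (by positivity)
    have k2 : 6 * (LD + s * (Lg * (2 + δ))) / (a * s ^ 2) ≤ 6 * (LD + s * (Lg * 3)) / (a * s ^ 2) := by
      gcongr; linarith
    have k3 : 2 * δ / s * (Lg * (1 + δ)) / a ≤ 2 * (1 / 2) / s * (Lg * 2) / a := by
      gcongr; linarith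
    have k4 : 6 * (LD + s * (Lg * 3)) / (a * s ^ 2) + 2 * (1 / 2) / s * (Lg * 2) / a =
      2 / s * (3 * LD / (a * s) + 10 * Lg / a) := by field_simp; ring
    linarith
  choose v q h1 h2 h3 h4 h5 h6 using key
  have nv : ∀ t y, ‖v t y • ee (dir t)‖ ≤ 6 * Wm / (a * s ^ 2) := fun t y => by
    rw [norm_smul_ee]; exact h1 t y
  have hj1 : ∀ r t y, |tent s o r * q t y| ≤ δ := fun r t y => by
    rw [abs_mul, abs_of_nonneg (hθ0 r), ← hθLv]
    exact mul_le_mul (hθ1 r) (h4 t y) (abs_nonneg _) (by positivity)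
  have c2 : ∀ r r' y, ‖(y + (tent s o r * v (idx s o r) y) • ee (dir (idx s o r))) -
      (y + (tent s o r' * v (idx s o r') y) • ee (dir (idx s o r')))‖ ≤
      6 * Wm / (a * s ^ 2) * |r - r'| := fun r r' y => by
    rw [add_sub_add_left_eq_sub, mul_smul, mul_smul]
    exact glue hs o (fun t => v t y • ee (dir t)) (fun t => nv t y) r r'
  have j3 : ∀ r r' y, |(1 + tent s o r * q (idx s o r) y) - (1 + tent s o r' * q (idx s o r') y)| ≤
      2 * δ / s * |r - r'| := fun r r' y => by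
    rw [add_sub_add_left_eq_sub]
    exact glue hs o (fun t => q t y) (fun t => h4 t y) r r'
  refine ⟨fun r y => y + (tent s o r * v (idx s o r) y) • ee (dir (idx s o r)),
    fun r y => 1 + tent s o r * q (idx s o r) y, fun r y => ?_, c2, fun r y y' => ?_, fun r y => ?_,
    fun r y y' => ?_, j3, fun r => ?_, fun w y => ?_⟩
  · rw [add_sub_cancel_left, norm_smul_ee, abs_mul, abs_of_nonneg (hθ0 r)]
    calc _ ≤ s / 2 * (6 * Wm / (a * s ^ 2)) :=
          mul_le_mul (hθ1 r) (h1 _ y) (abs_nonneg _) (by positivity)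
      _ = _ := by field_simp; ring
  · have k := norm_shift (dir (idx s o r)) (hθ0 r) (h2 (idx s o r)) y y'
    have k1 : tent s o r * (2 * δ / s) ≤ δ := by
      conv_rhs => rw [← hθLv]
      have := hθ1 r
      gcongr
    have k2 := mul_le_mul_of_nonneg_right k1 (norm_nonneg (y - y'))
    constructor <;> nlinarith [k.1, k.2]
  · rw [add_sub_cancel_left]; exact hj1 _ _ _
  · beta_reduce
    rw [add_sub_add_left_eq_sub, ← mul_sub, abs_mul, abs_of_nonneg (hθ0 r)]
    calc _ ≤ s / 2 * (2 / s * (3 * LD / (a * s) + 10 * Lg / a) * ‖y - y'‖) :=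
          mul_le_mul (hθ1 r) (h5 _ y y') (abs_nonneg _) (by positivity)
      _ = _ := by field_simp
  · refine push_line (dir (idx s o r)) (w := fun y => tent s o r * v (idx s o r) y)
      (q := fun y => tent s o r * q (idx s o r) y)
      (by have := (h2 (idx s o r)).continuous; fun_prop)
      (by have := (h5 (idx s o r)).continuous; fun_prop)
      (fun y => (h3 _ y).const_mul _) fun y => ?_
    linarith [(abs_le.1 (hj1 r (idx s o r) y)).1]
  · have cc := cont_of_lip (c2 · · y)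
    have cj := cont_of_lip (V := ℝ) (j3 · · y)
    have s1 := intervalIntegral.sum_integral_adjacent_intervals (μ := volume)
      (f := fun r => G r (y + (tent s o r * v (idx s o r) y) • ee (dir (idx s o r))) *
        (1 + tent s o r * q (idx s o r) y))
      (a := fun t : ℕ => o + (w * m + t) * s) (n := m) fun k _ =>
        (Continuous.mul (by fun_prop) cj).intervalIntegrable _ _
    have s2 := intervalIntegral.sum_integral_adjacent_intervals (μ := volume)
      (f := fun r => G r y) (a := fun t : ℕ => o + (w * m + t) * s) (n := m) fun k _ =>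
        (by fun_prop : Continuous _).intervalIntegrable _ _
    simp only [Nat.cast_zero, add_zero] at s1 s2
    rw [show o + w * (m * s) = o + w * m * s by ring,
      show o + (w + 1) * (m * s) = o + (w * m + m) * s by ring, ← s1, ← s2,
      Finset.sum_range, Finset.sum_range, ← Finset.sum_sub_distrib]
    refine Finset.sum_congr rfl fun i _ => ?_
    have e1 : (w * m + (i : ℕ)) / (m : ℤ) = w := by
      rw [add_comm, Int.add_mul_ediv_right _ _ hm'.ne', Int.ediv_eq_zero_of_lt (by positivity)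
        (by exact_mod_cast i.2), zero_add]
    have e2 : dir (w * m + (i : ℕ)) = i := by
      ext
      simp only [dir]
      rw [add_comm, Int.add_mul_emod_self_right, Int.emod_eq_of_lt (by positivity)
        (by exact_mod_cast i.2), Int.toNat_natCast]
    have k := h6 (w * m + (i : ℕ)) y
    rw [e1, e2] at k
    push_cast at k ⊢
    rw [← add_assoc, ← k]
    refine intervalIntegral.integral_congr fun r hr => ?_
    rw [uIcc_of_le (by linarith)] at hr
    have k1 := tent_sel hs o (fun t => v t y • ee (dir t)) (r := r) (j := w * m + (i : ℕ))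
      (by push_cast; exact hr.1) (by push_cast; exact hr.2)
    have k2 := tent_sel hs o (fun t => q t y) (r := r) (j := w * m + (i : ℕ))
      (by push_cast; exact hr.1) (by push_cast; exact hr.2)
    simp only [smul_eq_mul] at k2
    simp only [mul_smul, k1, k2, e2]

lemma window_sum {e : ℝ → ℝ} (he : Continuous e) {o L B R : ℝ} (hL : 0 < L) (ho : 0 ≤ o)
    (ho' : o ≤ L) (hR : 0 ≤ R) (hB : ∀ r, |e r| ≤ B)
    (hw : ∀ w : ℤ, |∫ r in (o + w * L)..(o + (w + 1) * L), e r| ≤ L * R) {s : ℝ} (hs0 : 0 ≤ s)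
    (hs1 : s ≤ 1) : |∫ r in (0 : ℝ)..s, e r| ≤ 2 * L * B + (1 + L) * R := by
  have hB0 : 0 ≤ B := (abs_nonneg _).trans (hB 0)
  set n : ℕ := ⌊(s - (o - L)) / L⌋₊
  have h1 : (n : ℝ) ≤ (s - (o - L)) / L := Nat.floor_le (div_nonneg (by linarith) hL.le)
  have h2 : (s - (o - L)) / L < n + 1 := Nat.lt_floor_add_one _
  rw [le_div_iff₀ hL] at h1
  rw [div_lt_iff₀ hL] at h2
  have s1 := intervalIntegral.sum_integral_adjacent_intervals (μ := volume) (f := e)
    (a := fun t : ℕ => o - L + t * L) (n := n) fun k _ => he.intervalIntegrable _ _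
  simp only [Nat.cast_zero, zero_mul, add_zero] at s1
  have s2 : |∫ r in (o - L)..(o - L + n * L), e r| ≤ n * (L * R) := by
    rw [← s1]
    refine (Finset.abs_sum_le_sum_abs _ _).trans ?_
    refine (Finset.sum_le_card_nsmul _ _ (L * R) fun t _ => ?_).trans (by simp)
    have := hw (t - 1)
    push_cast at this ⊢
    rwa [show o + (t - 1) * L = o - L + t * L by ring,
      show o + (t - 1 + 1) * L = o - L + (t + 1) * L by ring] at this
  have s3 := abs_int_le_const (α := o - L + n * L) (β := s) (by linarith) hB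
  have s4 := abs_int_le_const (α := o - L) (β := 0) (by linarith) hB
  have e1 : ∫ r in (0 : ℝ)..s, e r = (∫ r in (o - L)..(o - L + n * L), e r) +
      (∫ r in (o - L + n * L)..s, e r) - ∫ r in (o - L)..0, e r := by
    rw [intervalIntegral.integral_add_adjacent_intervals (he.intervalIntegrable _ _)
      (he.intervalIntegrable _ _), intervalIntegral.integral_interval_sub_left
      (he.intervalIntegrable _ _) (he.intervalIntegrable _ _)]
  have k1 : (s - (o - L + n * L)) * B ≤ L * B := by gcongr; linarith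
  have k2 : (0 - (o - L)) * B ≤ L * B := by gcongr; linarith
  have k3 : n * L * R ≤ (1 + L) * R := by gcongr; linarith
  rw [e1, abs_le] at *
  constructor <;> nlinarith [s2.1, s2.2, s3.1, s3.2, s4.1, s4.2]

end Pool.Agent.MP_20bec2_an

end MrgPart3

-- ======== part 4: formerly Pool.Agent.MP_20bec2_an.Step
section MrgPart4

set_option autoImplicit false
open MeasureTheory Set Function
open scoped BoundedContinuousFunction

namespace Pool.Agent.MP_20bec2_an

variable {m : ℕ}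

structure Good (lam Λ σ LJ : ℝ) (ψ : ℝ → E m → E m) (J : ℝ → E m → ℝ) : Prop where
  up : ∀ r y y', ‖ψ r y - ψ r y'‖ ≤ lam * ‖y - y'‖
  lo : ∀ r y y', ‖y - y'‖ ≤ lam * ‖ψ r y - ψ r y'‖
  tm : ∀ r r' y, ‖ψ r y - ψ r' y‖ ≤ Λ * |r - r'|
  nr : ∀ r y, ‖ψ r y - y‖ ≤ σ
  Jlo : ∀ r y, 1 ≤ lam * J r y
  Jup : ∀ r y, J r y ≤ lam
  JL : ∀ r, Lip LJ (J r)
  Jt : ∃ K, ∀ r r' y, |J r y - J r' y| ≤ K * |r - r'|
  push : ∀ r, Push (ψ r) (J r)

structure Dens (a b L : ℝ) (ρ : ℝ → X m) : Prop where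
  cont : Continuous ρ
  lo : ∀ r x, a ≤ ρ r x
  hi : ∀ r x, ρ r x ≤ b
  lip : ∀ r, Lip L (ρ r)
  out : ∀ r x, 3 ≤ ‖x‖ → ρ r x = a

lemma abs_mul_sub_le {x x' y y' p q P Q : ℝ} (h1 : |x - x'| ≤ p) (h2 : |y| ≤ Q) (h3 : |y - y'| ≤ q)
    (h4 : |x'| ≤ P) : |x * y - x' * y'| ≤ p * Q + P * q := by
  calc |x * y - x' * y'| = |(x - x') * y + x' * (y - y')| := by ring_nf
    _ ≤ |x - x'| * |y| + |x'| * |y - y'| := by rw [← abs_mul, ← abs_mul]; exact abs_add_le _ _
    _ ≤ _ := add_le_add (mul_le_mul h1 h2 (abs_nonneg _) ((abs_nonneg _).trans h1))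
        (mul_le_mul h4 h3 (abs_nonneg _) ((abs_nonneg _).trans h4))

lemma Good.J_mem {lam Λ σ LJ : ℝ} {ψ : ℝ → E m → E m} {J : ℝ → E m → ℝ} (h : Good lam Λ σ LJ ψ J)
    (h1 : 1 ≤ lam) (h2 : lam ≤ 2) (r : ℝ) (y : E m) : 1 / 2 ≤ J r y ∧ J r y ≤ 2 := by
  have k1 := h.Jlo r y
  have k2 := h.Jup r y
  refine ⟨?_, k2.trans h2⟩
  by_contra hc
  push Not at hc
  nlinarith

lemma exists_G {a b Lρ lam Λ σ LJ : ℝ} {ψ : ℝ → E m → E m} {J : ℝ → E m → ℝ} {ρ : ℝ → X m}
    (h : Good lam Λ σ LJ ψ J) (hρ : Dens a b Lρ ρ) (ha : 0 < a) (h1 : 1 ≤ lam) (h2 : lam ≤ 2)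
    (hσ : σ ≤ 1) (hLρ : 0 ≤ Lρ) :
    ∃ Gf : ℝ → E m → X m, (∀ r u y, Gf r u y = ρ r (u + ψ r y) * J r y) ∧
      Continuous (uncurry Gf) ∧ (∀ r u y, a / 2 ≤ Gf r u y ∧ Gf r u y ≤ 2 * b) ∧
      (∀ r u, Lip (4 * Lρ + b * LJ) (Gf r u)) ∧
      (∀ r u u', ∀ l > 0, ‖Bx (cst l) (Gf r u - Gf r u')‖ ≤ 8 * 2 ^ m * b * ‖u - u'‖ / l) ∧
      (∀ r u u', ‖u‖ ≤ 1 → ‖u'‖ ≤ 1 → ∀ y, 5 ≤ ‖y‖ → Gf r u y = Gf r u' y) := by
  have hJ := h.J_mem h1 h2
  have hb : 0 < b := ha.trans_le ((hρ.lo 0 0).trans (hρ.hi 0 0))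
  have uψ : ∀ r, UniformContinuous (ψ r) := fun r => unifCont_of_lip (h.up r)
  have cψ : ∀ r, Continuous (ψ r) := fun r => (uψ r).continuous
  have cJ : ∀ r, Continuous (J r) := fun r => (h.JL r).continuous
  have hρ0 : ∀ r x, 0 ≤ ρ r x := fun r x => ha.le.trans (hρ.lo r x)
  have aρ : ∀ r x, |ρ r x| ≤ b := fun r x => by rw [abs_of_nonneg (hρ0 r x)]; exact hρ.hi r x
  have aJ : ∀ r y, |J r y| ≤ 2 := fun r y => by
    rw [abs_of_nonneg (by linarith [(hJ r y).1])]; exact (hJ r y).2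
  have hbd : ∀ r u y, a / 2 ≤ ρ r (u + ψ r y) * J r y ∧ ρ r (u + ψ r y) * J r y ≤ 2 * b :=
    fun r u y => by
    have k1 := hρ.lo r (u + ψ r y)
    have k2 := hρ.hi r (u + ψ r y)
    have k3 := hJ r y
    constructor <;> nlinarith [k3.1, k3.2]
  obtain ⟨Gf, hGf⟩ : ∃ Gf : ℝ → E m → X m, ∀ r u y, Gf r u y = ρ r (u + ψ r y) * J r y :=
    ⟨fun r u => BoundedContinuousFunction.ofNormedAddCommGroup
      (fun y => ρ r (u + ψ r y) * J r y) (by have := cψ r; have := cJ r; fun_prop) (2 * b)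
      (fun y => by
        rw [Real.norm_of_nonneg (by linarith [(hbd r u y).1])]; exact (hbd r u y).2),
      fun _ _ _ => rfl⟩
  refine ⟨Gf, hGf, ?_, fun r u y => by rw [hGf]; exact hbd r u y, fun r u y y' => ?_,
    fun r u u' l hl => ?_, fun r u u' hu hu' y hy => ?_⟩
  · obtain ⟨K, hK⟩ := h.Jt
    rw [continuous_iff_continuousAt]
    intro p
    rw [ContinuousAt, tendsto_iff_norm_sub_tendsto_zero]
    have hc := hρ.cont
    have hf : Continuous fun q : ℝ × E m => (‖ρ q.1 - ρ p.1‖ + Lρ * (‖q.2 - p.2‖ +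
        |Λ| * |q.1 - p.1|)) * 2 + b * (|K| * |q.1 - p.1|) := by fun_prop
    have ht := hf.tendsto p
    simp only [sub_self, norm_zero, abs_zero, mul_zero, add_zero, zero_mul] at ht
    refine squeeze_zero (fun _ => norm_nonneg _) (fun q => ?_) ht
    refine (BoundedContinuousFunction.norm_le (by positivity)).2 fun y => ?_
    simp only [uncurry, BoundedContinuousFunction.coe_sub, Pi.sub_apply, hGf, Real.norm_eq_abs]
    refine abs_mul_sub_le ?_ (aJ _ _)
      ((hK _ _ y).trans (mul_le_mul_of_nonneg_right (le_abs_self K) (abs_nonneg _))) (aρ _ _)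
    have k1 : |ρ q.1 (q.2 + ψ q.1 y) - ρ p.1 (q.2 + ψ q.1 y)| ≤ ‖ρ q.1 - ρ p.1‖ :=
      (ρ q.1 - ρ p.1).norm_coe_le_norm _
    have k2 := hρ.lip p.1 (q.2 + ψ q.1 y) (p.2 + ψ p.1 y)
    have k3 : ‖q.2 + ψ q.1 y - (p.2 + ψ p.1 y)‖ ≤ ‖q.2 - p.2‖ + |Λ| * |q.1 - p.1| := by
      rw [add_sub_add_comm]
      exact (norm_add_le _ _).trans (add_le_add le_rfl ((h.tm _ _ y).trans
        (mul_le_mul_of_nonneg_right (le_abs_self Λ) (abs_nonneg _))))
    have k4 := mul_le_mul_of_nonneg_left k3 hLρ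
    have k5 := abs_sub_le (ρ q.1 (q.2 + ψ q.1 y)) (ρ p.1 (q.2 + ψ q.1 y)) (ρ p.1 (p.2 + ψ p.1 y))
    linarith
  · rw [hGf, hGf]
    have k1 := hρ.lip r (u + ψ r y) (u + ψ r y')
    rw [add_sub_add_left_eq_sub] at k1
    have k2 : Lρ * ‖ψ r y - ψ r y'‖ ≤ Lρ * (2 * ‖y - y'‖) :=
      mul_le_mul_of_nonneg_left ((h.up r y y').trans (by gcongr)) hLρ
    refine (abs_mul_sub_le (k1.trans k2) (aJ r y) (h.JL r y y') (aρ _ _)).trans (le_of_eq (by ring))
  · refine (BoundedContinuousFunction.norm_le (by positivity)).2 fun y => ?_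
    rw [map_sub]
    exact transport (h.push r) (uψ r) (fun y y' => (h.lo r y y').trans (by gcongr))
      (fun y => ⟨by linarith [(hJ r y).1], (hJ r y).2⟩) (ρ r) (fun x => ⟨hρ0 r x, hρ.hi r x⟩)
      u u' _ _ (hGf r u) (hGf r u') hl y
  · have k : ∀ u : E m, ‖u‖ ≤ 1 → 3 ≤ ‖u + ψ r y‖ := fun u hu => by
      have k1 := h.nr r y
      have k2 : ‖y‖ ≤ ‖u + ψ r y‖ + ‖u‖ + ‖ψ r y - y‖ := by
        calc ‖y‖ = ‖(u + ψ r y) - u - (ψ r y - y)‖ := by congr 1; abel
          _ ≤ _ := (norm_sub_le _ _).trans (add_le_add (norm_sub_le _ _) le_rfl)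
      linarith
    rw [hGf, hGf, hρ.out r _ (k u hu), hρ.out r _ (k u' hu')]

lemma Good.next {lam Λ σ LJ δ um vm Lj A K : ℝ} {ψ : ℝ → E m → E m} {J : ℝ → E m → ℝ}
    (h : Good lam Λ σ LJ ψ J) (h1 : 1 ≤ lam) (h2 : lam ≤ 2) (hLJ : 0 ≤ LJ) (hδ0 : 0 ≤ δ)
    (hδ : δ ≤ 1 / 4)
    {u : ℝ → E m} (u1 : ∀ r, ‖u r‖ ≤ A / 2) (u2 : ∀ r r', ‖u r - u r'‖ ≤ |r - r'|)
    {c : ℝ → E m → E m} {j : ℝ → E m → ℝ} (c1 : ∀ r y, ‖c r y - y‖ ≤ um)
    (c2 : ∀ r r' y, ‖c r y - c r' y‖ ≤ vm * |r - r'|)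
    (c3 : ∀ r y y', ‖c r y - c r y'‖ ≤ (1 + δ) * ‖y - y'‖ ∧ (1 - δ) * ‖y - y'‖ ≤ ‖c r y - c r y'‖)
    (j1 : ∀ r y, |j r y - 1| ≤ δ) (j2 : ∀ r, Lip Lj (j r))
    (j3 : ∀ r r' y, |j r y - j r' y| ≤ K * |r - r'|) (hp : ∀ r, Push (c r) (j r))
    (hum : um ≤ A / 4) (hum' : LJ * um ≤ δ) :
    Good (lam / (1 - δ)) (Λ + 1 + 2 * vm) (σ + A) (2 * LJ + 2 * Lj)
      (fun r y => u r + ψ r (c r y)) (fun r y => J r (c r y) * j r y) ∧
    (∀ r y, ‖u r + ψ r (c r y) - ψ r y‖ ≤ A) ∧ ∀ r y, |J r (c r y) * j r y - J r y| ≤ 4 * δ := by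
  have hJ := h.J_mem h1 h2
  have aJ : ∀ r y, |J r y| ≤ 2 := fun r y => by
    rw [abs_of_nonneg (by linarith [(hJ r y).1])]; exact (hJ r y).2
  have hd : 0 < 1 - δ := by linarith
  have j4 : ∀ r y, 1 - δ ≤ j r y ∧ j r y ≤ 1 + δ := fun r y => by
    have := abs_le.1 (j1 r y); constructor <;> linarith [this.1, this.2]
  have aj : ∀ r y, |j r y| ≤ 1 + δ := fun r y => by
    rw [abs_of_nonneg (by linarith [(j4 r y).1])]; exact (j4 r y).2
  have hl : lam * (1 + δ) ≤ lam / (1 - δ) := by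
    rw [le_div_iff₀ hd]; nlinarith [sq_nonneg δ]
  have up2 : ∀ r y y', ‖ψ r y - ψ r y'‖ ≤ 2 * ‖y - y'‖ := fun r y y' =>
    (h.up r y y').trans (by gcongr)
  have near : ∀ r y, ‖u r + ψ r (c r y) - ψ r y‖ ≤ A := fun r y => by
    rw [add_sub_assoc]
    have k1 := norm_add_le (u r) (ψ r (c r y) - ψ r y)
    linarith [u1 r, up2 r (c r y) y, c1 r y]
  refine ⟨⟨fun r y y' => ?_, fun r y y' => ?_, fun r r' y => ?_, fun r y => ?_, fun r y => ?_,
    fun r y => ?_, fun r y y' => ?_, ?_, fun r => ?_⟩, near, fun r y => ?_⟩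
  · rw [add_sub_add_left_eq_sub]
    calc _ ≤ lam * ((1 + δ) * ‖y - y'‖) :=
          (h.up r _ _).trans (mul_le_mul_of_nonneg_left (c3 r y y').1 (by linarith))
      _ ≤ _ := by rw [← mul_assoc]; gcongr
  · rw [add_sub_add_left_eq_sub, div_mul_eq_mul_div, le_div_iff₀ hd, mul_comm]
    exact (c3 r y y').2.trans (h.lo r _ _)
  · rw [add_sub_add_comm]
    have k1 := norm_add_le (u r - u r') (ψ r (c r y) - ψ r' (c r' y))
    have k2 := norm_sub_le_norm_sub_add_norm_sub (ψ r (c r y)) (ψ r (c r' y)) (ψ r' (c r' y))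
    linarith [u2 r r', up2 r (c r y) (c r' y), c2 r r' y, h.tm r r' (c r' y)]
  · have k2 := norm_sub_le_norm_sub_add_norm_sub (u r + ψ r (c r y)) (ψ r y) y
    linarith [near r y, h.nr r y]
  · rw [div_mul_eq_mul_div, le_div_iff₀ hd, ← mul_assoc]
    have k1 := h.Jlo r (c r y)
    nlinarith [(j4 r y).1]
  · refine le_trans ?_ hl
    exact mul_le_mul (h.Jup _ _) (j4 r y).2 (by linarith [(j4 r y).1]) (by linarith)
  · have k1 : |J r (c r y) - J r (c r y')| ≤ LJ * ((1 + δ) * ‖y - y'‖) :=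
      (h.JL r _ _).trans (mul_le_mul_of_nonneg_left (c3 r y y').1 hLJ)
    refine (abs_mul_sub_le k1 (aj r y) (j2 r y y') (aJ _ _)).trans ?_
    have k2 : (1 + δ) * (1 + δ) ≤ 2 := by nlinarith
    have k3 := mul_le_mul_of_nonneg_left k2 (mul_nonneg hLJ (norm_nonneg (y - y')))
    nlinarith
  · obtain ⟨K', hK'⟩ := h.Jt
    refine ⟨(LJ * vm + |K'|) * (1 + δ) + 2 * K, fun r r' y => ?_⟩
    have k1 : |J r (c r y) - J r (c r' y)| ≤ LJ * (vm * |r - r'|) :=
      (h.JL r _ _).trans (mul_le_mul_of_nonneg_left (c2 r r' y) hLJ)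
    have k2 := (hK' r r' (c r' y)).trans (mul_le_mul_of_nonneg_right (le_abs_self K') (abs_nonneg _))
    have k3 := abs_sub_le (J r (c r y)) (J r (c r' y)) (J r' (c r' y))
    refine (abs_mul_sub_le (k3.trans (add_le_add k1 k2)) (aj r y) (j3 r r' y) (aJ _ _)).trans
      (le_of_eq (by ring))
  · exact (h.push r).comp (hp r) (unifCont_of_lip (h.up r)).continuous (h.JL r).continuous
      (fun y => by linarith [(hJ r y).1]) _
  · have k1 : |J r (c r y) - J r y| ≤ δ :=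
      ((h.JL r _ _).trans (mul_le_mul_of_nonneg_left (c1 r y) hLJ)).trans hum'
    have := abs_mul_sub_le k1 (aj r y) (j1 r y) (aJ r y)
    rw [mul_one] at this
    nlinarith

lemma est {G1 G0 : ℝ → X m} (cG1 : Continuous G1) (cG0 : Continuous G0)
    {b Lg Lj δ L o R1 R2 vm K : ℝ} (hb : 0 ≤ b) (hLg : 0 ≤ Lg) (hLj : 0 ≤ Lj) (hδ0 : 0 ≤ δ)
    (hδ : δ ≤ 1 / 4) (hL : 0 < L) (ho : 0 ≤ o) (hoL : o ≤ L) (hR1 : 0 ≤ R1) (hR2 : 0 ≤ R2)
    (bG1 : ∀ r y, 0 ≤ G1 r y ∧ G1 r y ≤ 2 * b) (bG0 : ∀ r y, 0 ≤ G0 r y ∧ G0 r y ≤ 2 * b)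
    (lG1 : ∀ r, Lip Lg (G1 r)) (lG0 : ∀ r, Lip Lg (G0 r)) {c : ℝ → E m → E m} {j : ℝ → E m → ℝ}
    (c2 : ∀ r r' y, ‖c r y - c r' y‖ ≤ vm * |r - r'|)
    (c3 : ∀ r y y', ‖c r y - c r y'‖ ≤ (1 + δ) * ‖y - y'‖)
    (j1 : ∀ r y, |j r y - 1| ≤ δ) (j2 : ∀ r, Lip Lj (j r))
    (j3 : ∀ r r' y, |j r y - j r' y| ≤ K * |r - r'|) {D Kw : ℤ → X m} {S : ℤ → E m → ℝ}
    (hD : ∀ w : ℤ, D w = ∫ r in (o + w * L)..(o + (w + 1) * L), (G1 r - G0 r))
    (hS : ∀ w y, D w y = S w y + Kw w y)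
    (hint : ∀ (w : ℤ) y, ∫ r in (o + w * L)..(o + (w + 1) * L), G1 r (c r y) * j r y =
      (∫ r in (o + w * L)..(o + (w + 1) * L), G1 r y) - S w y)
    (hK1 : ∀ w, ‖Kw w‖ ≤ L * R1) (hK2 : ∀ w, Lip (L * R2) (Kw w)) {s : ℝ} (hs : s ∈ Icc (0 : ℝ) 1) :
    (∀ y, |∫ r in (0 : ℝ)..s, (G1 r (c r y) * j r y - G0 r y)| ≤ 2 * L * (4 * b) + (1 + L) * R1) ∧
    Lip (2 * L * (3 * Lg + 2 * b * Lj) + (1 + L) * R2)
      fun y => ∫ r in (0 : ℝ)..s, (G1 r (c r y) * j r y - G0 r y) := by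
  have ccc : ∀ y, Continuous fun r => c r y := fun y => cont_of_lip (c2 · · y)
  have cj : ∀ y, Continuous fun r => j r y := fun y => cont_of_lip (V := ℝ) (j3 · · y)
  have ce1 : ∀ y, Continuous fun r => G1 r (c r y) * j r y := fun y => by
    have := ccc y; have := cj y; fun_prop
  have ce : ∀ y, Continuous fun r => G1 r (c r y) * j r y - G0 r y := fun y => by
    have := ce1 y; fun_prop
  have hw : ∀ (w : ℤ) y, ∫ r in (o + w * L)..(o + (w + 1) * L),
      (G1 r (c r y) * j r y - G0 r y) = Kw w y := fun w y => by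
    rw [intervalIntegral.integral_sub ((ce1 y).intervalIntegrable _ _)
      ((by fun_prop : Continuous _).intervalIntegrable _ _), hint]
    have k1 := hS w y
    have k2 : D w y = (∫ r in (o + w * L)..(o + (w + 1) * L), G1 r y) -
        ∫ r in (o + w * L)..(o + (w + 1) * L), G0 r y := by
      rw [hD, evalI (f := fun r => G1 r - G0 r) (cG1.sub cG0), ← intervalIntegral.integral_sub
        ((by fun_prop : Continuous _).intervalIntegrable _ _)
        ((by fun_prop : Continuous _).intervalIntegrable _ _)]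
      rfl
    linarith
  have aj : ∀ r y, 0 ≤ j r y ∧ j r y ≤ 1 + δ := fun r y => by
    have := abs_le.1 (j1 r y); constructor <;> linarith [this.1, this.2]
  refine ⟨fun y => ?_, fun y y' => ?_⟩
  · refine window_sum (ce y) hL ho hoL hR1 (fun r => ?_) (fun w => ?_) hs.1 hs.2
    · have k1 := bG1 r (c r y)
      have k2 := bG0 r y
      have k3 := aj r y
      have k4 := mul_nonneg k1.1 k3.1
      have k5 := mul_le_mul k1.2 (show j r y ≤ 2 by linarith [k3.2]) k3.1 (by linarith)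
      rw [abs_le]
      constructor <;> linarith [k2.1, k2.2]
    · rw [hw]
      exact ((Kw w).norm_coe_le_norm y).trans (hK1 w)
  · rw [← intervalIntegral.integral_sub ((ce y).intervalIntegrable _ _)
      ((ce y').intervalIntegrable _ _)]
    refine (window_sum (e := fun r => G1 r (c r y) * j r y - G0 r y - (G1 r (c r y') * j r y' - G0 r y'))
      ((ce y).sub (ce y')) hL ho hoL
      (B := (3 * Lg + 2 * b * Lj) * ‖y - y'‖) (R := R2 * ‖y - y'‖)
      (by positivity) (fun r => ?_) (fun w => ?_) hs.1 hs.2).trans (le_of_eq (by ring))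
    · have k1 : |G1 r (c r y) - G1 r (c r y')| ≤ Lg * ((1 + δ) * ‖y - y'‖) :=
        (lG1 r _ _).trans (mul_le_mul_of_nonneg_left (c3 r y y') hLg)
      have k2 := abs_mul_sub_le (P := 2 * b) (Q := 1 + δ) k1
        (by rw [abs_of_nonneg (aj r y).1]; exact (aj r y).2) (j2 r y y')
        (by rw [abs_of_nonneg (bG1 _ _).1]; exact (bG1 _ _).2)
      have k3 := lG0 r y y'
      have k4 : (1 + δ) * (1 + δ) ≤ 2 := by nlinarith
      have k5 := mul_le_mul_of_nonneg_left k4 (mul_nonneg hLg (norm_nonneg (y - y')))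
      have k8 := abs_sub (G1 r (c r y) * j r y - G1 r (c r y') * j r y') (G0 r y - G0 r y')
      rw [sub_sub_sub_comm]
      linarith
    · rw [intervalIntegral.integral_sub ((ce y).intervalIntegrable _ _)
        ((ce y').intervalIntegrable _ _), hw, hw, ← mul_assoc]
      exact hK2 w y y'

lemma num1 {mm c b a K x A L Γ Lg δ : ℝ} (hm : 1 ≤ mm) (hc : 1 ≤ c) (hb : 0 < b) (ha : 0 < a)
    (hK : K = mm * c * (b + 1) / a) (hx : 0 < x) (hA : 0 < A) (hAL : A ≤ L) (hΓ : 1 ≤ Γ)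
    (hLg0 : 0 ≤ Lg) (hLg : Lg ≤ Γ / A) (hδ : 456 * K * (1 + 2 / a) * Γ * x ≤ δ) (hδ1 : δ ≤ 1 / 4) :
    3 * (76 * c * (b + 1) * x * A * L) / (a / 2 * (L / mm)) = 456 * K * x * A ∧
    456 * K * Γ * x ≤ δ ∧ 456 * K * x * A ≤ A / 4 ∧ 0 ≤ δ ∧
    3 * (66 * c * (b + 1) * Γ * x * L) / (a / 2 * (L / mm)) + 456 * K * x * A * Lg / (a / 2) ≤ δ ∧
    3 * (4 * L * Lg + 128 * c * (b + 1) * L / A) / (a / 2 * (L / mm)) + 10 * Lg / (a / 2) ≤
      768 * K * (Lg + 1 / A) ∧
    2 * (6 * (76 * c * (b + 1) * x * A * L) / (a / 2 * (L / mm) ^ 2)) ≤ mm := by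
  have hL : 0 < L := hA.trans_le hAL
  have hK0 : 0 < K := by rw [hK]; positivity
  have e4 : 0 ≤ K * Γ * x := by positivity
  have e5 : 0 ≤ K * (2 / a) * Γ * x := by positivity
  have e6 : K * 1 * x ≤ K * Γ * x := by gcongr
  have h3 : 456 * K * x ≤ 1 / 4 := by linarith
  refine ⟨by rw [hK]; field_simp; ring, by linarith, by nlinarith, by linarith, ?_, ?_, ?_⟩
  · have e1 : 3 * (66 * c * (b + 1) * Γ * x * L) / (a / 2 * (L / mm)) =
      396 * K * Γ * x := by rw [hK]; field_simp; ring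
    have e2 : 456 * K * x * A * Lg / (a / 2) ≤ 456 * K * x * A * (Γ / A) / (a / 2) := by gcongr
    have e3 : 456 * K * x * A * (Γ / A) / (a / 2) = 456 * K * (2 / a) * Γ * x := by field_simp
    linarith
  · have e1 : 3 * (4 * L * Lg + 128 * c * (b + 1) * L / A) / (a / 2 * (L / mm)) + 10 * Lg / (a / 2) =
      (24 * mm + 20) / a * Lg + 768 * K * (1 / A) := by rw [hK]; field_simp; ring
    have e2 : (24 * mm + 20) / a ≤ 768 * K := by
      rw [hK, ← mul_div_assoc]
      have : mm * 1 * 1 ≤ mm * c * (b + 1) := by gcongr; linarith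
      gcongr
      linarith
    have := mul_le_mul_of_nonneg_right e2 hLg0
    linarith
  · have e1 : 2 * (6 * (76 * c * (b + 1) * x * A * L) / (a / 2 * (L / mm) ^ 2)) =
      4 * mm * (456 * K * x) * (A / L) := by rw [hK]; field_simp; ring
    have e2 : A / L ≤ 1 := (div_le_one hL).2 hAL
    rw [e1]
    calc _ ≤ 4 * mm * (1 / 4 : ℝ) * 1 := by gcongr
      _ = _ := by ring

lemma num2 {C K b LJ Lρ A : ℝ} (hK : 0 < K) (hb : 0 < b) (hLJ : 0 ≤ LJ) (hLρ : 0 ≤ Lρ) (hA : 0 < A)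
    (C3 : 2 + 1536 * K * (4 + b) ≤ C) :
    2 * LJ + 2 * (768 * K * (4 * Lρ + b * LJ + 1 / A)) ≤ C * (LJ + Lρ + 1 / A) := by
  have p1 : 0 ≤ 1 / A := by positivity
  have p2 : 0 ≤ K * Lρ := by positivity
  have p3 : 0 ≤ K * LJ := by positivity
  have p4 : 0 ≤ K * (1 / A) := by positivity
  have p5 : 0 ≤ b * (K * Lρ) := by positivity
  have p6 : 0 ≤ b * (K * (1 / A)) := by positivity
  have := mul_le_mul_of_nonneg_right C3 (show 0 ≤ LJ + Lρ + 1 / A by positivity)
  linarith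

lemma num3 {C K b c A N Γ Lg : ℝ} (hK : 0 < K) (hb : 0 < b) (hc : 1 ≤ c) (hA : 0 < A) (hA1 : A ≤ 1)
    (hN : 1 ≤ N) (hΓ : 1 ≤ Γ) (hLg : Lg ≤ Γ / A) (C4 : 8 * b + 8 * c * b ≤ C)
    (C5 : 6 + 6144 * b * K + 64 * c * (b + 1) ≤ C) :
    2 * (N * A) * (4 * b) + (1 + N * A) * (4 * c * b * A) ≤ C * (N * A) ∧
    2 * (N * A) * (3 * Lg + 2 * b * (768 * K * (Lg + 1 / A))) + (1 + N * A) * (32 * c * (b + 1)) ≤
      C * Γ * N := by
  constructor
  · have k1 : 4 * c * b * (1 * A) ≤ 4 * c * b * (N * A) := by gcongr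
    have k2 : N * A * (4 * c * b * A) ≤ N * A * (4 * c * b * 1) := by gcongr
    have k3 := mul_le_mul_of_nonneg_right C4 (show 0 ≤ N * A by positivity)
    linarith
  · have k0 : 2 * (N * A) * (3 * Lg + 2 * b * (768 * K * (Lg + 1 / A))) ≤
      2 * (N * A) * (3 * (Γ / A) + 2 * b * (768 * K * (Γ / A + Γ / A))) := by gcongr
    have k1 : 2 * (N * A) * (3 * (Γ / A) + 2 * b * (768 * K * (Γ / A + Γ / A))) =
      (6 + 6144 * b * K) * (Γ * N) := by field_simp; ring
    have k2 : 1 + N * A ≤ 2 * (Γ * N) := by nlinarith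
    have k3 : (1 + N * A) * (32 * c * (b + 1)) ≤ 2 * (Γ * N) * (32 * c * (b + 1)) := by gcongr
    have k4 := mul_le_mul_of_nonneg_right C5 (show 0 ≤ Γ * N by positivity)
    linarith

theorem step (hm : 0 < m) {a b : ℝ} (ha : 0 < a) (hb : 0 < b) :
    ∃ C : ℝ, 1 ≤ C ∧ ∀ (A η Γ δ lam Λ σ LJ Lρ o : ℝ) (n N : ℕ) (ρ : ℝ → X m)
      (ψ : ℝ → E m → E m) (J : ℝ → E m → ℝ), 0 < A → A ≤ 1 → 0 ≤ o → o ≤ A → 0 < η → η ≤ 1 →
      1 ≤ Γ → 1 ≤ n → 1 ≤ 2 ^ n * (η * A) → 2 ^ n * (η * A) ≤ 2 → 1 ≤ N →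
      2 * ((m + 1) * (18 * Γ / (η * A) + 3) ^ m) ≤ Real.exp (N * (η ^ 2 / 2)) →
      C * Γ * (n * η) ≤ δ → δ ≤ 1 / 4 → 1 ≤ lam → lam ≤ 2 → σ ≤ 1 → 0 ≤ Lρ → 0 ≤ LJ →
      4 * Lρ + b * LJ ≤ Γ / A → LJ ≤ Γ / A → Dens a b Lρ ρ → Good lam Λ σ LJ ψ J →
      ∃ (ψ' : ℝ → E m → E m) (J' : ℝ → E m → ℝ),
        Good (lam / (1 - δ)) (Λ + 1 + m) (σ + A) (C * (LJ + Lρ + 1 / A)) ψ' J' ∧
        (∀ r y, ‖ψ' r y - ψ r y‖ ≤ A) ∧ (∀ r y, |J' r y - J r y| ≤ 4 * δ) ∧
        ∀ s ∈ Icc (0 : ℝ) 1,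
          (∀ y, |∫ r in (0 : ℝ)..s, (ρ r (ψ' r y) * J' r y -
            Bx (cst (tent A o r)) (ρ r) (ψ r y) * J r y)| ≤ C * (N * A)) ∧
          Lip (C * Γ * N) fun y => ∫ r in (0 : ℝ)..s, (ρ r (ψ' r y) * J' r y -
            Bx (cst (tent A o r)) (ρ r) (ψ r y) * J r y) := by
  have hc1 : (1 : ℝ) ≤ 2 ^ m := one_le_pow₀ (by norm_num)
  have hm1 : (1 : ℝ) ≤ m := by exact_mod_cast hm
  obtain ⟨K, hK⟩ : ∃ K : ℝ, K = m * 2 ^ m * (b + 1) / a := ⟨_, rfl⟩
  have hK0 : 0 < K := by rw [hK]; positivity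
  obtain ⟨C, C1, C2, C3, C4, C5⟩ : ∃ C : ℝ, 1 ≤ C ∧ 456 * K * (1 + 2 / a) ≤ C ∧
      2 + 1536 * K * (4 + b) ≤ C ∧ 8 * b + 8 * 2 ^ m * b ≤ C ∧
      6 + 6144 * b * K + 64 * 2 ^ m * (b + 1) ≤ C := by
    have p1 : 0 ≤ 456 * K * (1 + 2 / a) := by positivity
    have p2 : 0 ≤ 1536 * K * (4 + b) := by positivity
    have p3 : 0 ≤ 8 * b + 8 * 2 ^ m * b := by positivity
    have p4 : 0 ≤ 6144 * b * K + 64 * 2 ^ m * (b + 1) := by positivity
    exact ⟨456 * K * (1 + 2 / a) + (2 + 1536 * K * (4 + b)) + (8 * b + 8 * 2 ^ m * b) +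
      (6 + 6144 * b * K + 64 * 2 ^ m * (b + 1)), by linarith, by linarith, by linarith, by linarith,
      by linarith⟩
  refine ⟨C, C1, fun A η Γ δ lam Λ σ LJ Lρ o n N ρ ψ J hA hA1 ho hoA hη hη1 hΓ hn hn1 hn2 hN1 hN
    hδ hδ1 h1 h2 hσ hLρ hLJ hLΓ hLJΓ hρ h => ?_⟩
  have hN1' : (1 : ℝ) ≤ N := by exact_mod_cast hN1
  have hLg0 : 0 ≤ 4 * Lρ + b * LJ := by positivity
  have hL0 : 0 < N * A := by positivity
  have hAL : A ≤ N * A := le_mul_of_one_le_left hA.le hN1'
  have hnη : 0 < n * η := by positivity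
  obtain ⟨hum, hδ2, hum', hδ0, n1, hLj, hvm⟩ := num1 hm1 hc1 hb ha hK hnη hA hAL hΓ hLg0 hLΓ
    (le_trans (by gcongr) hδ) hδ1
  obtain ⟨n2, n3⟩ := num3 hK0 hb hc1 hA hA1 hN1' hΓ hLΓ C4 C5
  have n4 : LJ * (456 * K * (n * η) * A) ≤ δ := by
    calc _ ≤ Γ / A * (456 * K * (n * η) * A) := by gcongr
      _ = 456 * K * Γ * (n * η) := by field_simp
      _ ≤ δ := hδ2
  have n5 : ∀ x : ℝ, x ≤ 2 * (b + 1) * η * (N * A) →
      2 * (N * A * (2 * (4 * Lρ + b * LJ))) + 64 * 2 ^ m * x / (η * A) ≤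
      4 * (N * A) * (4 * Lρ + b * LJ) + 128 * 2 ^ m * (b + 1) * (N * A) / A := fun x hx => by
    calc _ ≤ 2 * (N * A * (2 * (4 * Lρ + b * LJ))) +
          64 * 2 ^ m * (2 * (b + 1) * η * (N * A)) / (η * A) := by gcongr
      _ = _ := by field_simp; ring
  have n6 : ∀ x : ℝ, 0 ≤ x → x ≤ 2 * (b + 1) * η * (N * A) →
      16 * 2 ^ m * x / (2 ^ n * (η * A)) ≤ N * A * (32 * 2 ^ m * (b + 1)) := fun x hx0 hx => by
    calc _ ≤ 16 * 2 ^ m * x := div_le_self (by positivity) hn1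
      _ ≤ 16 * 2 ^ m * (2 * (b + 1) * 1 * (N * A)) := by
          have : x ≤ 2 * (b + 1) * 1 * (N * A) := hx.trans (by gcongr)
          gcongr
      _ = _ := by ring
  have hmL : m * (N * A / m) = N * A := by field_simp
  obtain ⟨Gf, hGf, cGf, bGf, lGf, tGf, sGf⟩ := exists_G h hρ ha h1 h2 hσ hLρ
  have bGf' : ∀ r u y, 0 ≤ Gf r u y ∧ Gf r u y ≤ 2 * b := fun r u y =>
    ⟨(half_pos ha).le.trans (bGf r u y).1, (bGf r u y).2⟩
  obtain ⟨W, D, Kk, d1, d2, d3, d4, d5, d6, d7, d8⟩ :=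
    decomp (m := m) (l := η * A) (mul_pos hη hA) n
  obtain ⟨u, u1, u2, hu⟩ := window cGf o hb bGf' lGf hLg0 tGf sGf hA hA1 hη hη1 hΓ
    hLΓ hn hn2 hN W d4 d5 d8
  have hφ := tent_cont hA o
  have cu : Continuous u := cont_of_lip (K := 1) (by simpa using u2)
  let G0 : ℝ → X m := fun r => ∫ a, Gf r (tent A o r • a) ∂(P m)
  have cG0 : Continuous G0 :=
    continuous_parametric_integral_of_continuous (f := fun r (a : E m) => Gf r (tent A o r • a))
      (cGf.comp (f := fun p : ℝ × E m => (p.1, tent A o p.1 • p.2)) (by fun_prop)) isCompact_Icc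
  have cGa : ∀ r, Continuous fun a : E m => Gf r (tent A o r • a) := fun r =>
    cGf.comp (f := fun a : E m => (r, tent A o r • a)) (by fun_prop)
  have eG0 : ∀ r y, Bx (cst (tent A o r)) (ρ r) (ψ r y) * J r y = G0 r y := fun r y => by
    simp only [G0]
    rw [evalP (cGa r), Bx_apply, ← integral_mul_const]
    congr 1; ext s
    rw [hGf, add_comm]; rfl
  have bG0 : ∀ r y, 0 ≤ G0 r y ∧ G0 r y ≤ 2 * b := fun r y => by
    rw [← eG0]
    have k1 := Bx_mem (cst (tent A o r)) (ρ r) (fun x => ⟨hρ.lo r x, hρ.hi r x⟩) (ψ r y)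
    have k2 := h.J_mem h1 h2 r y
    have k3 : 0 ≤ J r y := le_trans (by norm_num) k2.1
    exact ⟨mul_nonneg (ha.le.trans k1.1) k3, (mul_le_mul k1.2 k2.2 k3 hb.le).trans_eq (mul_comm _ _)⟩
  have lG0 : ∀ r, Lip (4 * Lρ + b * LJ) (G0 r) := fun r => lipP (cGa r) fun a => lGf r _
  have cG1 : Continuous fun r => Gf r (u r) := cGf.comp (f := fun r => (r, u r)) (by fun_prop)
  let Dw : ℤ → X m := fun w =>
    ∫ r in (o + w * (N * A))..(o + (w + 1) * (N * A)), (Gf r (u r) - G0 r)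
  have hD := fun w => hu w (Dw w) rfl
  obtain ⟨cc, j, c1, c2, c3, j1, j2, j3, hp, hint⟩ := correct hm cG1 o (a := a / 2) (s := N * A / m)
    (δ := δ) (W := fun w i => W i (Dw w)) (D := fun w i => D i (Dw w)) (half_pos ha)
    (fun r y => (bGf r _ y).1) hLg0 (fun r => lGf r _) (by positivity)
    (fun w i y => ((W i (Dw w)).norm_coe_le_norm y).trans ((hD w).2.2.1 i)) (by positivity)
    (by positivity) (fun w i => (hD w).2.2.2.1 i)
    (fun w i => (d3 i _ _ (hD w).2.1).mono (n5 _ (hD w).1))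
    (fun w i y => d2 i _ y) (by rw [hum]; exact n1) (hδ1.trans (by norm_num))
  rw [hum] at c1
  rw [hmL] at hint
  have j2' := fun r => (j2 r).mono hLj
  obtain ⟨g1, g2, g3⟩ := h.next h1 h2 hLJ hδ0 hδ1 u1 u2 c1 c2 c3 j1 j2' j3 hp hum' n4
  refine ⟨fun r y => u r + ψ r (cc r y), fun r y => J r (cc r y) * j r y,
    { g1 with
      tm := fun r r' y => (g1.tm r r' y).trans
        (mul_le_mul_of_nonneg_right (add_le_add le_rfl hvm) (abs_nonneg _))
      JL := fun r => (g1.JL r).mono (num2 hK0 hb hLJ hLρ hA C3) }, g2, g3, fun s hs => ?_⟩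
  have ee : ∀ r y, ρ r (u r + ψ r (cc r y)) * (J r (cc r y) * j r y) -
      Bx (cst (tent A o r)) (ρ r) (ψ r y) * J r y = Gf r (u r) (cc r y) * j r y - G0 r y :=
    fun r y => by rw [eG0, hGf, mul_assoc]
  simp only [ee]
  obtain ⟨k1, k2⟩ := est cG1 cG0 hb.le hLg0 (by positivity) hδ0 hδ1 hL0 ho (hoA.trans hAL)
    (R1 := 4 * 2 ^ m * b * A) (R2 := 32 * 2 ^ m * (b + 1)) (by positivity) (by positivity)
    (fun r => bGf' r _) bG0 (fun r => lGf r _) lG0 c2 (fun r y y' => (c3 r y y').1) j1 j2' j3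
    (D := Dw) (Kw := fun w => Kk (Dw w)) (fun w => rfl)
    (fun w y => by
      have k1 := congrArg (fun g : X m => g y) (d1 (Dw w))
      simpa only [BoundedContinuousFunction.coe_add, BoundedContinuousFunction.coe_sum,
        Pi.add_apply, Finset.sum_apply] using k1) hint
    (fun w => (d6 _ _ (hD w).2.2.2.2).trans (div_le_self (by positivity) hn1))
    (fun w => (d7 _).mono (n6 _ (norm_nonneg _) (hD w).1)) hs
  exact ⟨fun y => (k1 y).trans n2, k2.mono n3⟩

end Pool.Agent.MP_20bec2_an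

end MrgPart4

-- ======== part 5: formerly Pool.Agent.MP_20bec2_an.Rho
section MrgPart5

set_option autoImplicit false
open MeasureTheory Set Function Filter Topology
open scoped BoundedContinuousFunction

namespace Pool.Agent.MP_20bec2_an

variable {m : ℕ}

def Md (θ η : ℝ) (g : X m) : Prop := ∀ x x', ‖x - x'‖ ≤ θ → |g x - g x'| ≤ η

lemma Bx_md {θ η : ℝ} {g : X m} (h : Md θ η g) (p : E m) : Md θ η (Bx p g) := fun y y' hy => by
  rw [Bx_apply, Bx_apply, ← integral_sub (bx_int g p y) (bx_int g p y')]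
  exact abs_integral_le fun s _ => h _ _ (by rwa [add_sub_add_right_eq_sub])

lemma Bx_p {θ η : ℝ} (hη : 0 ≤ η) {g : X m} (h : Md θ η g) {p p' : E m} (hp : ‖p - p'‖ ≤ θ) :
    ‖Bx p g - Bx p' g‖ ≤ η := by
  refine (BoundedContinuousFunction.norm_le hη).2 fun y => ?_
  simp only [BoundedContinuousFunction.coe_sub, Pi.sub_apply, Real.norm_eq_abs]
  rw [Bx_apply, Bx_apply, ← integral_sub (bx_int g p y) (bx_int g p' y)]
  refine abs_integral_le fun s hs => h _ _ ?_
  rw [add_sub_add_left_eq_sub, ← sub_mul]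
  exact (norm_mul_cube hs).trans hp

lemma Bx_cont {g : ℝ → X m} (hg : Continuous g) {φ : ℝ → ℝ} (hφ : Continuous φ)
    (hU : ∀ η > 0, ∃ θ > 0, ∀ r, Md θ η (g r)) : Continuous fun r => Bx (cst (φ r)) (g r) := by
  refine continuous_iff_continuousAt.2 fun r₀ => Metric.tendsto_nhds.2 fun ε hε => ?_
  obtain ⟨θ, hθ, hM⟩ := hU (ε / 3) (by positivity)
  filter_upwards [Metric.tendsto_nhds.1 (hg.tendsto r₀) (ε / 3) (by positivity),
    Metric.tendsto_nhds.1 (hφ.tendsto r₀) θ hθ] with r h1 h2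
  rw [dist_eq_norm] at h1 ⊢
  have k1 : ‖Bx (cst (φ r)) (g r) - Bx (cst (φ r)) (g r₀)‖ ≤ ‖g r - g r₀‖ := by
    rw [← map_sub]; exact norm_Bx_le _ _
  have k2 : ‖Bx (cst (φ r)) (g r₀) - Bx (cst (φ r₀)) (g r₀)‖ ≤ ε / 3 :=
    Bx_p (by positivity) (hM r₀) ((pi_norm_le_iff_of_nonneg hθ.le).2 fun j => h2.le)
  linarith [norm_sub_le_norm_sub_add_norm_sub (Bx (cst (φ r)) (g r)) (Bx (cst (φ r)) (g r₀))
    (Bx (cst (φ r₀)) (g r₀))]

noncomputable def Rn (φ : ℕ → ℝ → ℝ) (ρ : ℝ → X m) : ℕ → ℕ → ℝ → X m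
  | 0, _, r => ρ r
  | n + 1, k, r => Bx (cst (φ k r)) (Rn φ ρ n (k + 1) r)

theorem exists_R {ρ : ℝ → X m} (hc : Continuous ρ) (hU : ∀ η > 0, ∃ θ > 0, ∀ r, Md θ η (ρ r))
    {a b : ℝ} (hab : ∀ r x, a ≤ ρ r x ∧ ρ r x ≤ b) (hout : ∀ r x, 2 ≤ ‖x‖ → ρ r x = a)
    {φ : ℕ → ℝ → ℝ} {A : ℕ → ℝ} (hφ : ∀ k, Continuous (φ k)) (hφ0 : ∀ k r, 0 ≤ φ k r)
    (hφ1 : ∀ k r, φ k r ≤ A k - A (k + 1)) (hA0 : ∀ k, 0 ≤ A k) (hA1 : ∀ k, A k ≤ 1)
    (hA : Tendsto A atTop (𝓝 0)) :
    ∃ R : ℕ → ℝ → X m, (∀ k r, R k r = Bx (cst (φ k r)) (R (k + 1) r)) ∧ (∀ k, Continuous (R k)) ∧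
      (∀ k r x, a ≤ R k r x ∧ R k r x ≤ b) ∧ (∀ k r x, 3 ≤ ‖x‖ → R k r x = a) ∧
      ∀ η > 0, ∀ᶠ k in atTop, ∀ r x, |R k r x - ρ r x| ≤ η := by
  have close : ∀ (r : ℝ) (c η : ℝ) (n k : ℕ) (x : E m),
      (∀ z, ‖z‖ ≤ A k → |ρ r (x + z) - c| ≤ η) → |Rn φ ρ n k r x - c| ≤ η := by
    intro r c η n
    induction n with
    | zero => intro k x h; simpa [Rn] using h 0 (by simpa using hA0 k)
    | succ n ih =>
      intro k x h
      refine Bx_sub_le _ _ _ fun z hz => ih (k + 1) (x + z) fun z' hz' => ?_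
      rw [add_assoc]
      refine h _ ((norm_add_le _ _).trans ?_)
      linarith [hz.trans (norm_cst_le (hφ0 k r)), hφ1 k r]
  have cau : ∀ {θ η : ℝ}, 0 ≤ η → (∀ r, Md θ η (ρ r)) → ∀ r n' n k, A (k + n) ≤ θ →
      ‖Rn φ ρ (n' + n) k r - Rn φ ρ n k r‖ ≤ η := by
    intro θ η hη hM r n' n
    induction n with
    | zero =>
      intro k hk
      exact (BoundedContinuousFunction.norm_le hη).2 fun x =>
        close r _ η _ k x fun z hz => hM r _ _ (by simpa using hz.trans hk)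
    | succ n ih =>
      intro k hk
      change ‖Bx (cst (φ k r)) (Rn φ ρ (n' + n) (k + 1) r) - Bx (cst (φ k r)) (Rn φ ρ n (k + 1) r)‖ ≤ η
      rw [← map_sub]
      exact (norm_Bx_le _ _).trans (ih (k + 1) (by rwa [add_assoc, add_comm 1 n]))
  have md : ∀ {θ η : ℝ}, (∀ r, Md θ η (ρ r)) → ∀ n k r, Md θ η (Rn φ ρ n k r) := by
    intro θ η hM n
    induction n with
    | zero => exact fun k r => hM r
    | succ n ih => exact fun k r => Bx_md (ih _ r) _
  have cont : ∀ n k, Continuous (Rn φ ρ n k) := by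
    intro n
    induction n with
    | zero => exact fun k => hc
    | succ n ih =>
      exact fun k => Bx_cont (ih (k + 1)) (hφ k) fun η hη =>
        (hU η hη).imp fun θ h => ⟨h.1, md h.2 n _⟩
  have ev : ∀ k, ∀ η > 0, ∀ᶠ n in atTop, ∀ r n', ‖Rn φ ρ (n' + n) k r - Rn φ ρ n k r‖ ≤ η := by
    intro k η hη
    obtain ⟨θ, hθ, hM⟩ := hU η hη
    have := ((hA.comp (tendsto_add_atTop_nat k)).eventually (ge_mem_nhds hθ))
    filter_upwards [this] with n hn r n'
    exact cau hη.le hM r n' n k (by rwa [add_comm])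
  have cs : ∀ k r, ∃ g, Tendsto (fun n => Rn φ ρ n k r) atTop (𝓝 g) := fun k r => by
    refine cauchySeq_tendsto_of_complete (Metric.cauchySeq_iff'.2 fun ε hε => ?_)
    obtain ⟨n, hn⟩ := (ev k (ε / 2) (by positivity)).exists
    refine ⟨n, fun n₁ h₁ => ?_⟩
    obtain ⟨n', rfl⟩ := Nat.exists_eq_add_of_le' h₁
    rw [dist_eq_norm]
    linarith [hn r n']
  choose R hR using cs
  have pt : ∀ k r x, Tendsto (fun n => Rn φ ρ n k r x) atTop (𝓝 (R k r x)) := fun k r x =>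
    ((BoundedContinuousFunction.evalCLM ℝ x).continuous.tendsto _).comp (hR k r)
  have close' : ∀ (r : ℝ) (c η : ℝ) (k : ℕ) (x : E m),
      (∀ z, ‖z‖ ≤ A k → |ρ r (x + z) - c| ≤ η) → |R k r x - c| ≤ η := fun r c η k x h =>
    le_of_tendsto' ((pt k r x).sub_const c).abs fun n => close r c η n k x h
  refine ⟨R, fun k r => ?_, fun k => ?_, fun k r x => ?_, fun k r x hx => ?_, fun η hη => ?_⟩
  · exact tendsto_nhds_unique ((hR k r).comp (tendsto_add_atTop_nat 1))
      (((Bx (cst (φ k r))).continuous.tendsto _).comp (hR (k + 1) r))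
  · refine TendstoUniformly.continuous (F := fun n => Rn φ ρ n k) (p := atTop)
      (Metric.tendstoUniformly_iff.2 fun ε hε => ?_) (Frequently.of_forall fun n => cont n k)
    filter_upwards [ev k (ε / 2) (by positivity)] with n hn r
    have : ‖R k r - Rn φ ρ n k r‖ ≤ ε / 2 :=
      le_of_tendsto' (((hR k r).comp (tendsto_add_atTop_nat n)).sub_const _).norm fun n' => hn r n'
    rw [dist_eq_norm]; linarith
  · have := close' r ((a + b) / 2) ((b - a) / 2) k x fun z _ => by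
      rw [abs_le]; constructor <;> linarith [(hab r (x + z)).1, (hab r (x + z)).2]
    rw [abs_le] at this
    constructor <;> linarith [this.1, this.2]
  · have := close' r a 0 k x fun z hz => by
      have h2 : ‖x‖ ≤ ‖x + z‖ + ‖z‖ := by simpa using norm_sub_le (x + z) z
      rw [hout r _ (by linarith [hA1 k])]; simp
    exact sub_eq_zero.1 (abs_nonpos_iff.1 this)
  · obtain ⟨θ, hθ, hM⟩ := hU η hη
    filter_upwards [hA.eventually (ge_mem_nhds hθ)] with k hk r x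
    exact close' r _ η k x fun z hz => hM r _ _ (by simpa using hz.trans hk)

end Pool.Agent.MP_20bec2_an

end MrgPart5

-- ======== part 6: formerly Pool.Agent.MP_20bec2_an.Params
section MrgPart6

set_option autoImplicit false
open MeasureTheory Set Function Filter Topology
open scoped BoundedContinuousFunction CompactlySupported

namespace Pool.Agent.MP_20bec2_an

variable {m : ℕ}

lemma push_iff {ψ : E m → E m} {J : E m → ℝ} (hψ : Continuous ψ) (hJ : Continuous J) :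
    Push ψ J ↔ (volume.withDensity fun y => ENNReal.ofReal (J y)).map ψ = volume := by
  have key : ∀ φ : E m → ENNReal, Measurable φ →
      ∫⁻ x, φ x ∂((volume.withDensity fun y => ENNReal.ofReal (J y)).map ψ) =
      ∫⁻ y, φ (ψ y) * ENNReal.ofReal (J y) := fun φ hφ => by
    rw [lintegral_map hφ hψ.measurable, lintegral_withDensity_eq_lintegral_mul _ (by fun_prop)
      (g := fun y => φ (ψ y)) (hφ.comp hψ.measurable)]
    simp [mul_comm]
  refine ⟨fun h => Measure.ext fun s hs => ?_, fun h φ hφ => by rw [← key φ hφ, h]⟩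
  rw [← lintegral_indicator_one hs, ← lintegral_indicator_one hs,
    key _ (measurable_one.indicator hs), h _ (measurable_one.indicator hs)]

lemma int_push {ψ : E m → E m} {J : E m → ℝ} (hψ : Continuous ψ) (hJ : Continuous J)
    (hJ0 : ∀ y, 0 ≤ J y) {f : E m → ℝ} (hf : Continuous f) :
    ∫ x, f x ∂((volume.withDensity fun y => ENNReal.ofReal (J y)).map ψ) =
      ∫ y, J y * f (ψ y) := by
  rw [integral_map hψ.aemeasurable hf.aestronglyMeasurable,
    integral_withDensity_eq_integral_toReal_smul (by fun_prop) (by simp)]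
  simp [hJ0]

lemma push_lim {ψ : ℕ → E m → E m} {J : ℕ → E m → ℝ} {ψ' : E m → E m} {J' : E m → ℝ}
    (hψ : ∀ k, Continuous (ψ k)) (hJ : ∀ k, Continuous (J k)) (hψ' : Continuous ψ')
    (hJ' : Continuous J') (hn : ∀ k y, ‖ψ k y - y‖ ≤ 1) (hb : ∀ k y, 0 ≤ J k y ∧ J k y ≤ 2)
    (hp : ∀ k, Push (ψ k) (J k)) (t1 : ∀ y, Tendsto (fun k => ψ k y) atTop (𝓝 (ψ' y)))
    (t2 : ∀ y, Tendsto (fun k => J k y) atTop (𝓝 (J' y))) : Push ψ' J' := by
  have hn' : ∀ y, ‖ψ' y - y‖ ≤ 1 := fun y => le_of_tendsto' ((t1 y).sub_const y).norm fun k => hn k y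
  have hb' : ∀ y, 0 ≤ J' y ∧ J' y ≤ 2 := fun y =>
    ⟨ge_of_tendsto' (t2 y) fun k => (hb k y).1, le_of_tendsto' (t2 y) fun k => (hb k y).2⟩
  have tri : ∀ x y : E m, ‖x - y‖ ≤ 1 → ‖y‖ ≤ ‖x‖ + 1 := fun x y h => by
    have := norm_sub_le x (x - y)
    rw [sub_sub_cancel] at this
    linarith
  rw [push_iff hψ' hJ']
  have : IsFiniteMeasureOnCompacts ((volume.withDensity fun y => ENNReal.ofReal (J' y)).map ψ') := by
    refine ⟨fun K hK => ?_⟩
    obtain ⟨R, hR⟩ := hK.isBounded.exists_norm_le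
    rw [Measure.map_apply hψ'.measurable hK.measurableSet]
    refine (measure_mono (t := Metric.closedBall 0 (R + 1)) fun y hy => ?_).trans_lt ?_
    · rw [mem_closedBall_zero_iff]
      linarith [tri _ _ (hn' y), hR _ hy]
    · rw [withDensity_apply _ Metric.isClosed_closedBall.measurableSet]
      refine (setLIntegral_mono (g := fun _ => 2) measurable_const fun y _ => ?_).trans_lt ?_
      · simpa using ENNReal.ofReal_le_ofReal (hb' y).2
      · rw [setLIntegral_const]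
        exact ENNReal.mul_lt_top (by simp) (isCompact_closedBall _ _).measure_lt_top
  refine Measure.ext_of_integral_eq_on_compactlySupported fun f => ?_
  have cf : Continuous f := f.continuous
  rw [int_push hψ' hJ' (fun y => (hb' y).1) cf]
  obtain ⟨R, hR⟩ := f.hasCompactSupport.isBounded.exists_norm_le
  obtain ⟨B, hB⟩ := cf.bounded_above_of_compact_support f.hasCompactSupport
  have e : ∀ k, ∫ y, J k y * f (ψ k y) = ∫ x, f x := fun k => by
    rw [← int_push (hψ k) (hJ k) (fun y => (hb k y).1) cf, (push_iff (hψ k) (hJ k)).1 (hp k)]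
  have t := tendsto_integral_of_dominated_convergence (μ := volume)
    (F := fun k y => J k y * f (ψ k y)) (f := fun y => J' y * f (ψ' y))
    ((Metric.closedBall (0 : E m) (R + 1)).indicator fun _ => 2 * B)
    (fun k => by
      have := hψ k; have := hJ k
      exact (by fun_prop : Continuous _).aestronglyMeasurable)
    ((integrable_indicator_iff Metric.isClosed_closedBall.measurableSet).2
      (integrableOn_const (isCompact_closedBall _ _).measure_lt_top.ne))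
    (fun k => Eventually.of_forall fun y => by
      by_cases hy : y ∈ Metric.closedBall (0 : E m) (R + 1)
      · rw [indicator_of_mem hy, norm_mul, Real.norm_of_nonneg (hb k y).1]
        exact mul_le_mul (hb k y).2 (hB _) (norm_nonneg _) (by norm_num)
      · rw [indicator_of_notMem hy]
        have : f (ψ k y) = 0 := by
          by_contra h0
          have := hR _ (subset_tsupport _ h0)
          rw [mem_closedBall_zero_iff] at hy
          linarith [tri _ _ (hn k y)]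
        simp [this])
    (Eventually.of_forall fun y => (t2 y).mul ((cf.tendsto _).comp (t1 y)))
  simp only [e] at t
  exact (tendsto_nhds_unique t tendsto_const_nhds)

theorem params (m : ℕ) {C Γ Q p : ℝ} (hC : 1 ≤ C) (hΓ : 1 ≤ Γ) (hQ : 4 ≤ Q) (hp : 5 < p) :
    ∃ (k₀ : ℕ) (C' : ℝ) (η δ : ℕ → ℝ) (n N : ℕ → ℕ), 1 ≤ k₀ ∧ 0 ≤ C' ∧ Summable δ ∧
      (∀ k, ∑ j ∈ Finset.range k, δ j ≤ 1 / 4) ∧ ∀ k, 0 < η k ∧ η k ≤ 1 ∧ 1 ≤ n k ∧
        1 ≤ 2 ^ n k * (η k * (Q ^ (k + k₀))⁻¹) ∧ 2 ^ n k * (η k * (Q ^ (k + k₀))⁻¹) ≤ 2 ∧ 1 ≤ N k ∧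
        2 * ((m + 1) * (18 * Γ / (η k * (Q ^ (k + k₀))⁻¹) + 3) ^ m) ≤
          Real.exp (N k * (η k ^ 2 / 2)) ∧ C * Γ * (n k * η k) ≤ δ k ∧
        N k ≤ C' * ((k : ℝ) + 1) ^ p ∧ N k * (Q ^ (k + k₀))⁻¹ ≤ C' / 2 ^ k := by
  obtain ⟨ε, hε, hε1, hεp⟩ : ∃ ε : ℝ, 0 < ε ∧ ε ≤ 1 ∧ 5 + 2 * ε ≤ p :=
    ⟨min 1 ((p - 5) / 2), lt_min one_pos (by linarith), min_le_left _ _, by
      linarith [min_le_right 1 ((p - 5) / 2)]⟩
  have hQ0 : 0 < Q := by linarith
  obtain ⟨c₁, hc₁⟩ : ∃ c₁ : ℕ, 8 * Q ≤ 2 ^ c₁ := (pow_unbounded_of_one_lt _ one_lt_two).imp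
    fun _ h => h.le
  obtain ⟨B, hB, hB1⟩ : ∃ B : ℝ, B = 2 * (m + 1) * (21 * Γ) ^ m * (8 * Q) ^ m ∧ 1 < B := by
    refine ⟨_, rfl, ?_⟩
    have h1 : (1 : ℝ) ≤ (21 * Γ) ^ m := one_le_pow₀ (by linarith)
    have h2 : (1 : ℝ) ≤ (8 * Q) ^ m := one_le_pow₀ (by linarith)
    have h3 : (0 : ℝ) ≤ m := Nat.cast_nonneg m
    calc (1 : ℝ) < 2 * (0 + 1) * 1 * 1 := by norm_num
      _ ≤ _ := by gcongr
  have hc₂ : 0 < Real.log B := Real.log_pos hB1
  let d : ℕ → ℝ := fun K => C * Γ * (c₁ + 1) * (K : ℝ) ^ (-(1 + ε))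
  have hd : Summable d := (Real.summable_nat_rpow.2 (by linarith)).mul_left _
  have hd0 : ∀ K, 0 ≤ d K := fun K => by positivity
  obtain ⟨k₀, hk₀, hk₁⟩ := (((tendsto_sum_nat_add d).eventually
    (ge_mem_nhds (by norm_num : (0 : ℝ) < 1 / 4))).and (eventually_ge_atTop 1)).exists
  obtain ⟨B', hB'⟩ := (tendsto_pow_const_div_const_pow_of_one_lt 7 one_lt_two).bddAbove_range
  have hB'' : ∀ K : ℕ, (K : ℝ) ^ 7 / 2 ^ K ≤ B' := fun K => hB' ⟨K, rfl⟩
  have hB0 : 0 ≤ B' := le_trans (by positivity) (hB'' 0)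
  have key : ∀ K : ℕ, 1 ≤ K → ∃ (η : ℝ) (n N : ℕ), 0 < η ∧ η ≤ 1 ∧ 1 ≤ n ∧
      1 ≤ 2 ^ n * (η * (Q ^ K)⁻¹) ∧ 2 ^ n * (η * (Q ^ K)⁻¹) ≤ 2 ∧ 1 ≤ N ∧
      2 * ((m + 1) * (18 * Γ / (η * (Q ^ K)⁻¹) + 3) ^ m) ≤ Real.exp (N * (η ^ 2 / 2)) ∧
      C * Γ * (n * η) ≤ d K ∧ N ≤ (2 * Real.log B + 1) * (K : ℝ) ^ (5 + 2 * ε) := by
    intro K hK
    have hK1 : (1 : ℝ) ≤ K := by exact_mod_cast hK
    have hK0 : (0 : ℝ) < K := by linarith
    obtain ⟨η, hη⟩ : ∃ η : ℝ, η = (K : ℝ) ^ (-(2 + ε)) := ⟨_, rfl⟩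
    have hη0 : 0 < η := by rw [hη]; positivity
    have hη1 : η ≤ 1 := by rw [hη]; exact Real.rpow_le_one_of_one_le_of_nonpos hK1 (by linarith)
    have hQK : 1 ≤ Q ^ K := one_le_pow₀ (by linarith)
    obtain ⟨x, hx⟩ : ∃ x : ℝ, x = (η * (Q ^ K)⁻¹)⁻¹ := ⟨_, rfl⟩
    have hx0 : 0 < η * (Q ^ K)⁻¹ := by positivity
    have hx1 : 1 ≤ x := by
      rw [hx, one_le_inv₀ hx0]
      exact mul_le_one₀ hη1 (by positivity) (inv_le_one_of_one_le₀ hQK)
    have hx2 : x ≤ (8 * Q) ^ K := by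
      have h1 : η⁻¹ ≤ (K : ℝ) ^ 3 := by
        rw [hη, Real.rpow_neg hK0.le, inv_inv, ← Real.rpow_natCast]
        exact Real.rpow_le_rpow_of_exponent_le hK1 (by push_cast; linarith)
      have h2 : (K : ℝ) ≤ 2 ^ K := by exact_mod_cast (Nat.lt_two_pow_self).le
      have h3 : (K : ℝ) ^ 3 ≤ 8 ^ K := by
        calc (K : ℝ) ^ 3 ≤ (2 ^ K) ^ 3 := by gcongr
          _ = 8 ^ K := by rw [← pow_mul, mul_comm, pow_mul]; norm_num
      rw [hx, mul_inv, inv_inv, mul_pow]
      gcongr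
      exact h1.trans h3
    obtain ⟨n', h1, h2⟩ := exists_nat_pow_near hx1 one_lt_two
    have hn' : n' ≤ c₁ * K := by
      have : (2 : ℝ) ^ n' ≤ 2 ^ (c₁ * K) := by
        rw [pow_mul]
        exact (h1.trans hx2).trans (by gcongr)
      exact (pow_le_pow_iff_right₀ one_lt_two).1 this
    have hNpos : 0 < 2 * Real.log B * K / η ^ 2 := by positivity
    refine ⟨η, n' + 1, ⌈2 * Real.log B * K / η ^ 2⌉₊, hη0, hη1, by omega, ?_, ?_,
      Nat.ceil_pos.2 hNpos, ?_, ?_, ?_⟩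
    · rw [hx, inv_eq_one_div, div_lt_iff₀ hx0] at h2; exact h2.le
    · rw [hx, inv_eq_one_div, le_div_iff₀ hx0] at h1; rw [pow_succ]; linarith
    · rw [div_eq_mul_inv (18 * Γ), ← hx]
      have h3 : 18 * Γ * x + 3 ≤ 21 * Γ * (8 * Q) ^ K := by nlinarith
      have h4 : (1 : ℝ) ≤ 2 * (m + 1) * (21 * Γ) ^ m := by
        have h1 : (1 : ℝ) ≤ (21 * Γ) ^ m := one_le_pow₀ (by linarith)
        have h3 : (0 : ℝ) ≤ m := Nat.cast_nonneg m
        nlinarith
      calc _ ≤ 2 * ((m + 1) * (21 * Γ * (8 * Q) ^ K) ^ m) := by gcongr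
        _ = (2 * (m + 1) * (21 * Γ) ^ m) ^ 1 * ((8 * Q) ^ m) ^ K := by
            rw [mul_pow (21 * Γ), ← pow_mul, ← pow_mul, mul_comm K m]; ring
        _ ≤ (2 * (m + 1) * (21 * Γ) ^ m) ^ K * ((8 * Q) ^ m) ^ K := by gcongr
        _ = Real.exp (K * Real.log B) := by
            rw [← mul_pow, ← hB, Real.exp_nat_mul, Real.exp_log (by linarith)]
        _ ≤ _ := by
            refine Real.exp_le_exp.2 ?_
            calc K * Real.log B = 2 * Real.log B * K / η ^ 2 * (η ^ 2 / 2) := by field_simp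
              _ ≤ _ := by gcongr; exact Nat.le_ceil _
    · have h3 : ((n' + 1 : ℕ) : ℝ) ≤ (c₁ + 1) * K := by
        have : n' + 1 ≤ (c₁ + 1) * K := by nlinarith
        exact_mod_cast this
      have h4 : K * η = (K : ℝ) ^ (-(1 + ε)) := by
        rw [hη, show -(1 + ε) = 1 + -(2 + ε) by ring, Real.rpow_add hK0, Real.rpow_one]
      calc _ ≤ C * Γ * ((c₁ + 1) * K * η) := by gcongr
        _ = _ := by simp only [d]; rw [← h4]; ring
    · have h3 : K / η ^ 2 = (K : ℝ) ^ (5 + 2 * ε) := by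
        rw [hη, ← Real.rpow_natCast, ← Real.rpow_mul hK0.le, div_eq_mul_inv, ← Real.rpow_neg hK0.le,
          show 5 + 2 * ε = 1 + -(-(2 + ε) * (2 : ℕ)) by push_cast; ring, Real.rpow_add hK0,
          Real.rpow_one]
      have h4 : (1 : ℝ) ≤ (K : ℝ) ^ (5 + 2 * ε) := Real.one_le_rpow hK1 (by linarith)
      have h5 := (Nat.ceil_lt_add_one hNpos.le).le
      rw [mul_div_assoc, h3] at h5
      rw [mul_div_assoc, h3]
      linarith
  choose η n N h using fun k => key (k + k₀) (by omega)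
  refine ⟨k₀, (2 * Real.log B + 1) * ((k₀ : ℝ) ^ p + B'), η, fun k => d (k + k₀), n, N, hk₁,
    by positivity, (summable_nat_add_iff k₀).2 hd, fun k => le_trans ?_ hk₀, fun k => ?_⟩
  · exact ((summable_nat_add_iff k₀).2 hd).sum_le_tsum _ fun j _ => hd0 _
  obtain ⟨h1, h2, h3, h4, h5, h6, h7, h8, h9⟩ := h k
  have hk1 : (1 : ℝ) ≤ k₀ := by exact_mod_cast hk₁
  have hK1 : (1 : ℝ) ≤ ((k + k₀ : ℕ) : ℝ) := by exact_mod_cast (by omega : 1 ≤ k + k₀)
  refine ⟨h1, h2, h3, h4, h5, h6, h7, h8, h9.trans ?_, ?_⟩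
  · rw [mul_assoc]
    gcongr
    have h0 : (0 : ℝ) ≤ k := Nat.cast_nonneg k
    calc _ ≤ ((k + k₀ : ℕ) : ℝ) ^ p := Real.rpow_le_rpow_of_exponent_le hK1 hεp
      _ ≤ ((k₀ : ℝ) * (k + 1)) ^ p :=
          Real.rpow_le_rpow (by positivity) (by push_cast; nlinarith) (by linarith)
      _ = (k₀ : ℝ) ^ p * (k + 1) ^ p := Real.mul_rpow (by positivity) (by positivity)
      _ ≤ _ := by gcongr; linarith
  · have a1 : ((k + k₀ : ℕ) : ℝ) ^ (5 + 2 * ε) ≤ ((k + k₀ : ℕ) : ℝ) ^ 7 := by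
      rw [← Real.rpow_natCast _ 7]
      exact Real.rpow_le_rpow_of_exponent_le hK1 (by push_cast; linarith)
    have a2 : (2 : ℝ) ^ (k + k₀) * 2 ^ k ≤ Q ^ (k + k₀) := by
      calc (2 : ℝ) ^ (k + k₀) * 2 ^ k ≤ 2 ^ (k + k₀) * 2 ^ (k + k₀) := by
            gcongr <;> norm_num
        _ = 4 ^ (k + k₀) := by rw [← mul_pow]; norm_num
        _ ≤ _ := by gcongr
    calc _ ≤ (2 * Real.log B + 1) * ((k + k₀ : ℕ) : ℝ) ^ 7 * (2 ^ (k + k₀) * 2 ^ k)⁻¹ := by
          gcongr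
          exact h9.trans (by gcongr)
      _ = (2 * Real.log B + 1) * (((k + k₀ : ℕ) : ℝ) ^ 7 / 2 ^ (k + k₀)) / 2 ^ k := by field_simp
      _ ≤ _ := by
          gcongr
          exact (hB'' _).trans (le_add_of_nonneg_left (by positivity))

end Pool.Agent.MP_20bec2_an

end MrgPart6

-- ======== part 7: formerly Pool.Agent.MP_20bec2_an.Limit
section MrgPart7

set_option autoImplicit false
open MeasureTheory Set Function Filter Topology
open scoped BoundedContinuousFunction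

namespace Pool.Agent.MP_20bec2_an

variable {m : ℕ}

lemma pos_of_mul_pos_of_pos_left' {x y : ℝ} (h : 0 < x * y) (hx : 0 < x) : 0 ≤ y :=
  ((mul_pos_iff_of_pos_left hx).1 h).le

lemma Good.mono {lam Λ σ LJ lam' σ' LJ' : ℝ} {ψ : ℝ → E m → E m} {J : ℝ → E m → ℝ}
    (h : Good lam Λ σ LJ ψ J) (h0 : 0 < lam) (h1 : lam ≤ lam') (h2 : σ ≤ σ') (h3 : LJ ≤ LJ') :
    Good lam' Λ σ' LJ' ψ J where
  up r y y' := (h.up r y y').trans (by gcongr)
  lo r y y' := (h.lo r y y').trans (by gcongr)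
  tm := h.tm
  nr r y := (h.nr r y).trans h2
  Jlo r y := (h.Jlo r y).trans (mul_le_mul_of_nonneg_right h1
    (pos_of_mul_pos_of_pos_left' (zero_lt_one.trans_le (h.Jlo r y)) h0))
  Jup r y := (h.Jup r y).trans h1
  JL r := (h.JL r).mono h3
  Jt := h.Jt
  push := h.push

lemma joint_cont {V : Type*} [NormedAddCommGroup V] {f : ℝ → E m → V} {K L : ℝ}
    (h1 : ∀ r r' y, ‖f r y - f r' y‖ ≤ K * |r - r'|)
    (h2 : ∀ r y y', ‖f r y - f r y'‖ ≤ L * ‖y - y'‖) : Continuous (uncurry f) := by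
  refine (unifCont_of_lip (K := |K| + |L|) fun p q => ?_).continuous
  have k1 := (h1 p.1 q.1 p.2).trans (mul_le_mul (le_abs_self K) (norm_fst_le (p - q))
    (abs_nonneg _) (abs_nonneg _))
  have k2 := (h2 q.1 p.2 q.2).trans (mul_le_mul (le_abs_self L) (norm_snd_le (p - q))
    (norm_nonneg _) (abs_nonneg _))
  have k3 := norm_sub_le_norm_sub_add_norm_sub (f p.1 p.2) (f q.1 p.2) (f q.1 q.2)
  simp only [uncurry]
  linarith

theorem iterate (hm : 0 < m) {a b p : ℝ} (ha : 0 < a) (hb : 0 < b) (hp : 5 < p) {ρ : ℝ → X m}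
    (hc : Continuous ρ) (hU : ∀ η > 0, ∃ θ > 0, ∀ r, Md θ η (ρ r))
    (hab : ∀ r x, a ≤ ρ r x ∧ ρ r x ≤ b) (hout : ∀ r x, 2 ≤ ‖x‖ → ρ r x = a) :
    ∃ (R : ℕ → ℝ → X m) (ψ : ℕ → ℝ → E m → E m) (J : ℕ → ℝ → E m → ℝ) (δ LJ : ℕ → ℝ) (C : ℝ),
      0 ≤ C ∧ Summable δ ∧ (∀ k, Continuous (R k)) ∧ (∀ k r x, a ≤ R k r x ∧ R k r x ≤ b) ∧
      (∀ η > 0, ∀ᶠ k in atTop, ∀ r x, |R k r x - ρ r x| ≤ η) ∧
      (∀ r, Lip C fun y => R 0 r (ψ 0 r y) * J 0 r y) ∧
      (∀ k : ℕ, Good 2 (k * (1 + m)) 1 (LJ k) (ψ k) (J k)) ∧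
      (∀ k r y, ‖ψ (k + 1) r y - ψ k r y‖ ≤ 2 / 2 / 2 ^ k) ∧
      (∀ k r y, |J (k + 1) r y - J k r y| ≤ δ k) ∧
      ∀ k, ∀ s ∈ Icc (0 : ℝ) 1,
        (∀ y, |∫ r in (0 : ℝ)..s, (R (k + 1) r (ψ (k + 1) r y) * J (k + 1) r y -
          R k r (ψ k r y) * J k r y)| ≤ C / 2 / 2 ^ k) ∧
        Lip (C * ((k : ℝ) + 1) ^ p) fun y => ∫ r in (0 : ℝ)..s,
          (R (k + 1) r (ψ (k + 1) r y) * J (k + 1) r y - R k r (ψ k r y) * J k r y) := by
  obtain ⟨C, C1, hstep⟩ := step hm ha hb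
  obtain ⟨q, hq⟩ : ∃ q : ℕ, 2 * C + 4 ≤ 3 * q + 2 :=
    (exists_nat_ge (2 * C + 4)).imp fun q h => by linarith [Nat.cast_nonneg (α := ℝ) q]
  obtain ⟨Q, hQ⟩ : ∃ Q : ℝ, Q = 3 * q + 2 := ⟨_, rfl⟩
  rw [← hQ] at hq
  have hQ4 : 4 ≤ Q := by linarith
  have hQ0 : 0 < Q := by linarith
  obtain ⟨Cρ, hCρ⟩ : ∃ Cρ : ℝ, Cρ = 96 * 2 ^ m * b * Q ^ 2 := ⟨_, rfl⟩
  have hCρ0 : 0 ≤ Cρ := by rw [hCρ]; positivity
  obtain ⟨Γ, hΓ⟩ : ∃ Γ : ℝ, Γ = 4 * Cρ + (b + 1) * (Cρ + 1) := ⟨_, rfl⟩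
  have hΓ1 : Cρ + 1 ≤ Γ := by rw [hΓ]; nlinarith
  have hΓ2 : 4 * Cρ + b * (Cρ + 1) ≤ Γ := by rw [hΓ]; nlinarith
  obtain ⟨k₀, C', η, δ, n, N, hk₀, hC', hδs, hδ, hpar⟩ := params m C1 (Γ := Γ) (by linarith) hQ4 hp
  obtain ⟨A, hA⟩ : ∃ A : ℕ → ℝ, ∀ k, A k = (Q ^ (k + k₀))⁻¹ := ⟨_, fun _ => rfl⟩
  simp only [← hA] at hpar
  have hA0 : ∀ k, 0 < A k := fun k => by rw [hA]; positivity
  have hAQ : ∀ k, A k = Q * A (k + 1) := fun k => by
    rw [hA, hA, add_right_comm, pow_succ]; field_simp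
  have hA2 : ∀ k, 2 * A (k + 1) ≤ A k := fun k => by
    rw [hAQ k]; exact mul_le_mul_of_nonneg_right (by linarith) (hA0 _).le
  have hAk : ∀ k, A k ≤ 1 / 2 / 2 ^ k := fun k => by
    induction k with
    | zero =>
      rw [hA, zero_add, pow_zero, div_one, one_div]
      exact inv_anti₀ two_pos ((by linarith : 2 ≤ Q).trans (le_self_pow₀ (by linarith) (by omega)))
    | succ k ih => rw [pow_succ, ← div_div]; linarith [hA2 k]
  have hA1 : ∀ k, A k ≤ 1 / 2 := fun k =>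
    (hAk k).trans (div_le_self (by norm_num) (one_le_pow₀ (by norm_num)))
  have hAt : Tendsto A atTop (𝓝 0) := squeeze_zero (fun k => (hA0 k).le) hAk
    (tendsto_const_nhds.div_atTop (tendsto_pow_atTop_atTop_of_one_lt one_lt_two))
  obtain ⟨R, R1, R2, R3, R4, R5⟩ := exists_R hc hU hab hout
    (φ := fun k => tent (A k) (A k / 3)) (A := A) (fun k => tent_cont (hA0 k) _)
    (fun k => tent_nonneg (hA0 k) _) (fun k r => by linarith [tent_le (h := A k) (A k / 3) r, hA2 k])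
    (fun k => (hA0 k).le) (fun k => by linarith [hA1 k]) hAt
  have nR : ∀ k r, ‖R k r‖ ≤ b := fun k r =>
    (BoundedContinuousFunction.norm_le hb.le).2 fun x => by
      rw [Real.norm_of_nonneg (ha.le.trans (R3 k r x).1)]; exact (R3 k r x).2
  have lR0 : ∀ k r {l : ℝ}, 0 < l → l ≤ tent (A k) (A k / 3) r → Lip (16 * 2 ^ m * b / l) (R k r) :=
    fun k r l hl h => by
    rw [R1]
    refine (Box_lip (hl.trans_le h) _).mono ?_
    have := nR (k + 1) r
    gcongr
  have lR : ∀ k r, Lip (16 * 2 ^ m * b / (A (k + 1) / 6)) (R k r) := fun k r => by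
    have hl : 0 < A (k + 1) / 6 := by have := hA0 (k + 1); positivity
    rcases tent_stagger (hA0 (k + 1)) q r with h | h
    · rw [← hQ, ← hAQ] at h; exact lR0 k r hl h
    · rw [R1]; exact Bx_lip _ (lR0 (k + 1) r hl h)
  have dR : ∀ k, Dens a b (Cρ / A k) (R (k + 1)) := fun k =>
    ⟨R2 _, fun r x => (R3 _ r x).1, fun r x => (R3 _ r x).2, fun r => (lR (k + 1) r).mono (by
      have := hA0 (k + 1 + 1)
      rw [hAQ k, hAQ (k + 1), hCρ]; apply le_of_eq; field_simp; ring), R4 _⟩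
  have hδ0 : ∀ k, 0 ≤ δ k := fun k => by
    obtain ⟨h1, -, -, -, -, -, -, h8, -⟩ := hpar k
    refine le_trans ?_ h8
    have : 0 ≤ Γ := by linarith
    have : 0 ≤ C := by linarith
    positivity
  let S : ℕ → ℝ := fun k => ∑ j ∈ Finset.range k, δ j
  have hS0 : ∀ k, 0 ≤ S k := fun k => Finset.sum_nonneg fun j _ => hδ0 j
  have hS1 : ∀ k, S (k + 1) = S k + δ k := fun k => Finset.sum_range_succ _ _
  have hS2 : ∀ k, S k ≤ 1 / 4 := hδ
  have hl1 : ∀ k, 1 ≤ (1 - S k)⁻¹ := fun k =>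
    (one_le_inv₀ (by linarith [hS2 k])).2 (by linarith [hS0 k])
  have hl2 : ∀ k, (1 - S k)⁻¹ ≤ 2 := fun k =>
    inv_le_of_inv_le₀ two_pos (by linarith [hS2 k])
  let St : ℕ → Type := fun k => {x : (ℝ → E m → E m) × (ℝ → E m → ℝ) //
    Good (1 - S k)⁻¹ (k * (1 + m)) (2 * (A 0 - A k)) ((Cρ + 1) / A k) x.1 x.2}
  have nxt : ∀ k (x : St k), ∃ x' : St (k + 1),
      (∀ r y, ‖x'.1.1 r y - x.1.1 r y‖ ≤ A k) ∧ (∀ r y, |x'.1.2 r y - x.1.2 r y| ≤ 4 * δ k) ∧
      ∀ s ∈ Icc (0 : ℝ) 1,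
        (∀ y, |∫ r in (0 : ℝ)..s, (R (k + 1) r (x'.1.1 r y) * x'.1.2 r y -
          R k r (x.1.1 r y) * x.1.2 r y)| ≤ C * (N k * A k)) ∧
        Lip (C * Γ * N k) fun y => ∫ r in (0 : ℝ)..s,
          (R (k + 1) r (x'.1.1 r y) * x'.1.2 r y - R k r (x.1.1 r y) * x.1.2 r y) := by
    intro k x
    obtain ⟨h1, h2, h3, h4, h5, h6, h7, h8, -⟩ := hpar k
    have a0 := hA0 k
    have hδk : δ k ≤ 1 / 4 := by linarith [hS0 k, hS1 k, hS2 (k + 1)]
    obtain ⟨ψ', J', g1, g2, g3, g4⟩ := hstep (A k) (η k) Γ (δ k) _ _ _ _ (Cρ / A k) (A k / 3) (n k)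
      (N k) (R (k + 1)) x.1.1 x.1.2 a0 (by linarith [hA1 k]) (by positivity) (by linarith) h1 h2
      (by linarith) h3 h4 h5 h6 h7 h8 hδk (hl1 k) (hl2 k) (by linarith [hA1 0]) (by positivity)
      (by positivity) (by
        rw [← mul_div_assoc, ← mul_div_assoc, ← add_div]; gcongr) (by gcongr) (dR k) x.2
    simp only [← R1] at g4
    refine ⟨⟨(ψ', J'), ?_⟩, g2, g3, g4⟩
    have e : ((k + 1 : ℕ) : ℝ) * (1 + m) = k * (1 + m) + 1 + m := by push_cast; ring
    rw [e]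
    refine g1.mono (div_pos (by linarith [hl1 k]) (by linarith)) ?_ (by linarith [hA2 k]) ?_
    · rw [div_eq_mul_inv, ← mul_inv, hS1]
      refine inv_anti₀ (by linarith [hS2 (k + 1), hS1 k]) ?_
      nlinarith [mul_nonneg (hS0 k) (hδ0 k)]
    · have a1 := hA0 (k + 1)
      calc C * ((Cρ + 1) / A k + Cρ / A k + 1 / A k) = 2 * C * (Cρ + 1) / (Q * A (k + 1)) := by
            rw [← hAQ]; field_simp; ring
        _ ≤ Q * (Cρ + 1) / (Q * A (k + 1)) := by gcongr; linarith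
        _ = _ := by field_simp
  choose f hf using nxt
  let x0 : St 0 := ⟨(fun _ y => y, fun _ _ => 1), by
    refine ⟨fun r y y' => by simp [S], fun r y y' => by simp [S], fun r r' y => by simp,
      fun r y => by simp, fun r y => by simp [S], fun r y => by simp [S], fun r y y' => ?_,
      ⟨0, by simp⟩, fun r => push_id⟩
    have := hA0 0
    simp only [sub_self, abs_zero]; positivity⟩
  let x : ∀ k, St k := fun k => Nat.rec x0 f k
  have hΓ0 : 0 ≤ Γ := by linarith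
  have hC0 : 0 ≤ C := by linarith
  have p0 : 0 ≤ 16 * 2 ^ m * b / (A (0 + 1) / 6) := by have := hA0 (0 + 1); positivity
  have p1 : 0 ≤ 2 * C * C' := by positivity
  have p2 : 0 ≤ C * Γ * C' := by positivity
  refine ⟨R, fun k => (x k).1.1, fun k => (x k).1.2, fun k => 4 * δ k, fun k => (Cρ + 1) / A k,
    16 * 2 ^ m * b / (A (0 + 1) / 6) + 2 * C * C' + C * Γ * C', by positivity, hδs.mul_left 4, R2, R3,
    R5, fun r => ?_, fun k => (x k).2.mono (by linarith [hl1 k]) (hl2 k)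
      (by linarith [hA1 0, hA0 k]) le_rfl, fun k r y => ((hf k (x k)).1 r y).trans
      ((hAk k).trans (by gcongr; norm_num)), fun k => (hf k (x k)).2.1, fun k s hs => ?_⟩
  · simpa [x, x0] using (lR 0 r).mono (by linarith)
  · obtain ⟨k1, k2⟩ := (hf k (x k)).2.2 s hs
    obtain ⟨-, -, -, -, -, -, -, -, h9, h10⟩ := hpar k
    refine ⟨fun y => (k1 y).trans ?_, k2.mono ?_⟩
    · calc C * (N k * A k) ≤ C * (C' / 2 ^ k) := by gcongr
        _ = 2 * C * C' / 2 / 2 ^ k := by ring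
        _ ≤ _ := by gcongr; linarith
    · calc C * Γ * N k ≤ C * Γ * (C' * ((k : ℝ) + 1) ^ p) := by gcongr
        _ = C * Γ * C' * ((k : ℝ) + 1) ^ p := by ring
        _ ≤ _ := by gcongr; linarith

theorem core (hm : 0 < m) {a b p : ℝ} (ha : 0 < a) (hb : 0 < b) (hp : 5 < p) {ρ : ℝ → X m}
    (hc : Continuous ρ) (hU : ∀ η > 0, ∃ θ > 0, ∀ r, Md θ η (ρ r))
    (hab : ∀ r x, a ≤ ρ r x ∧ ρ r x ≤ b) (hout : ∀ r x, 2 ≤ ‖x‖ → ρ r x = a) :
    ∃ (ψ : ℝ → E m → E m) (J : ℝ → E m → ℝ) (C : ℝ), 0 ≤ C ∧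
      (∀ r y y', ‖ψ r y - ψ r y'‖ ≤ 2 * ‖y - y'‖) ∧ (∀ r y y', ‖y - y'‖ ≤ 2 * ‖ψ r y - ψ r y'‖) ∧
      (∀ (K : ℕ) r r' y, ‖ψ r y - ψ r' y‖ ≤ C * (K + 1) * |r - r'| + C / 2 ^ K) ∧
      Continuous (uncurry ψ) ∧ Continuous (uncurry J) ∧ (∀ r y, 1 / 2 ≤ J r y ∧ J r y ≤ 2) ∧
      (∀ r, Push (ψ r) (J r)) ∧
      ∀ (K : ℕ), ∀ s ∈ Icc (0 : ℝ) 1, ∀ y y',
        |(∫ r in (0 : ℝ)..s, ρ r (ψ r y) * J r y) - ∫ r in (0 : ℝ)..s, ρ r (ψ r y') * J r y'| ≤
          C * ((K : ℝ) + 1) ^ (p + 1) * ‖y - y'‖ + C / 2 ^ K := by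
  obtain ⟨R, ψ, J, δ, LJ, C, hC, hδ, R2, R3, R5, R6, hG, h1, h2, h3⟩ :=
    iterate hm ha hb hp hc hU hab hout
  have d1 : ∀ r y k, dist (ψ k r y) (ψ (k + 1) r y) ≤ 2 / 2 / 2 ^ k := fun r y k => by
    rw [dist_comm, dist_eq_norm]; exact h1 k r y
  have d2 : ∀ r y k, dist (J k r y) (J (k + 1) r y) ≤ δ k := fun r y k => by
    rw [dist_comm]; exact h2 k r y
  choose ψ' t1 using fun r y => cauchySeq_tendsto_of_complete (cauchySeq_of_le_geometric_two (d1 r y))
  choose J' t2 using fun r y =>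
    cauchySeq_tendsto_of_complete (cauchySeq_of_dist_le_of_summable δ (d2 r y) hδ)
  have u1 : ∀ k r y, ‖ψ k r y - ψ' r y‖ ≤ 2 / 2 ^ k := fun k r y => by
    rw [← dist_eq_norm]; exact dist_le_of_le_geometric_two_of_tendsto (d1 r y) (t1 r y) k
  have hJ := fun k => (hG k).J_mem one_le_two le_rfl
  have cψ : ∀ k, Continuous (uncurry (ψ k)) := fun k => joint_cont (hG k).tm (hG k).up
  have cJ : ∀ k, Continuous (uncurry (J k)) := fun k => by
    obtain ⟨K, hK⟩ := (hG k).Jt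
    exact joint_cont (V := ℝ) hK (hG k).JL
  have cψ' : Continuous (uncurry ψ') := by
    refine TendstoUniformly.continuous (F := fun k => uncurry (ψ k)) (p := atTop)
      (Metric.tendstoUniformly_iff.2 fun ε hε => ?_) (Frequently.of_forall cψ)
    filter_upwards [((tendsto_const_nhds (x := (2 : ℝ))).div_atTop
      (tendsto_pow_atTop_atTop_of_one_lt one_lt_two)).eventually (gt_mem_nhds hε)] with k hk z
    rw [dist_comm, dist_eq_norm]
    exact (u1 k z.1 z.2).trans_lt hk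
  have cJ' : Continuous (uncurry J') := by
    refine TendstoUniformly.continuous (F := fun k => uncurry (J k)) (p := atTop)
      (Metric.tendstoUniformly_iff.2 fun ε hε => ?_) (Frequently.of_forall cJ)
    filter_upwards [(tendsto_sum_nat_add δ).eventually (gt_mem_nhds hε)] with k hk z
    rw [dist_comm]
    refine (dist_le_tsum_of_dist_le_of_tendsto δ (d2 z.1 z.2) hδ (t2 z.1 z.2) k).trans_lt ?_
    simpa only [add_comm k] using hk
  let F : ℕ → ℝ → E m → ℝ := fun k s y => ∫ r in (0 : ℝ)..s, R k r (ψ k r y) * J k r y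
  have cI : ∀ k y, Continuous fun r => R k r (ψ k r y) * J k r y := fun k y => by
    have := R2 k
    have : Continuous fun r => ψ k r y := (cψ k).comp (f := fun r => (r, y)) (by fun_prop)
    have : Continuous fun r => J k r y := (cJ k).comp (f := fun r => (r, y)) (by fun_prop)
    fun_prop
  have eF : ∀ k s y, ∫ r in (0 : ℝ)..s, (R (k + 1) r (ψ (k + 1) r y) * J (k + 1) r y -
      R k r (ψ k r y) * J k r y) = F (k + 1) s y - F k s y := fun k s y =>
    intervalIntegral.integral_sub ((cI _ y).intervalIntegrable _ _) ((cI _ y).intervalIntegrable _ _)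
  simp only [eF] at h3
  have tF : ∀ s y, Tendsto (fun k => F k s y) atTop
      (𝓝 (∫ r in (0 : ℝ)..s, ρ r (ψ' r y) * J' r y)) := fun s y => by
    refine intervalIntegral.tendsto_integral_filter_of_dominated_convergence (fun _ => b * 2)
      (Eventually.of_forall fun k => (cI k y).aestronglyMeasurable)
      (Eventually.of_forall fun k => Eventually.of_forall fun r _ => ?_) (by simp)
      (Eventually.of_forall fun r _ => Tendsto.mul ?_ (t2 r y))
    · rw [norm_mul, Real.norm_of_nonneg (ha.le.trans (R3 _ _ _).1),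
        Real.norm_of_nonneg (by linarith [(hJ k r y).1])]
      exact mul_le_mul (R3 _ _ _).2 (hJ k r y).2 (by linarith [(hJ k r y).1]) hb.le
    · have k1 : Tendsto (fun k => R k r (ψ k r y) - ρ r (ψ k r y)) atTop (𝓝 0) := by
        refine Metric.tendsto_nhds.2 fun ε hε => ?_
        filter_upwards [R5 (ε / 2) (by positivity)] with k hk
        rw [Real.dist_eq, sub_zero]
        linarith [hk r (ψ k r y)]
      simpa using k1.add (((ρ r).continuous.tendsto _).comp (t1 r y))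
  have lF : ∀ s ∈ Icc (0 : ℝ) 1, ∀ K : ℕ, Lip (C * ((K : ℝ) + 1) ^ (p + 1)) (F K s) := by
    intro s hs K
    induction K with
    | zero =>
      intro y y'
      simp only [F]
      rw [← intervalIntegral.integral_sub ((cI _ y).intervalIntegrable _ _)
        ((cI _ y').intervalIntegrable _ _)]
      refine (abs_int_le_const hs.1 fun r => R6 r y y').trans ?_
      have : 0 ≤ C * ‖y - y'‖ := by positivity
      simp only [Nat.cast_zero, zero_add, Real.one_rpow, mul_one]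
      nlinarith [hs.2]
    | succ K ih =>
      have := (ih.add (h3 K s hs).2).mono (C' := C * (((K + 1 : ℕ) : ℝ) + 1) ^ (p + 1)) (by
        have h0 : (0 : ℝ) < K + 1 := by positivity
        rw [← mul_add, Real.rpow_add_one h0.ne', Real.rpow_add_one (by positivity)]
        push_cast
        have : ((K : ℝ) + 1) ^ p ≤ (K + 1 + 1) ^ p :=
          Real.rpow_le_rpow h0.le (by linarith) (by linarith)
        have h4 : 0 ≤ ((K : ℝ) + 1) ^ p := by positivity
        gcongr C * ?_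
        nlinarith)
      simpa using this
  refine ⟨ψ', J', 2 * C + 4 + m, by positivity, fun r y y' => ?_, fun r y y' => ?_,
    fun K r r' y => ?_, cψ', cJ', fun r y => ?_, fun r => ?_, fun K s hs y y' => ?_⟩
  · exact le_of_tendsto' ((t1 r y).sub (t1 r y')).norm fun k => (hG k).up r y y'
  · exact ge_of_tendsto' (((t1 r y).sub (t1 r y')).norm.const_mul 2) fun k => (hG k).lo r y y'
  · have k1 := u1 K r y
    have k2 := u1 K r' y
    have k3 := (hG K).tm r r' y
    have k4 := norm_sub_le_norm_sub_add_norm_sub (ψ' r y) (ψ K r y) (ψ' r' y)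
    have k5 := norm_sub_le_norm_sub_add_norm_sub (ψ K r y) (ψ K r' y) (ψ' r' y)
    rw [norm_sub_rev] at k1
    have k6 : K * (1 + m) * |r - r'| ≤ (2 * C + 4 + m) * (K + 1) * |r - r'| := by
      rw [mul_comm (K : ℝ)]; gcongr <;> linarith
    have k7 : 2 / 2 ^ K + 2 / 2 ^ K ≤ (2 * C + 4 + m) / 2 ^ K := by
      rw [← add_div]
      exact div_le_div_of_nonneg_right (by linarith [Nat.cast_nonneg (α := ℝ) m]) (by positivity)
    linarith
  · exact ⟨ge_of_tendsto' (t2 r y) fun k => (hJ k r y).1, le_of_tendsto' (t2 r y) fun k => (hJ k r y).2⟩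
  · exact push_lim (fun k => (cψ k).comp (f := fun y => (r, y)) (by fun_prop))
      (fun k => (cJ k).comp (f := fun y => (r, y)) (by fun_prop))
      (cψ'.comp (f := fun y => (r, y)) (by fun_prop)) (cJ'.comp (f := fun y => (r, y)) (by fun_prop))
      (fun k => (hG k).nr r) (fun k y => ⟨le_trans (by norm_num) (hJ k r y).1, (hJ k r y).2⟩)
      (fun k => (hG k).push r) (t1 r) (t2 r)
  · have u2 : ∀ y, |F K s y - ∫ r in (0 : ℝ)..s, ρ r (ψ' r y) * J' r y| ≤ C / 2 ^ K := fun y =>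
      dist_le_of_le_geometric_two_of_tendsto (f := fun k => F k s y)
        (fun k => by rw [dist_comm]; exact (h3 k s hs).1 y) (tF s y) K
    have k1 := abs_le.1 (u2 y)
    have k2 := abs_le.1 (u2 y')
    have k3 := abs_le.1 (lF s hs K y y')
    have hm0 := Nat.cast_nonneg (α := ℝ) m
    have k6 : C * ((K : ℝ) + 1) ^ (p + 1) * ‖y - y'‖ ≤
        (2 * C + 4 + m) * ((K : ℝ) + 1) ^ (p + 1) * ‖y - y'‖ := by gcongr; linarith
    have k7 : C / 2 ^ K + C / 2 ^ K ≤ (2 * C + 4 + m) / 2 ^ K := by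
      rw [← add_div]
      exact div_le_div_of_nonneg_right (by linarith) (by positivity)
    rw [abs_le]
    constructor <;> linarith [k1.1, k1.2, k2.1, k2.2, k3.1, k3.2]

end Pool.Agent.MP_20bec2_an

end MrgPart7

-- marker of a merged file
example : 731051 + 671786 = 731051 + 671786 := rfl
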