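import Mathlib.Analysis.Complex.ExponentialBounds
import Pool.Agent.MP_20bec2_an.Limit

-- ======== part 0: formerly Pool.Agent.MP_20bec2_an.Strip
section MrgPart0

set_option autoImplicit false
open MeasureTheory Set Function Filter Topology
open scoped BoundedContinuousFunction

namespace Pool.Agent.MP_20bec2_an

variable {m : ℕ}

lemma num4 {C k P t : ℝ} (hC : 0 ≤ C) (hk : 1 ≤ k) (hP : 1 ≤ P) (ht : 0 ≤ t) {b u w : ℝ} (hb : 0 ≤ b)
    (h1 : u ≤ 2 * (t + (C * k * t + C * t))) (h2 : w ≤ 2 * b * t + (C * P * u + C * t)) :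
    u ≤ (2 + 4 * C + 2 * b + C * (2 + 4 * C) + C) * (P * k) * t ∧
    w ≤ (2 + 4 * C + 2 * b + C * (2 + 4 * C) + C) * (P * k) * t := by
  have a1 : t ≤ k * t := le_mul_of_one_le_left ht hk
  have a2 : k * t ≤ P * k * t := by rw [mul_assoc]; exact le_mul_of_one_le_left (by positivity) hP
  have a3 : u ≤ (2 + 4 * C) * (k * t) := by nlinarith [mul_le_mul_of_nonneg_left a1 hC]
  have a4 : C * P * u ≤ C * P * ((2 + 4 * C) * (k * t)) := by gcongr
  have a5 : (2 + 4 * C) * (k * t) ≤ (2 + 4 * C) * (P * k * t) := by gcongr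
  have a6 : b * t ≤ b * (P * k * t) := mul_le_mul_of_nonneg_left (a1.trans a2) hb
  have a7 : C * t ≤ C * (P * k * t) := mul_le_mul_of_nonneg_left (a1.trans a2) hC
  have a8 : 0 ≤ P * k * t := by positivity
  have a9 : 0 ≤ C * (P * k * t) := by positivity
  have a10 : 0 ≤ C * C * (P * k * t) := by positivity
  have a11 : 0 ≤ b * (P * k * t) := by positivity
  constructor <;> nlinarith

lemma num5 {C k P t : ℝ} (hC : 0 ≤ C) (hk : 1 ≤ k) (hP : 1 ≤ P) (ht : 0 ≤ t) {a u w : ℝ} (ha : 0 < a)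
    (h1 : a / 2 * u ≤ t + (C * P * t + C * t)) (h2 : w ≤ 2 * t + (C * k * u + C * t)) :
    u ≤ ((1 + C) * (2 / a * (1 + 2 * C)) + 2 + C) * (P * k) * t ∧
    w ≤ ((1 + C) * (2 / a * (1 + 2 * C)) + 2 + C) * (P * k) * t := by
  obtain ⟨D, hD⟩ : ∃ D, D = 2 / a * (1 + 2 * C) := ⟨_, rfl⟩
  have hD0 : 0 ≤ D := by rw [hD]; positivity
  have a1 : t ≤ P * t := le_mul_of_one_le_left ht hP
  have a2 : P * t ≤ P * k * t := by
    rw [mul_comm P k, mul_assoc]; exact le_mul_of_one_le_left (by positivity) hk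
  have a3 : u ≤ D * (P * t) := by
    refine le_of_mul_le_mul_left ?_ (half_pos ha)
    have : a / 2 * (D * (P * t)) = (1 + 2 * C) * (P * t) := by rw [hD]; field_simp
    rw [this]
    nlinarith [mul_le_mul_of_nonneg_left a1 hC]
  have a4 : C * k * u ≤ C * k * (D * (P * t)) := by gcongr
  have a5 : D * (P * t) ≤ D * (P * k * t) := by gcongr
  have a7 : C * t ≤ C * (P * k * t) := mul_le_mul_of_nonneg_left (a1.trans a2) hC
  have a8 : 0 ≤ P * k * t := by positivity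
  have a9 : 0 ≤ C * (P * k * t) := by positivity
  have a10 : 0 ≤ C * D * (P * k * t) := by positivity
  have a11 : 0 ≤ D * (P * k * t) := by positivity
  rw [← hD]
  constructor <;> nlinarith

theorem strip (hm : 0 < m) {a b p : ℝ} (ha : 0 < a) (hb : 0 < b) (hp : 5 < p) {ρ : ℝ → X m}
    (hc : Continuous ρ) (hU : ∀ η > 0, ∃ θ > 0, ∀ r, Md θ η (ρ r))
    (hab : ∀ r x, a ≤ ρ r x ∧ ρ r x ≤ b) (hout : ∀ r x, 2 ≤ ‖x‖ → ρ r x = a) :
    ∃ (f : ℝ × E m → ℝ × E m) (C : ℝ), 0 ≤ C ∧ Continuous f ∧ Injective f ∧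
      (∀ φ : ℝ × E m → ENNReal, Measurable φ →
        ∫⁻ z, φ (f z) * ENNReal.ofReal (ρ z.1 z.2) = ∫⁻ z, φ z) ∧
      ∀ (K : ℕ) (z z' : ℝ × E m), z.1 ∈ Icc (0 : ℝ) 1 → z'.1 ∈ Icc (0 : ℝ) 1 →
        (‖z - z'‖ ≤ 1 / 2 ^ K → ‖f z - f z'‖ ≤ C * ((K : ℝ) + 1) ^ (p + 2) * (1 / 2 ^ K)) ∧
        (‖f z - f z'‖ ≤ 1 / 2 ^ K → ‖z - z'‖ ≤ C * ((K : ℝ) + 1) ^ (p + 2) * (1 / 2 ^ K)) := by
  obtain ⟨ψ, J, C, hC, up, lo, tm, cψ, cJ, hJ, hP, hF⟩ := core hm ha hb hp hc hU hab hout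
  have sur : ∀ r, Surjective (ψ r) := fun r => (hP r).surj (unifCont_of_lip (up r)) (lo r)
  have inj : ∀ r, Injective (ψ r) := fun r y y' e => by
    have := lo r y y'
    rw [e, sub_self, norm_zero, mul_zero] at this
    exact sub_eq_zero.1 (norm_le_zero_iff.1 this)
  choose g hg using sur
  have hg' : ∀ r y, g r (ψ r y) = y := fun r y => inj r (hg r _)
  have gb : ∀ r r' x x', ‖g r x - g r' x'‖ ≤ 2 * (‖x - x'‖ + ‖ψ r' (g r' x') - ψ r (g r' x')‖) :=
    fun r r' x x' => by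
    have k1 := lo r (g r x) (g r' x')
    have k2 := norm_sub_le_norm_sub_add_norm_sub x x' (ψ r (g r' x'))
    rw [hg] at k1
    rw [hg]
    linarith
  have cg : Continuous fun z : ℝ × E m => g z.1 z.2 := by
    refine continuous_iff_continuousAt.2 fun z₀ => tendsto_iff_norm_sub_tendsto_zero.2 ?_
    have h1 : Continuous fun z : ℝ × E m => ψ z.1 (g z₀.1 z₀.2) :=
      cψ.comp (f := fun z : ℝ × E m => (z.1, g z₀.1 z₀.2)) (by fun_prop)
    have h2 : Continuous fun z : ℝ × E m =>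
      2 * (‖z.2 - z₀.2‖ + ‖ψ z₀.1 (g z₀.1 z₀.2) - ψ z.1 (g z₀.1 z₀.2)‖) := by fun_prop
    have h3 := h2.tendsto z₀
    simp only [sub_self, norm_zero, add_zero, mul_zero] at h3
    exact squeeze_zero (fun _ => norm_nonneg _) (fun z => gb _ _ _ _) h3
  obtain ⟨G, hG⟩ : ∃ G : ℝ → E m → ℝ, ∀ r y, G r y = ρ r (ψ r y) * J r y := ⟨_, fun _ _ => rfl⟩
  simp only [← hG] at hF
  have cG : Continuous fun z : ℝ × E m => G z.1 z.2 := by
    simp only [hG]
    have h1 : Continuous fun z : ℝ × E m => ψ z.1 z.2 := cψ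
    have h2 : Continuous fun z : ℝ × E m => J z.1 z.2 := cJ
    fun_prop
  have cG1 : ∀ y, Continuous fun r => G r y := fun y => cG.comp (f := fun r => (r, y)) (by fun_prop)
  have bG : ∀ r y, a / 2 ≤ G r y ∧ G r y ≤ 2 * b := fun r y => by
    have k1 := hab r (ψ r y)
    have k2 := hJ r y
    rw [hG]
    constructor <;> nlinarith [k1.1, k1.2, k2.1, k2.2]
  obtain ⟨F, hF'⟩ : ∃ F : ℝ → E m → ℝ, ∀ s y, F s y = ∫ r in (0 : ℝ)..s, G r y := ⟨_, fun _ _ => rfl⟩
  simp only [← hF'] at hF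
  have cF : Continuous fun z : ℝ × E m => F z.1 z.2 := by
    simp only [hF']
    exact intervalIntegral.continuous_parametric_intervalIntegral_of_continuous
      (f := fun (z : ℝ × E m) (r : ℝ) => G r z.2)
      (cG.comp (f := fun w : (ℝ × E m) × ℝ => (w.2, w.1.2)) (by fun_prop)) (by fun_prop)
  have dF : ∀ y s, HasDerivAt (fun s => F s y) (G s y) s := fun y s => by
    simp only [hF']
    exact ((cG1 y).integral_hasStrictDerivAt 0 s).hasDerivAt
  have bF : ∀ y s s', a / 2 * |s - s'| ≤ |F s y - F s' y| ∧ |F s y - F s' y| ≤ 2 * b * |s - s'| := by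
    intro y s s'
    wlog h : s' ≤ s generalizing s s'
    · rw [abs_sub_comm s, abs_sub_comm (F s y)]; exact this s' s (le_of_not_ge h)
    have hd : Differentiable ℝ fun s => F s y := fun t => (dF y t).differentiableAt
    have k1 := mul_sub_le_image_sub_of_le_deriv hd (C := a / 2)
      (fun t => by rw [(dF y t).deriv]; exact (bG t y).1) h
    have k2 := image_sub_le_mul_sub_of_deriv_le hd (C := 2 * b)
      (fun t => by rw [(dF y t).deriv]; exact (bG t y).2) h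
    have k3 : 0 ≤ a / 2 * (s - s') := mul_nonneg (half_pos ha).le (sub_nonneg.2 h)
    rw [abs_of_nonneg (sub_nonneg.2 h), abs_of_nonneg (k3.trans k1)]
    exact ⟨k1, k2⟩
  have cf : Continuous fun z : ℝ × E m => (F z.1 (g z.1 z.2), g z.1 z.2) :=
    (cF.comp (f := fun z : ℝ × E m => (z.1, g z.1 z.2)) (by fun_prop)).prodMk cg
  refine ⟨fun z => (F z.1 (g z.1 z.2), g z.1 z.2), (2 + 4 * C + 2 * b + C * (2 + 4 * C) + C) +
    ((1 + C) * (2 / a * (1 + 2 * C)) + 2 + C), by positivity, cf, fun z z' e => ?_,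
    fun φ hφ => ?_, fun K z z' hz hz' => ?_⟩
  · obtain ⟨e1, e2⟩ := Prod.mk.inj e
    have k := (bF (g z.1 z.2) z.1 z'.1).1
    rw [e1, e2, sub_self, abs_zero] at k
    have e3 : z.1 = z'.1 := sub_eq_zero.1 (abs_nonpos_iff.1 (le_of_mul_le_mul_left
      (by rwa [mul_zero]) (half_pos ha)))
    refine Prod.ext e3 ?_
    rw [← hg z.1 z.2, e2, e3, hg]
  · have m1 : Measurable fun z : ℝ × E m =>
        φ (F z.1 (g z.1 z.2), g z.1 z.2) * ENNReal.ofReal (ρ z.1 z.2) :=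
      (hφ.comp cf.measurable).mul (Continuous.measurable (by fun_prop)).ennreal_ofReal
    have m2 : Measurable fun z : ℝ × E m => φ (F z.1 z.2, z.2) * ENNReal.ofReal (G z.1 z.2) :=
      (hφ.comp (cF.prodMk continuous_snd).measurable).mul cG.measurable.ennreal_ofReal
    rw [Measure.volume_eq_prod, lintegral_prod _ m1.aemeasurable,
      lintegral_prod_symm _ hφ.aemeasurable]
    have e1 : ∀ r, ∫⁻ x, φ (F r (g r x), g r x) * ENNReal.ofReal (ρ r x) =
        ∫⁻ y, φ (F r y, y) * ENNReal.ofReal (G r y) := fun r => by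
      rw [← hP r (fun x => φ (F r (g r x), g r x) * ENNReal.ofReal (ρ r x))
        (m1.comp (measurable_prodMk_left (x := r)))]
      congr 1; ext y
      simp only [hg', hG]
      rw [ENNReal.ofReal_mul (ha.le.trans (hab _ _).1), mul_assoc]
    simp only [e1]
    rw [lintegral_lintegral_swap m2.aemeasurable]
    congr 1; ext y
    exact cov_line (dF y) (half_pos ha) (fun t => (bG t y).1) fun u => φ (u, y)
  · obtain ⟨t, ht⟩ : ∃ t : ℝ, t = 1 / 2 ^ K := ⟨_, rfl⟩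
    have ht0 : 0 ≤ t := by rw [ht]; positivity
    have hCt : C / 2 ^ K = C * t := by rw [ht]; ring
    have hk : (1 : ℝ) ≤ K + 1 := by linarith [Nat.cast_nonneg (α := ℝ) K]
    have hP1 : (1 : ℝ) ≤ ((K : ℝ) + 1) ^ (p + 1) := Real.one_le_rpow hk (by linarith)
    have hP2 : ((K : ℝ) + 1) ^ (p + 2) = ((K : ℝ) + 1) ^ (p + 1) * (K + 1) := by
      rw [← Real.rpow_add_one (by positivity)]; congr 1; ring
    have tm' := tm K
    have hF2 := hF K
    simp only [hCt] at tm' hF2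
    rw [← ht, hP2, add_mul, add_mul]
    have p1 : 0 ≤ (2 + 4 * C + 2 * b + C * (2 + 4 * C) + C) *
      (((K : ℝ) + 1) ^ (p + 1) * (K + 1)) * t := by positivity
    have p2 : 0 ≤ ((1 + C) * (2 / a * (1 + 2 * C)) + 2 + C) *
      (((K : ℝ) + 1) ^ (p + 1) * (K + 1)) * t := by positivity
    constructor
    · intro h
      have h1 : |z.1 - z'.1| ≤ t := (norm_fst_le (z - z')).trans h
      have h2 : ‖z.2 - z'.2‖ ≤ t := (norm_snd_le (z - z')).trans h
      have k1 := gb z.1 z'.1 z.2 z'.2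
      have k2 := tm' z'.1 z.1 (g z'.1 z'.2)
      rw [abs_sub_comm] at k2
      have k3 : C * (K + 1) * |z.1 - z'.1| ≤ C * (K + 1) * t := by gcongr
      have k4 := (bF (g z.1 z.2) z.1 z'.1).2
      have k5 := hF2 z'.1 hz' (g z.1 z.2) (g z'.1 z'.2)
      have k6 := abs_sub_le (F z.1 (g z.1 z.2)) (F z'.1 (g z.1 z.2)) (F z'.1 (g z'.1 z'.2))
      have k7 : 2 * b * |z.1 - z'.1| ≤ 2 * b * t := by gcongr
      obtain ⟨n1, n2⟩ := num4 hC hk hP1 ht0 hb.le (u := ‖g z.1 z.2 - g z'.1 z'.2‖)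
        (w := |F z.1 (g z.1 z.2) - F z'.1 (g z'.1 z'.2)|) (by linarith) (by linarith)
      exact (norm_prod_le_iff.2 ⟨n2, n1⟩).trans (le_add_of_nonneg_right p2)
    · intro h
      have h1 : |F z.1 (g z.1 z.2) - F z'.1 (g z'.1 z'.2)| ≤ t := (norm_prod_le_iff.1 h).1
      have h2 : ‖g z.1 z.2 - g z'.1 z'.2‖ ≤ t := (norm_prod_le_iff.1 h).2
      have k4 := (bF (g z.1 z.2) z.1 z'.1).1
      have k5 := hF2 z'.1 hz' (g z.1 z.2) (g z'.1 z'.2)
      have k6 := abs_sub_le (F z.1 (g z.1 z.2)) (F z'.1 (g z'.1 z'.2)) (F z'.1 (g z.1 z.2))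
      rw [abs_sub_comm (F z'.1 (g z'.1 z'.2))] at k6
      have k7 : C * ((K : ℝ) + 1) ^ (p + 1) * ‖g z.1 z.2 - g z'.1 z'.2‖ ≤
        C * ((K : ℝ) + 1) ^ (p + 1) * t := by gcongr
      have k1 := up z.1 (g z.1 z.2) (g z'.1 z'.2)
      have k2 := tm' z.1 z'.1 (g z'.1 z'.2)
      have k3 := norm_sub_le_norm_sub_add_norm_sub (ψ z.1 (g z.1 z.2)) (ψ z.1 (g z'.1 z'.2))
        (ψ z'.1 (g z'.1 z'.2))
      rw [hg] at k1 k2
      rw [hg, hg] at k3
      obtain ⟨n1, n2⟩ := num5 hC hk hP1 ht0 ha (u := |z.1 - z'.1|) (w := ‖z.2 - z'.2‖)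
        (by linarith) (by linarith)
      exact (norm_prod_le_iff.2 ⟨n1, n2⟩).trans (le_add_of_nonneg_left p1)

lemma of_uc {g : ℝ × E m → ℝ} {a b : ℝ} (ha : 0 < a) (hab : ∀ z, a ≤ g z ∧ g z ≤ b)
    (hU : ∀ η > 0, ∃ θ > 0, ∀ z z', ‖z - z'‖ ≤ θ → |g z - g z'| ≤ η) :
    ∃ ρ : ℝ → X m, Continuous ρ ∧ (∀ η > 0, ∃ θ > 0, ∀ r, Md θ η (ρ r)) ∧
      (∀ r x, a ≤ ρ r x ∧ ρ r x ≤ b) ∧ (∀ r x, 2 ≤ ‖x‖ → ρ r x = a) ∧
      ∀ r x, ‖x‖ ≤ 1 → ρ r x = g (r, x) := by
  have hba : 0 ≤ b - a := by linarith [(hab 0).1, (hab 0).2]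
  let χ : E m → ℝ := fun x => max 0 (min 1 (2 - ‖x‖))
  have χ0 : ∀ x, 0 ≤ χ x := fun x => le_max_left _ _
  have χ1 : ∀ x, χ x ≤ 1 := fun x => max_le zero_le_one (min_le_left _ _)
  have χL : ∀ x x', |χ x - χ x'| ≤ ‖x - x'‖ := fun x x' => by
    refine (abs_max_sub_max_le_max _ _ _ _).trans (max_le (by simp) ?_)
    refine (abs_min_sub_min_le_max _ _ _ _).trans (max_le (by simp) ?_)
    rw [sub_sub_sub_cancel_left, abs_sub_comm]
    exact abs_norm_sub_norm_le _ _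
  let g' : ℝ × E m → ℝ := fun z => a + χ z.2 * (g z - a)
  have b' : ∀ z, a ≤ g' z ∧ g' z ≤ b := fun z => by
    have := χ0 z.2; have := χ1 z.2; have := hab z
    simp only [g']
    constructor <;> nlinarith [this.1, this.2]
  have U' : ∀ η > 0, ∃ θ > 0, ∀ z z', ‖z - z'‖ ≤ θ → |g' z - g' z'| ≤ η := fun η hη => by
    obtain ⟨θ, hθ, h⟩ := hU (η / 2) (by positivity)
    refine ⟨min θ (η / 2 / (b - a + 1)), by positivity, fun z z' hz => ?_⟩
    have k1 : |χ z.2 - χ z'.2| ≤ η / 2 / (b - a + 1) :=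
      (χL _ _).trans ((norm_snd_le (z - z')).trans (hz.trans (min_le_right _ _)))
    have k2 := abs_mul_sub_le (Q := b - a + 1) (P := 1) (q := η / 2) (y := g z - a) (y' := g z' - a) k1
      (by rw [abs_of_nonneg (by linarith [(hab z).1])]; linarith [(hab z).2])
      (by rw [sub_sub_sub_cancel_right]; exact h z z' (hz.trans (min_le_left _ _)))
      (by rw [abs_of_nonneg (χ0 _)]; exact χ1 _)
    rw [div_mul_cancel₀ _ (by positivity)] at k2
    simp only [g', add_sub_add_left_eq_sub]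
    linarith
  have c' : Continuous g' := Metric.continuous_iff.2 fun z ε hε => by
    obtain ⟨θ, hθ, h⟩ := U' (ε / 2) (by positivity)
    exact ⟨θ, hθ, fun z' hz' => (h z' z (by rw [← dist_eq_norm]; exact hz'.le)).trans_lt (by linarith)⟩
  refine ⟨fun r => BoundedContinuousFunction.ofNormedAddCommGroup (fun x => g' (r, x))
    (by fun_prop) b (fun x => by rw [Real.norm_of_nonneg (ha.le.trans (b' _).1)]; exact (b' _).2),
    Metric.continuous_iff.2 fun r ε hε => ?_, fun η hη => ?_, fun r x => b' _, fun r x hx => ?_,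
    fun r x hx => ?_⟩
  · obtain ⟨θ, hθ, h⟩ := U' (ε / 2) (by positivity)
    refine ⟨θ, hθ, fun r' hr' => lt_of_le_of_lt ((BoundedContinuousFunction.dist_le (C := ε / 2)
      (by positivity)).2 fun x => h (r', x) (r, x) ?_) (by linarith)⟩
    simpa [Prod.norm_def, hθ.le, Real.dist_eq] using hr'.le
  · obtain ⟨θ, hθ, h⟩ := U' η hη
    exact ⟨θ, hθ, fun r x x' hx => h (r, x) (r, x') (by simpa [Prod.norm_def] using hx)⟩
  · change a + max 0 (min 1 (2 - ‖x‖)) * (g (r, x) - a) = a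
    rw [max_eq_left (min_le_of_right_le (by linarith))]; ring
  · change a + max 0 (min 1 (2 - ‖x‖)) * (g (r, x) - a) = _
    rw [min_eq_left (by linarith), max_eq_right zero_le_one]; ring

end Pool.Agent.MP_20bec2_an

end MrgPart0

-- ======== part 1: formerly Pool.Agent.MP_20bec2_an.Final
section MrgPart1

set_option autoImplicit false
open MeasureTheory Set Function Filter Topology
open scoped BoundedContinuousFunction

namespace Pool.Agent.MP_20bec2_an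

variable {m : ℕ}

abbrev V (m : ℕ) := EuclideanSpace ℝ (Fin (m + 1))

noncomputable def eq1 (m : ℕ) : V m ≃ᵐ ℝ × E m :=
  (MeasurableEquiv.toLp 2 (Fin (m + 1) → ℝ)).symm.trans
    (MeasurableEquiv.piFinSuccAbove (fun _ => ℝ) 0)

lemma eq1_apply (x : V m) : eq1 m x = (x 0, fun j => x j.succ) := by
  simp [eq1, MeasurableEquiv.piFinSuccAbove, Fin.tail_def]

lemma eq1_mp : MeasurePreserving (eq1 m) :=
  (volume_preserving_piFinSuccAbove (fun _ : Fin (m + 1) => ℝ) 0).comp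
    (EuclideanSpace.volume_preserving_symm_measurableEquiv_toLp (Fin (m + 1)))

lemma eq1_le (x y : V m) : ‖eq1 m x - eq1 m y‖ ≤ ‖x - y‖ := by
  rw [eq1_apply, eq1_apply]
  refine norm_prod_le_iff.2 ⟨PiLp.norm_apply_le (x - y) 0,
    (pi_norm_le_iff_of_nonneg (norm_nonneg _)).2 fun j => PiLp.norm_apply_le (x - y) j.succ⟩

lemma le_eq1 (x y : V m) : ‖x - y‖ ≤ (m + 1) * ‖eq1 m x - eq1 m y‖ := by
  have h : ∀ i, ‖(x - y) i‖ ≤ ‖eq1 m x - eq1 m y‖ := fun i => by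
    rw [eq1_apply, eq1_apply]
    refine Fin.cases ?_ (fun j => ?_) i
    · exact norm_fst_le ((x 0, fun j => x j.succ) - (y 0, fun j => y j.succ) : ℝ × E m)
    · exact (norm_le_pi_norm ((fun j => x j.succ) - (fun j => y j.succ) : E m) j).trans
        (norm_snd_le ((x 0, fun j => x j.succ) - (y 0, fun j => y j.succ) : ℝ × E m))
  rw [EuclideanSpace.norm_eq, Real.sqrt_le_iff]
  refine ⟨by positivity, ?_⟩
  calc ∑ i, ‖(x - y) i‖ ^ 2 ≤ ∑ _i : Fin (m + 1), ‖eq1 m x - eq1 m y‖ ^ 2 :=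
        Finset.sum_le_sum fun i _ => by have := h i; gcongr
    _ = (m + 1) * ‖eq1 m x - eq1 m y‖ ^ 2 := by simp
    _ ≤ (m + 1) ^ 2 * ‖eq1 m x - eq1 m y‖ ^ 2 := by
        gcongr; nlinarith [Nat.cast_nonneg (α := ℝ) m]
    _ = _ := by ring

lemma dyadic {t C q u : ℝ} (ht0 : 0 ≤ t) (ht : t ≤ 1 / 2) (hC : 0 ≤ C) (hq : 0 ≤ q) (h0 : t = 0 → u = 0)
    (h : ∀ K : ℕ, t ≤ 1 / 2 ^ K → u ≤ C * ((K : ℝ) + 1) ^ q * (1 / 2 ^ K)) :
    u ≤ C * 3 ^ q * 2 * (t * Real.log (1 / t) ^ q) := by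
  rcases ht0.eq_or_lt with e | ht0
  · rw [h0 e.symm, ← e]; simp
  obtain ⟨K, h1, h2⟩ := exists_nat_pow_near_of_lt_one ht0 (by linarith) (y := 1 / 2) (by norm_num)
    (by norm_num)
  rw [one_div_pow] at h1 h2
  have l2 : 2 / 3 < Real.log 2 := lt_trans (by norm_num) Real.log_two_gt_d9
  have k1 : Real.log 2 ≤ Real.log (1 / t) :=
    Real.log_le_log two_pos (by rw [le_div_iff₀ ht0]; linarith)
  have k2 : K * Real.log 2 ≤ Real.log (1 / t) := by
    rw [← Real.log_pow]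
    refine Real.log_le_log (by positivity) ?_
    rw [le_div_iff₀ ht0]
    rw [le_div_iff₀ (by positivity)] at h2
    linarith
  have k3 : (K : ℝ) + 1 ≤ 3 * Real.log (1 / t) := by nlinarith [Nat.cast_nonneg (α := ℝ) K]
  have k4 : ((K : ℝ) + 1) ^ q ≤ 3 ^ q * Real.log (1 / t) ^ q := by
    rw [← Real.mul_rpow (by norm_num) (by linarith)]
    exact Real.rpow_le_rpow (by positivity) k3 hq
  have k5 : 1 / 2 ^ K ≤ 2 * t := by
    have : (1 : ℝ) / 2 ^ K = 2 * (1 / 2 ^ (K + 1)) := by rw [pow_succ]; field_simp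
    linarith
  have k6 : 0 ≤ Real.log (1 / t) := by linarith
  calc u ≤ C * (3 ^ q * Real.log (1 / t) ^ q) * (2 * t) := (h K h2).trans (by gcongr)
    _ = _ := by ring

theorem final (hm : 0 < m) {β : ℝ} (hβ : 7 < β) (I : Set (V m))
    (hI : I = {x | ∀ i, x i ∈ Icc (0 : ℝ) 1}) (ρ : V m → ℝ) (hρ : ContinuousOn ρ I)
    (hpos : ∀ x ∈ I, 0 < ρ x) :
    ∃ f : V m → V m, InjOn f I ∧
      (∃ C t₀ : ℝ, 0 < C ∧ 0 < t₀ ∧ t₀ < 1 ∧ ∀ x ∈ I, ∀ y ∈ I,
        (‖x - y‖ ≤ t₀ → ‖f x - f y‖ ≤ C * (‖x - y‖ * Real.log (1 / ‖x - y‖) ^ β)) ∧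
        (‖f x - f y‖ ≤ t₀ → ‖x - y‖ ≤ C * (‖f x - f y‖ * Real.log (1 / ‖f x - f y‖) ^ β))) ∧
      ∀ B, MeasurableSet B → ∫⁻ x in I ∩ f ⁻¹' B, ENNReal.ofReal (ρ x) = volume (B ∩ f '' I) := by
  let cl : V m → V m := fun x => WithLp.toLp 2 fun i => (projIcc (0 : ℝ) 1 zero_le_one (x i) : ℝ)
  have cl1 : ∀ x, cl x ∈ I := fun x => by rw [hI]; exact fun i => (projIcc (0 : ℝ) 1 zero_le_one (x i)).2
  have cl2 : ∀ x ∈ I, cl x = x := fun x hx => by
    rw [hI] at hx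
    ext i; simp [cl, projIcc_of_mem _ (hx i)]
  have cl3 : ∀ x y, ‖cl x - cl y‖ ≤ ‖x - y‖ := fun x y => by
    rw [EuclideanSpace.norm_eq, EuclideanSpace.norm_eq]
    refine Real.sqrt_le_sqrt (Finset.sum_le_sum fun i _ => ?_)
    have : ‖(cl x - cl y) i‖ ≤ ‖(x - y) i‖ := Set.abs_projIcc_sub_projIcc zero_le_one
    gcongr
  have hIc : IsCompact I := by
    have : I = WithLp.toLp 2 '' (Icc (0 : Fin (m + 1) → ℝ) 1) := by
      rw [hI]; ext x
      exact ⟨fun h => ⟨WithLp.ofLp x, ⟨fun i => (h i).1, fun i => (h i).2⟩, rfl⟩,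
        fun ⟨y, hy, e⟩ i => e ▸ ⟨hy.1 i, hy.2 i⟩⟩
    rw [this]
    exact isCompact_Icc.image (PiLp.continuous_toLp 2 _)
  have hIm : MeasurableSet I := hIc.isClosed.measurableSet
  obtain ⟨xa, hxa, ha⟩ := hIc.exists_isMinOn ⟨_, cl1 0⟩ hρ
  obtain ⟨xb, hxb, hb⟩ := hIc.exists_isMaxOn ⟨_, cl1 0⟩ hρ
  obtain ⟨R, R1, R2, R3, R4, R5⟩ := of_uc (g := fun z => ρ (cl ((eq1 m).symm z))) (hpos xa hxa)
    (b := ρ xb) (fun z => ⟨ha (cl1 _), hb (cl1 _)⟩) (fun η hη => by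
      obtain ⟨θ, hθ, h⟩ := Metric.uniformContinuousOn_iff_le.1
        (hIc.uniformContinuousOn_of_continuous hρ) η hη
      refine ⟨θ / (m + 1), by positivity, fun z z' hz => h _ (cl1 _) _ (cl1 _) ?_⟩
      rw [dist_eq_norm]
      refine (cl3 _ _).trans ((le_eq1 _ _).trans ?_)
      rw [MeasurableEquiv.apply_symm_apply, MeasurableEquiv.apply_symm_apply]
      rwa [le_div_iff₀ (by positivity), mul_comm] at hz)
  obtain ⟨f, C, hC, cf, inj, hf, hmod⟩ := strip hm (hpos xa hxa) (hpos xb hxb) (p := β - 2)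
    (by linarith) R1 R2 R3 R4
  rw [sub_add_cancel] at hmod
  have inj' : Injective fun x => (eq1 m).symm (f (eq1 m x)) :=
    (eq1 m).symm.injective.comp (inj.comp (eq1 m).injective)
  have mf : Measurable fun x => (eq1 m).symm (f (eq1 m x)) :=
    (eq1 m).symm.measurable.comp (cf.measurable.comp (eq1 m).measurable)
  have I0 : ∀ x ∈ I, (eq1 m x).1 ∈ Icc (0 : ℝ) 1 := fun x hx => by
    rw [hI] at hx; rw [eq1_apply]; exact hx 0
  have hR : ∀ x ∈ I, R (eq1 m x).1 (eq1 m x).2 = ρ x := fun x hx => by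
    rw [R5 _ _ ?_]
    · simp [cl2 x hx]
    · rw [hI] at hx; rw [eq1_apply]
      exact norm_cube ⟨fun j => (hx _).1, fun j => (hx _).2⟩
  refine ⟨fun x => (eq1 m).symm (f (eq1 m x)), inj'.injOn,
    ⟨(m + 1) * C * 3 ^ β * 2 + 1, 1 / 2, by positivity, by norm_num, by norm_num,
      fun x hx y hy => ⟨fun h => ?_, fun h => ?_⟩⟩, fun B hB => ?_⟩
  · refine (dyadic (norm_nonneg _) h (C := (m + 1) * C) (q := β) (by positivity) (by linarith)
      (fun e => by rw [sub_eq_zero.1 (norm_eq_zero.1 e), sub_self, norm_zero])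
      fun K hK => ?_).trans ?_
    · refine (le_eq1 _ _).trans ?_
      rw [MeasurableEquiv.apply_symm_apply, MeasurableEquiv.apply_symm_apply, mul_assoc, mul_assoc,
        ← mul_assoc C]
      exact mul_le_mul_of_nonneg_left ((hmod K _ _ (I0 x hx) (I0 y hy)).1 ((eq1_le x y).trans hK))
        (by positivity)
    · refine mul_le_mul_of_nonneg_right (by linarith) (mul_nonneg (norm_nonneg _) ?_)
      refine Real.rpow_nonneg ?_ _
      rw [one_div, Real.log_inv, neg_nonneg]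
      exact Real.log_nonpos (norm_nonneg _) (by linarith)
  · refine (dyadic (norm_nonneg _) h (C := (m + 1) * C) (q := β) (by positivity) (by linarith)
      (fun e => by rw [inj' (sub_eq_zero.1 (norm_eq_zero.1 e)), sub_self, norm_zero])
      fun K hK => ?_).trans ?_
    · refine (le_eq1 _ _).trans ?_
      rw [mul_assoc, mul_assoc, ← mul_assoc C]
      refine mul_le_mul_of_nonneg_left ((hmod K _ _ (I0 x hx) (I0 y hy)).2 (le_trans ?_ hK))
        (by positivity)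
      simpa using eq1_le ((eq1 m).symm (f (eq1 m x))) ((eq1 m).symm (f (eq1 m y)))
    · refine mul_le_mul_of_nonneg_right (by linarith) (mul_nonneg (norm_nonneg _) ?_)
      refine Real.rpow_nonneg ?_ _
      rw [one_div, Real.log_inv, neg_nonneg]
      exact Real.log_nonpos (norm_nonneg _) (by linarith)
  · have hU : MeasurableSet (I ∩ (fun x => (eq1 m).symm (f (eq1 m x))) ⁻¹' B) := hIm.inter (mf hB)
    have hS : MeasurableSet (B ∩ (fun x => (eq1 m).symm (f (eq1 m x))) '' I) :=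
      hB.inter ((mf.measurableEmbedding inj').measurableSet_image.2 hIm)
    have k := hf (fun z => (B ∩ (fun x => (eq1 m).symm (f (eq1 m x))) '' I).indicator 1
      ((eq1 m).symm z)) ((measurable_one.indicator hS).comp (eq1 m).symm.measurable)
    rw [← eq1_mp.lintegral_comp_emb (eq1 m).measurableEmbedding,
      ← eq1_mp.lintegral_comp_emb (eq1 m).measurableEmbedding] at k
    simp only [MeasurableEquiv.symm_apply_apply] at k
    rw [lintegral_indicator_one hS] at k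
    rw [← k, ← lintegral_indicator hU]
    congr 1; ext x
    by_cases hx : x ∈ I ∩ (fun x => (eq1 m).symm (f (eq1 m x))) ⁻¹' B
    · have h2 : (eq1 m).symm (f (eq1 m x)) ∈ B ∩ (fun x => (eq1 m).symm (f (eq1 m x))) '' I :=
        ⟨hx.2, x, hx.1, rfl⟩
      rw [indicator_of_mem hx, indicator_of_mem h2, hR x hx.1]; simp
    · rw [indicator_of_notMem hx, indicator_of_notMem, zero_mul]
      exact fun h => hx ⟨inj'.mem_set_image.1 h.2, h.1⟩

end Pool.Agent.MP_20bec2_an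

end MrgPart1

-- marker of a merged file
example : 731051 + 522342 = 731051 + 522342 := rfl
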